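import Pool.Agent.H905.OP.Reg
import Pool.Graph.R_seed8.Y723.HJ.Cls
import Mathlib.RingTheory.Polynomial.Basic
import Mathlib.RingTheory.Polynomial.Quotient

/-!
# One point: the affine chart

Project OP (helper905). `O` is a discrete valuation ring with uniformizer `ϖ` and field of fractions `k`,
`f` monic of odd degree over `O`. The ideals of `k[x, y] / (y ^ 2 - f)` and the ring `O[x, y] / (y ^ 2 - f)`.
The square of every ideal becomes principal after localization at the polynomials congruent to `1` if `f`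
is regular.
-/

set_option autoImplicit false

open Polynomial

namespace Pool.Agent.H905.OP

open Pool.Agent.Y723.HJ (CR OddM HF CC mi bar cl)

variable {O : Type*} [CommRing O] [IsDomain O] [IsDiscreteValuationRing O]
variable (k : Type*) [Field k] [Algebra O k] [IsFractionRing O k]

/-- `f` over `k`. -/
noncomputable abbrev fK (f : O[X]) : k[X] := f.map (algebraMap O k)

/-- The inclusion of `O[x, y]` in `k[x, y]`. -/
noncomputable abbrev jA (f : O[X]) : QA f →+* CR (fK k f) :=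
  qm (mapRingHom (algebraMap O k)) (q := f) (q' := fK k f) rfl

/-- Constants in `O[x, y]`. -/
noncomputable abbrev cA (f : O[X]) (p : O[X]) : QA f := algebraMap O[X] (QA f) p

/-- The reduction. -/
noncomputable abbrev rA (f : O[X]) : QA f →+* QA (rX O f) := qm (rX O) rfl

variable {k}

section basic

variable {f : O[X]}

theorem jA_inj : Function.Injective (jA k f) :=
  qm_inj _ _ (Polynomial.map_injective _ (IsFractionRing.injective O k))

theorem jA_re (z : QA f) : (jA k f z).re = z.re.map (algebraMap O k) := rfl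

theorem jA_im (z : QA f) : (jA k f z).im = z.im.map (algebraMap O k) := rfl

theorem cA_mul (p p' : O[X]) : cA f (p * p') = cA f p * cA f p' := map_mul _ _ _

theorem cA_pow (p : O[X]) (n : ℕ) : cA f (p ^ n) = cA f p ^ n := map_pow _ _ _

theorem jA_c (p : O[X]) : jA k f (cA f p) = CC (fK k f) (p.map (algebraMap O k)) := by
  refine QuadraticAlgebra.ext ?_ ?_
  · rfl
  · rw [jA_im]
    exact Polynomial.map_zero _

theorem rA_c (p : O[X]) : rA f (cA f p) = algebraMap _ _ (rX O p) := by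
  refine QuadraticAlgebra.ext ?_ ?_
  · rfl
  · rw [qm_im]
    exact map_zero _

theorem cA_ne {p : O[X]} (hp : p ≠ 0) : cA f p ≠ 0 := fun h => hp (congrArg QuadraticAlgebra.re h)

theorem rA_eq {ϖ : O} (hϖ : Irreducible ϖ) (z : QA f) : rA f z = 0 ↔ cA f (C ϖ) ∣ z :=
  (dvd_iff (ρ := rX O) rfl (rX_ker hϖ) z).symm

theorem clear_poly (p : k[X]) : ∃ b : O, b ≠ 0 ∧ ∃ a : O[X], a.map (algebraMap O k) =
    C (algebraMap O k b) * p := by
  obtain ⟨b, hb0, hb⟩ := IsLocalization.integerNormalization_spec (nonZeroDivisors O) p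
  refine ⟨b, nonZeroDivisors.ne_zero hb0, _, hb.trans ?_⟩
  rw [← Polynomial.smul_eq_C_mul, algebraMap_smul]

theorem clear (z : CR (fK k f)) : ∃ b : O, b ≠ 0 ∧ ∃ a : QA f,
    jA k f a = jA k f (cA f (C b)) * z := by
  obtain ⟨b₁, hb₁, a₁, h₁⟩ := clear_poly (O := O) z.re
  obtain ⟨b₂, hb₂, a₂, h₂⟩ := clear_poly (O := O) z.im
  refine ⟨b₁ * b₂, mul_ne_zero hb₁ hb₂, ⟨C b₂ * a₁, C b₁ * a₂⟩, ?_⟩
  rw [jA_c, ← Algebra.smul_def]
  refine QuadraticAlgebra.ext ?_ ?_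
  · rw [jA_re, QuadraticAlgebra.re_smul, Polynomial.map_mul, h₁, map_C, map_C,
      smul_eq_mul, map_mul, C_mul]
    ring
  · rw [jA_im, QuadraticAlgebra.im_smul, Polynomial.map_mul, h₂, map_C, map_C,
      smul_eq_mul, map_mul, C_mul]
    ring

/-- Nonzero constants are units over `k`. -/
theorem unit_c {b : O} (hb : b ≠ 0) : IsUnit (jA k f (cA f (C b))) := by
  rw [jA_c, map_C]
  refine IsUnit.map _ (isUnit_C.2 (isUnit_iff_ne_zero.2 ?_))
  rwa [Ne, FaithfulSMul.algebraMap_eq_zero_iff]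

end basic

section dom

variable {f : O[X]}

theorem nsq_red (hm : f.Monic) (ho : Odd f.natDegree) : NSq (rX O f) := by
  apply nsq_odd
  rw [coe_mapRingHom, hm.natDegree_map]
  exact ho

theorem oddM_red (hm : f.Monic) (ho : Odd f.natDegree) : OddM (rX O f) where
  monic := hm.map _
  odd := by
    rw [coe_mapRingHom, hm.natDegree_map]
    exact ho

theorem oddM_k (hm : f.Monic) (ho : Odd f.natDegree) : OddM (fK k f) where
  monic := hm.map _
  odd := by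
    rw [hm.natDegree_map]
    exact ho

theorem nsq_O (ho : Odd f.natDegree) : NSq f := by
  intro u v h
  by_contra hv
  have hf0 : f ≠ 0 := by
    intro h0
    rw [h0, natDegree_zero] at ho
    exact (by decide : ¬ Odd 0) ho
  have h1 := congrArg natDegree h
  rw [natDegree_pow, natDegree_mul hf0 (pow_ne_zero 2 hv), natDegree_pow] at h1
  obtain ⟨m, hm⟩ := ho
  omega

theorem prim {ϖ : O} (hϖ : Irreducible ϖ) (ho : Odd f.natDegree) {z : QA f} (hz : z ≠ 0) :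
    ∃ (n : ℕ) (w : QA f), z = cA f (C ϖ) ^ n * w ∧ rA f w ≠ 0 := by
  have : IsDomain (QA f) := isDomain_of (nsq_O ho)
  have : IsNoetherianRing (QA f) := isNoetherian_of_tower O[X]
    (isNoetherian_of_isNoetherianRing_of_finite O[X] (QA f))
  have hnu : ¬ IsUnit (cA f (C ϖ)) := by
    intro h
    rw [QuadraticAlgebra.isUnit_iff_norm_isUnit, QuadraticAlgebra.norm_algebraMap,
      isUnit_pow_iff two_ne_zero, isUnit_C] at h
    exact hϖ.not_isUnit h
  obtain ⟨w, hw, hw'⟩ := (FiniteMultiplicity.of_not_isUnit hnu hz).exists_eq_pow_mul_and_not_dvd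
  refine ⟨_, w, hw, ?_⟩
  rwa [Ne, rA_eq hϖ]

end dom

section aff

variable {f : O[X]}

/-- The part over `O` of an ideal. -/
theorem comap_sat (Λ : Ideal (CR (fK k f))) {b : O} (hb : b ≠ 0) (z : QA f)
    (h : cA f (C b) * z ∈ Λ.comap (jA k f)) : z ∈ Λ.comap (jA k f) := by
  rw [Ideal.mem_comap, map_mul] at h
  rw [Ideal.mem_comap]
  exact (Ideal.unit_mul_mem_iff_mem _ (unit_c hb)).1 h

theorem comap_ne {ϖ : O} (hϖ : Irreducible ϖ) (ho : Odd f.natDegree)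
    {Λ : Ideal (CR (fK k f))} (hΛ : Λ ≠ ⊥) : ∃ z ∈ Λ.comap (jA k f), rA f z ≠ 0 := by
  obtain ⟨z, hz, hz0⟩ := Submodule.exists_mem_ne_zero_of_ne_bot hΛ
  obtain ⟨b, hb, a, ha⟩ := clear z
  have ha0 : a ≠ 0 := by
    rintro rfl
    rw [map_zero] at ha
    exact hz0 ((unit_c hb).mul_right_eq_zero.1 ha.symm)
  obtain ⟨n, w, hw, hw'⟩ := prim hϖ ho ha0
  refine ⟨w, ?_, hw'⟩
  have h1 : cA f (C (ϖ ^ n)) * w ∈ Λ.comap (jA k f) := by
    rw [C_pow, cA_pow, ← hw, Ideal.mem_comap, ha]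
    exact Ideal.mul_mem_left _ _ hz
  exact comap_sat Λ (pow_ne_zero n hϖ.ne_zero) w h1

/-- The square of an ideal is principal up to polynomials congruent to `1`. -/
theorem k1 {ϖ : O} (hϖ : Irreducible ϖ) (h2 : ϖ ∣ 2) (hm : f.Monic) (ho : Odd f.natDegree)
    (hr : Reg ϖ f) {Λ : Ideal (CR (fK k f))} (hΛ : Λ ≠ ⊥) :
    ∃ (ξ : QA f) (Φ : O[X]), rX O Φ = 1 ∧ ξ ≠ 0 ∧ jA k f ξ ∈ Λ * Λ ∧
      ∀ z ∈ Λ * Λ, jA k f (cA f Φ) * z ∈ Ideal.span {jA k f ξ} := by
  have : IsDomain (QA f) := isDomain_of (nsq_O ho)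
  obtain ⟨e₁, e₂, s, a, b, c, he₁, he₂, hr1, -, hs, hb0, hab, hrep, H1, H2⟩ :=
    lat (ρ := rX O) (q := f) rfl (nsq_red hm ho) rX_surj (rX_ker hϖ) (Λ.comap (jA k f))
      (fun z hz => comap_sat Λ hϖ.ne_zero z hz) (comap_ne hϖ ho hΛ)
  obtain ⟨α, β, hαβ⟩ := reg_cop' hϖ h2 hr hs hab
  have k2 : rX O 2 = 0 := by
    rw [rX_ker hϖ]
    obtain ⟨t, ht⟩ := h2
    refine ⟨C t, ?_⟩
    rw [← C_mul, ← ht]
    rfl
  set s' : O[X] := α * b + β * c with hs'
  set U : O[X] := s' ^ 2 + 4 * a ^ 2 * α * β with hU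
  have hU1 : rX O U = 1 := by
    have e4 : U = s' ^ 2 + 2 * (2 * a ^ 2 * α * β) := by rw [hU]; ring
    rw [e4, map_add, map_pow, hαβ, map_mul, k2, zero_mul, add_zero, one_pow]
  set A : QA f := cA f a
  set Bb : QA f := cA f b
  set Cc : QA f := cA f c
  set α' : QA f := cA f α
  set β' : QA f := cA f β
  set S' : QA f := cA f s' with hS'
  have hS2 : S' = α' * Bb + β' * Cc := by rw [hS', hs', cA, map_add, map_mul, map_mul]
  set η : QA f := ⟨-a, s⟩
  have hη : (⟨a, s⟩ : QA f) = η + 2 * A := by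
    have e1 : (2 : QA f) * A = cA f (2 * a) := by
      rw [cA, map_mul, map_ofNat]
    rw [e1]
    refine QuadraticAlgebra.ext ?_ ?_
    · rw [QuadraticAlgebra.re_add, QuadraticAlgebra.algebraMap_re]
      ring
    · rw [QuadraticAlgebra.im_add, QuadraticAlgebra.algebraMap_im, add_zero]
  rw [Algebra.smul_def] at H1 H2
  rw [hη] at H2
  have hU2 : cA f U = S' ^ 2 + 4 * A ^ 2 * α' * β' := by
    rw [hU, cA, map_add, map_pow, map_mul, map_mul, map_mul, map_pow, map_ofNat]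
  set ξ : QA f := α' * e₁ ^ 2 + β' * e₂ ^ 2 with hξ
  have i1 : cA f U * e₁ ^ 2 = ξ * (Bb * S' + 2 * A * β' * (η + 2 * A)) := by
    rw [hU2, hξ, hS2]
    linear_combination (β' * (α' * Bb + β' * Cc) * e₂ - 2 * A * α' * β' * e₁) * H1 -
      (β' * (α' * Bb + β' * Cc) * e₁ + 2 * A * β' ^ 2 * e₂) * H2
  have i2 : cA f U * (e₁ * e₂) = ξ * (S' * η + 2 * A * β' * Cc) := by
    rw [hU2, hξ, hS2]
    linear_combination (-(α' * (α' * Bb + β' * Cc) * e₁ + 2 * A * α' * β' * e₂)) * H1 -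
      (β' * (α' * Bb + β' * Cc) * e₂ - 2 * A * α' * β' * e₁) * H2
  have i3 : cA f U * e₂ ^ 2 = ξ * (S' * Cc - 2 * A * α' * η) := by
    rw [hU2, hξ, hS2]
    linear_combination (-(α' * (α' * Bb + β' * Cc) * e₂ - 2 * A * α' ^ 2 * e₁)) * H1 +
      (α' * (α' * Bb + β' * Cc) * e₁ + 2 * A * α' * β' * e₂) * H2
  have he10 : e₁ ≠ 0 := by
    rintro rfl
    exact hr1 (map_zero _)
  have hU0 : U ≠ 0 := by
    intro h
    rw [h, map_zero] at hU1
    exact zero_ne_one hU1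
  refine ⟨ξ, U * s ^ 2, ?_, ?_, ?_, ?_⟩
  · rw [map_mul, hU1, map_pow, hs, one_pow, one_mul]
  · intro h0
    rw [h0, zero_mul] at i1
    rcases mul_eq_zero.1 i1 with h | h
    · exact cA_ne hU0 h
    · exact he10 (pow_eq_zero_iff two_ne_zero |>.1 h)
  · rw [hξ, map_add, map_mul, map_mul, pow_two, pow_two, map_mul, map_mul]
    exact Ideal.add_mem _ (Ideal.mul_mem_left _ _ (Ideal.mul_mem_mul he₁ he₁))
      (Ideal.mul_mem_left _ _ (Ideal.mul_mem_mul he₂ he₂))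
  · intro z hz
    refine Submodule.mul_induction_on hz ?_ ?_
    · intro m hm' n hn'
      obtain ⟨b₁, hb₁, m', hm''⟩ := clear m
      obtain ⟨b₂, hb₂, n', hn''⟩ := clear n
      have hmI : m' ∈ Λ.comap (jA k f) := by
        rw [Ideal.mem_comap, hm'']
        exact Ideal.mul_mem_left _ _ hm'
      have hnI : n' ∈ Λ.comap (jA k f) := by
        rw [Ideal.mem_comap, hn'']
        exact Ideal.mul_mem_left _ _ hn'
      obtain ⟨u₁, v₁, h1⟩ := hrep _ hmI
      obtain ⟨u₂, v₂, h2⟩ := hrep _ hnI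
      rw [Algebra.smul_def, Algebra.smul_def, Algebra.smul_def] at h1 h2
      have h3 : cA f (U * s ^ 2) * (m' * n') =
          ξ * (cA f u₁ * cA f u₂ * (Bb * S' + 2 * A * β' * (η + 2 * A)) +
            (cA f u₁ * cA f v₂ + cA f v₁ * cA f u₂) * (S' * η + 2 * A * β' * Cc) +
            cA f v₁ * cA f v₂ * (S' * Cc - 2 * A * α' * η)) := by
        have e1 : cA f (U * s ^ 2) * (m' * n') = cA f U * ((cA f s * m') * (cA f s * n')) := by
          rw [cA, map_mul, map_pow]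
          ring
        rw [e1, h1, h2]
        linear_combination (cA f u₁ * cA f u₂) * i1 +
          (cA f u₁ * cA f v₂ + cA f v₁ * cA f u₂) * i2 + cA f v₁ * cA f v₂ * i3
      have h4 : jA k f (cA f (C b₁)) * (jA k f (cA f (C b₂)) *
          (jA k f (cA f (U * s ^ 2)) * (m * n))) ∈ Ideal.span {jA k f ξ} := by
        have e2 : jA k f (cA f (C b₁)) * (jA k f (cA f (C b₂)) *
            (jA k f (cA f (U * s ^ 2)) * (m * n))) = jA k f (cA f (U * s ^ 2) * (m' * n')) := by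
          rw [map_mul, map_mul, hm'', hn'']
          ring
        rw [e2, h3, map_mul]
        exact Ideal.mul_mem_right _ _ (Ideal.mem_span_singleton_self _)
      exact (Ideal.unit_mul_mem_iff_mem _ (unit_c hb₂)).1
        ((Ideal.unit_mul_mem_iff_mem _ (unit_c hb₁)).1 h4)
    · intro x y hx hy
      rw [mul_add]
      exact Ideal.add_mem _ hx hy

/-- Every square in the class group is the class of an ideal which contains a polynomial
congruent to `1`. -/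
theorem k2 {ϖ : O} (hϖ : Irreducible ϖ) (h2 : ϖ ∣ 2) (hm : f.Monic) (ho : Odd f.natDegree)
    (hr : Reg ϖ f) [HF (fK k f)] (d : ClassGroup (CR (fK k f))) :
    ∃ (E : Ideal (CR (fK k f))) (Φ : O[X]), E ≠ ⊥ ∧ cl E = d ^ 2 ∧ rX O Φ = 1 ∧
      jA k f (cA f Φ) ∈ E := by
  obtain ⟨Λ, hΛ, hcl⟩ := Pool.Agent.Y723.HJ.cl_surj d⁻¹
  obtain ⟨ξ, Φ, hΦ, hξ0, hξ, hall⟩ := k1 hϖ h2 hm ho hr hΛ
  have hjξ : jA k f ξ ≠ 0 := by
    rw [Ne, map_eq_zero_iff _ jA_inj]
    exact hξ0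
  have hΛΛ : Λ * Λ ≠ ⊥ := Pool.Agent.Y723.HJ.mul_ne_bot hΛ hΛ
  have h1 : Λ * Λ ∣ Ideal.span {jA k f ξ} := by
    rw [Ideal.dvd_iff_le, Ideal.span_le, Set.singleton_subset_iff]
    exact hξ
  obtain ⟨E, hE⟩ := h1
  have hE0 : E ≠ ⊥ := by
    rintro rfl
    rw [← Ideal.zero_eq_bot, mul_zero, Ideal.zero_eq_bot, Ideal.span_singleton_eq_bot] at hE
    exact hjξ hE
  refine ⟨E, Φ, hE0, ?_, hΦ, ?_⟩
  · have h3 := congrArg cl hE
    rw [Pool.Agent.Y723.HJ.cl_span hjξ, Pool.Agent.Y723.HJ.cl_mul hΛΛ hE0,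
      Pool.Agent.Y723.HJ.cl_mul hΛ hΛ, hcl] at h3
    have h4 : cl E = d * d := by
      have := h3.symm
      rw [← mul_inv_rev, inv_mul_eq_one] at this
      exact this.symm
    rw [h4, pow_two]
  · have h3 : Λ * Λ * E ∣ Λ * Λ * Ideal.span {jA k f (cA f Φ)} := by
      rw [← hE, Ideal.dvd_iff_le, mul_comm, Ideal.span_singleton_mul_le_iff]
      exact hall
    rw [mul_dvd_mul_iff_left hΛΛ, Ideal.dvd_iff_le, Ideal.span_le, Set.singleton_subset_iff] at h3
    exact h3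

/-- The class of a point: if it is divisible by `2 ^ (r + 1)`, there is a function. -/
theorem k3 {ϖ : O} (hϖ : Irreducible ϖ) (h2 : ϖ ∣ 2) (hm : f.Monic) (ho : Odd f.natDegree)
    (hr : Reg ϖ f) [HF (fK k f)] (r : ℕ) (d : ClassGroup (CR (fK k f)))
    {I : Ideal (CR (fK k f))} (hI : I ≠ ⊥) (hd : d ^ 2 ^ (r + 1) = cl I) :
    ∃ (E : Ideal (CR (fK k f))) (Φ : O[X]) (F : CR (fK k f)), E ≠ ⊥ ∧ rX O Φ = 1 ∧
      jA k f (cA f Φ) ∈ E ∧ F ≠ 0 ∧ E ^ 2 ^ r * bar I = Ideal.span {F} := by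
  obtain ⟨E, Φ, hE, hcl, hΦ, hmem⟩ := k2 hϖ h2 hm ho hr d
  have hpow : ∀ n : ℕ, E ^ n ≠ ⊥ ∧ cl (E ^ n) = cl E ^ n := by
    intro n
    induction n with
    | zero =>
      rw [pow_zero, pow_zero, Ideal.one_eq_top]
      refine ⟨top_ne_bot, ?_⟩
      rw [← Ideal.span_singleton_one]
      exact Pool.Agent.Y723.HJ.cl_span one_ne_zero
    | succ n ih =>
      rw [pow_succ, pow_succ]
      exact ⟨Pool.Agent.Y723.HJ.mul_ne_bot ih.1 hE, by
        rw [Pool.Agent.Y723.HJ.cl_mul ih.1 hE, ih.2]⟩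
  obtain ⟨h0, h1⟩ := hpow (2 ^ r)
  have hbar := Pool.Agent.Y723.HJ.bar_ne hI
  have hne := Pool.Agent.Y723.HJ.mul_ne_bot h0 hbar
  have h3 : cl (E ^ 2 ^ r * bar I) = 1 := by
    rw [Pool.Agent.Y723.HJ.cl_mul h0 hbar, h1, hcl, Pool.Agent.Y723.HJ.cl_bar hI, ← hd,
      ← pow_mul, ← pow_succ', mul_inv_cancel]
  rw [Pool.Agent.Y723.HJ.cl_def hne, ClassGroup.mk0_eq_one_iff] at h3
  obtain ⟨F, hF⟩ := h3.principal
  refine ⟨E, Φ, F, hE, hΦ, hmem, ?_, hF⟩
  rintro rfl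
  apply hne
  rw [hF]
  exact Ideal.span_singleton_eq_bot.2 rfl

/-- Gauss' lemma. -/
theorem gauss {ϖ : O} (hϖ : Irreducible ϖ) (hm : f.Monic) (ho : Odd f.natDegree)
    {F G : CR (fK k f)} {t : QA f} (ht : rA f t ≠ 0) (h : F * G = jA k f t) :
    ∃ (c c' : k) (F' G' : QA f), c * c' = 1 ∧ jA k f F' = CC (fK k f) (C c) * F ∧
      jA k f G' = CC (fK k f) (C c') * G ∧ F' * G' = t := by
  have hdA : IsDomain (QA f) := isDomain_of (nsq_O ho)
  have hdk : IsDomain (QA (rX O f)) := isDomain_of (nsq_red hm ho)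
  have := oddM_k (k := k) hm ho
  have ht0 : t ≠ 0 := by
    rintro rfl
    exact ht (map_zero _)
  have hjt : jA k f t ≠ 0 := by
    rw [Ne, map_eq_zero_iff _ jA_inj]
    exact ht0
  have hF0 : F ≠ 0 := by
    rintro rfl
    rw [zero_mul] at h
    exact hjt h.symm
  have hG0 : G ≠ 0 := by
    rintro rfl
    rw [mul_zero] at h
    exact hjt h.symm
  -- primitive multiples
  have hprim : ∀ z : CR (fK k f), z ≠ 0 → ∃ (c : k) (w : QA f), c ≠ 0 ∧
      jA k f w = CC (fK k f) (C c) * z ∧ rA f w ≠ 0 := by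
    intro z hz
    obtain ⟨b, hb, a, ha⟩ := clear z
    have ha0 : a ≠ 0 := by
      rintro rfl
      rw [map_zero] at ha
      exact hz ((unit_c hb).mul_right_eq_zero.1 ha.symm)
    obtain ⟨n, w, hw, hw'⟩ := prim hϖ ho ha0
    have hϖk : algebraMap O k ϖ ≠ 0 := by
      rw [Ne, FaithfulSMul.algebraMap_eq_zero_iff]
      exact hϖ.ne_zero
    have hbk : algebraMap O k b ≠ 0 := by
      rwa [Ne, FaithfulSMul.algebraMap_eq_zero_iff]
    refine ⟨(algebraMap O k ϖ ^ n)⁻¹ * algebraMap O k b,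
      w, mul_ne_zero (inv_ne_zero (pow_ne_zero n hϖk)) hbk, ?_, hw'⟩
    have h1 : CC (fK k f) (C (algebraMap O k ϖ ^ n)) * jA k f w =
        CC (fK k f) (C (algebraMap O k b)) * z := by
      have e1 : CC (fK k f) (C (algebraMap O k ϖ ^ n)) = jA k f (cA f (C ϖ)) ^ n := by
        rw [jA_c, map_C, C_pow]
        exact map_pow _ _ _
      rw [e1, ← map_pow, ← map_mul, ← hw, ha, jA_c, map_C]
    have h2 : CC (fK k f) (C ((algebraMap O k ϖ ^ n)⁻¹ * algebraMap O k b)) =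
        CC (fK k f) (C (algebraMap O k ϖ ^ n)⁻¹) * CC (fK k f) (C (algebraMap O k b)) := by
      rw [C_mul]
      exact map_mul _ _ _
    have h3 : CC (fK k f) (C (algebraMap O k ϖ ^ n)⁻¹) * CC (fK k f) (C (algebraMap O k ϖ ^ n))
        = 1 := by
      rw [← map_mul, ← C_mul, inv_mul_cancel₀ (pow_ne_zero n hϖk), C_1, map_one]
    rw [h2, mul_assoc, ← h1, ← mul_assoc, h3, one_mul]
  obtain ⟨c₁, F₁, hc₁, hF₁, hF₁'⟩ := hprim F hF0
  obtain ⟨c₂, G₁, hc₂, hG₁, hG₁'⟩ := hprim G hG0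
  have hmul : jA k f (F₁ * G₁) = CC (fK k f) (C (c₁ * c₂)) * jA k f t := by
    have e1 : CC (fK k f) (C (c₁ * c₂)) = CC (fK k f) (C c₁) * CC (fK k f) (C c₂) := by
      rw [C_mul]
      exact map_mul _ _ _
    rw [map_mul, hF₁, hG₁, ← h, e1]
    ring
  have hne : rA f (F₁ * G₁) ≠ 0 := by
    rw [map_mul]
    exact mul_ne_zero hF₁' hG₁'
  -- `c₁ c₂` is a unit of `O`
  obtain ⟨a, b, hb0, hab⟩ := IsFractionRing.div_surjective (A := O) (c₁ * c₂)
  have hb0' : b ≠ 0 := nonZeroDivisors.ne_zero hb0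
  have hbk : algebraMap O k b ≠ 0 := by
    rwa [Ne, FaithfulSMul.algebraMap_eq_zero_iff]
  have hc0 : c₁ * c₂ ≠ 0 := mul_ne_zero hc₁ hc₂
  have ha0 : a ≠ 0 := by
    rintro rfl
    rw [map_zero, zero_div] at hab
    exact hc0 hab.symm
  have hAB : cA f (C b) * (F₁ * G₁) = cA f (C a) * t := by
    apply jA_inj (k := k)
    rw [map_mul, map_mul _ (cA f (C a)), hmul, jA_c, jA_c, map_C, map_C, ← mul_assoc, ← map_mul,
      ← C_mul]
    congr 4
    rw [← hab]
    field_simp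
  obtain ⟨i, ua, hua⟩ := IsDiscreteValuationRing.eq_unit_mul_pow_irreducible ha0 hϖ
  obtain ⟨j, ub, hub⟩ := IsDiscreteValuationRing.eq_unit_mul_pow_irreducible hb0' hϖ
  have hcu : ∀ u : Oˣ, cA f (C (u : O)) * cA f (C ((u⁻¹ : Oˣ) : O)) = 1 := by
    intro u
    rw [← map_mul, ← C_mul, Units.mul_inv, C_1, map_one]
  have hϖr : rA f (cA f (C ϖ)) = 0 := (rA_eq hϖ _).2 dvd_rfl
  have hϖ0 : cA f (C ϖ) ≠ 0 := cA_ne (by rw [Ne, C_eq_zero]; exact hϖ.ne_zero)
  have hres : ∀ (u : Oˣ) (z : QA f), rA f z ≠ 0 → rA f (cA f (C (u : O)) * z) ≠ 0 := by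
    intro u z hz h0
    apply hz
    have h4 : z = cA f (C ((u⁻¹ : Oˣ) : O)) * (cA f (C (u : O)) * z) := by
      rw [← mul_assoc, mul_comm (cA f (C ((u⁻¹ : Oˣ) : O))), hcu, one_mul]
    rw [h4, map_mul, h0, mul_zero]
  have hij : i = j := by
    have h5 : cA f (C ϖ) ^ j * (cA f (C (ub : O)) * (F₁ * G₁)) =
        cA f (C ϖ) ^ i * (cA f (C (ua : O)) * t) := by
      rw [hua, hub, C_mul, C_mul, C_pow, C_pow] at hAB
      rw [cA, cA, map_mul, map_mul, map_pow, map_pow] at hAB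
      linear_combination hAB
    rcases lt_trichotomy i j with hlt | heq | hgt
    · exfalso
      obtain ⟨m, rfl⟩ : ∃ m, j = i + (m + 1) := ⟨j - i - 1, by omega⟩
      rw [pow_add, mul_assoc] at h5
      have h6 := mul_left_cancel₀ (pow_ne_zero i hϖ0) h5
      refine hres ua t ht ?_
      rw [← h6, pow_succ, map_mul, map_mul, hϖr, mul_zero, zero_mul]
    · exact heq
    · exfalso
      obtain ⟨m, rfl⟩ : ∃ m, i = j + (m + 1) := ⟨i - j - 1, by omega⟩
      rw [pow_add, mul_assoc] at h5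
      have h6 := mul_left_cancel₀ (pow_ne_zero j hϖ0) h5
      refine hres ub (F₁ * G₁) hne ?_
      rw [h6, pow_succ, map_mul, map_mul, hϖr, mul_zero, zero_mul]
  -- the unit
  obtain ⟨u, hu⟩ : ∃ u : Oˣ, u = ua * ub⁻¹ := ⟨_, rfl⟩
  have hcc : c₁ * c₂ = algebraMap O k (u : O) := by
    have e1 : (u : O) * b = a := by
      rw [hu, hua, hub, hij, Units.val_mul]
      have : ((ub⁻¹ : Oˣ) : O) * (ub : O) = 1 := Units.inv_mul ub
      linear_combination (ua : O) * ϖ ^ j * this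
    rw [← hab, div_eq_iff hbk, ← map_mul, e1]
  have huk : algebraMap O k (u : O) ≠ 0 := by rw [← hcc]; exact hc0
  refine ⟨c₁, c₂ * (algebraMap O k (u : O))⁻¹, F₁, cA f (C ((u⁻¹ : Oˣ) : O)) * G₁, ?_, hF₁, ?_, ?_⟩
  · rw [← mul_assoc, hcc, mul_inv_cancel₀ huk]
  · have e1 : algebraMap O k ((u⁻¹ : Oˣ) : O) = (algebraMap O k (u : O))⁻¹ := by
      apply eq_inv_of_mul_eq_one_left
      rw [← map_mul, Units.inv_mul, map_one]
    rw [map_mul, hG₁, jA_c, map_C, e1, ← mul_assoc, ← map_mul, ← C_mul, mul_comm c₂]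
  · apply jA_inj (k := k)
    have e2 : F₁ * (cA f (C ((u⁻¹ : Oˣ) : O)) * G₁) = cA f (C ((u⁻¹ : Oˣ) : O)) * (F₁ * G₁) := by
      ring
    rw [e2, map_mul, hmul, hcc, ← mul_assoc, jA_c, map_C, ← map_mul, ← C_mul, ← map_mul,
      Units.inv_mul, map_one, C_1, map_one, one_mul]

end aff

end Pool.Agent.H905.OP
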