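import Pool.Agent.H905.OP.Inf

/-!
# One point: ideals in the chart at infinity

Project OP (helper905).
-/

set_option autoImplicit false

open Polynomial

namespace Pool.Agent.H905.OP

open Pool.Agent.Y723.HJ (CR OddM HF CC mi bar cl)

variable {O : Type*} [CommRing O] [IsDomain O] [IsDiscreteValuationRing O]
variable {k : Type*} [Field k] [Algebra O k] [IsFractionRing O k]
variable {f : O[X]} {g : ℕ} (hd : f.natDegree = 2 * g + 1)

/-- The ideal in the chart at infinity. -/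
noncomputable def EI (E : Ideal (CR (fK k f))) : Ideal (QA (qi f)) where
  carrier := {z | ∃ (m : ℕ) (e : QA f), jA k f e ∈ E ∧ jL hd e = cL f (ti O ^ m) * jI f z}
  zero_mem' := ⟨0, 0, by rw [map_zero]; exact E.zero_mem, by rw [map_zero, map_zero, mul_zero]⟩
  add_mem' := by
    rintro z z' ⟨m, e, h1, h2⟩ ⟨m', e', h1', h2'⟩
    refine ⟨m + m', cA f (X ^ m') * e + cA f (X ^ m) * e', ?_, ?_⟩
    · rw [map_add, map_mul, map_mul]
      exact E.add_mem (E.mul_mem_left _ h1) (E.mul_mem_left _ h1')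
    · rw [map_add, map_mul, map_mul, jL_X, jL_X, h2, h2', map_add, pow_add, cL_mul]
      ring
  smul_mem' := by
    rintro a z ⟨m, e, h1, h2⟩
    obtain ⟨l, hl⟩ := exists_toA hd a
    refine ⟨l + m, toA f g l a * e, ?_, ?_⟩
    · rw [map_mul]
      exact E.mul_mem_left _ h1
    · rw [map_mul, hl, h2, smul_eq_mul, map_mul, pow_add, cL_mul]
      ring

theorem mem_EI (E : Ideal (CR (fK k f))) (z : QA (qi f)) : z ∈ EI hd E ↔
    ∃ (m : ℕ) (e : QA f), jA k f e ∈ E ∧ jL hd e = cL f (ti O ^ m) * jI f z := Iff.rfl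

theorem EI_sat (E : Ideal (CR (fK k f))) {ϖ : O} (hϖ : ϖ ≠ 0) (z : QA (qi f))
    (h : algebraMap O[X] (QA (qi f)) (C ϖ) * z ∈ EI hd E) : z ∈ EI hd E := by
  obtain ⟨m, e, h1, h2⟩ := h
  obtain ⟨l, hl⟩ := exists_toA hd z
  have key : cA f (X ^ l) * e = cA f (C ϖ) * (cA f (X ^ m) * toA f g l z) := by
    apply jL_inj hd
    rw [jL_mul, jL_X, h2, jL_mul, jL_mul, jL_C, jL_X, hl, jI_mul, jI_c, iP_C]
    ring
  refine ⟨m + l, cA f (X ^ m) * toA f g l z, ?_, ?_⟩
  · have h3 : jA k f (cA f (C ϖ)) * jA k f (cA f (X ^ m) * toA f g l z) ∈ E := by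
      rw [← map_mul, ← key, map_mul]
      exact E.mul_mem_left _ h1
    exact (Ideal.unit_mul_mem_iff_mem _ (unit_c hϖ)).1 h3
  · rw [jL_mul, jL_X, hl, pow_add, cL_mul]
    ring

theorem EI_ne (E : Ideal (CR (fK k f))) {Φ : O[X]} (hΦ : rX O Φ = 1)
    (hmem : jA k f (cA f Φ) ∈ E) :
    ∃ z ∈ EI hd E, qm (rX O) (q := qi f) (q' := rX O (qi f)) rfl z ≠ 0 := by
  refine ⟨algebraMap _ _ (reflect Φ.natDegree Φ), ⟨Φ.natDegree, cA f Φ, hmem, ?_⟩, ?_⟩
  · rw [jI_c, iP_reflect Φ _ le_rfl, ← map_mul]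
    refine QuadraticAlgebra.ext ?_ ?_
    · rw [jL_re]
      show iN Φ = ti O ^ Φ.natDegree * (iN Φ * tt O ^ Φ.natDegree)
      have e : ti O ^ Φ.natDegree * tt O ^ Φ.natDegree = 1 := by rw [← mul_pow, ti_tt, one_pow]
      linear_combination -iN Φ * e
    · rw [jL_im]
      show ti O ^ (g + 1) * iN 0 = 0
      rw [map_zero, mul_zero]
  · intro h0
    have h1 := congrArg QuadraticAlgebra.re h0
    rw [qm_re] at h1
    have h2 : rX O (reflect Φ.natDegree Φ) = 0 := h1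
    have h3 := congrArg (fun p => p.coeff Φ.natDegree) h2
    simp only [coe_mapRingHom, coeff_map, coeff_reflect, coeff_zero] at h3
    rw [revAt_le le_rfl, Nat.sub_self] at h3
    have h4 := congrArg (fun p => p.coeff 0) hΦ
    simp only [coe_mapRingHom, coeff_map, coeff_one_zero] at h4
    rw [h3] at h4
    exact zero_ne_one h4

theorem qi_coeff_zero : (qi f).coeff 0 = 0 := by rw [qi, coeff_X_mul_zero]

theorem qi_coeff_one (hm : f.Monic) : (qi f).coeff 1 = 1 := by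
  rw [qi, coeff_X_mul, coeff_zero_reverse]
  exact hm

theorem nsq_qi (hm : f.Monic) : NSq (rX O (qi f)) := by
  have h1 : rX O (qi f) = X * rX O f.reverse := by
    rw [qi, map_mul, coe_mapRingHom, map_X]
  have h2 : (rX O f.reverse).coeff 0 = 1 := by
    rw [coe_mapRingHom, coeff_map, coeff_zero_reverse, hm, map_one]
  intro u v h
  have h3 := congrArg iP h
  rw [map_mul, map_pow, map_pow, h1] at h3
  have h4 := nsq_q (ord1_iP h2) _ _ h3
  exact iP_inj (h4.trans (map_zero _).symm)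

/-- The generator at infinity. -/
theorem exists_W {ϖ : O} (hϖ : Irreducible ϖ) (h2 : ϖ ∣ 2) (hm : f.Monic)
    {E : Ideal (CR (fK k f))} {Φ : O[X]} (hΦ : rX O Φ = 1) (hmem : jA k f (cA f Φ) ∈ E) :
    ∃ W ∈ EI hd E, qm (rX O) (q := qi f) (q' := rX O (qi f)) rfl W ≠ 0 ∧
      ∃ σ : O[X], IsUnit (σ.coeff 0) ∧ ∀ z ∈ EI hd E, ∃ y : QA (qi f),
        algebraMap O[X] (QA (qi f)) σ * z = W * y := by
  obtain ⟨e₁, e₂, s, a, b, c, he₁, he₂, hr1, hr2, hs, hb0, hab, hrep, H1, H2⟩ :=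
    lat (ρ := rX O) (q := qi f) rfl (nsq_qi hm) rX_surj (rX_ker hϖ) (EI hd E)
      (fun z hz => EI_sat hd E hϖ.ne_zero z hz) (EI_ne hd E hΦ hmem)
  rw [Algebra.smul_def] at H1 H2
  have hunit : ∀ r : O, ¬ ϖ ∣ r → IsUnit r := by
    intro r hr
    by_contra hu
    apply hr
    have : r ∈ IsLocalRing.maximalIdeal O := (IsLocalRing.mem_maximalIdeal r).2 hu
    rwa [hϖ.maximalIdeal_eq, Ideal.mem_span_singleton] at this
  have hs0 : IsUnit (s.coeff 0) := by
    apply hunit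
    intro h0
    have h1 := congrArg (fun p => p.coeff 0) hs
    simp only [coe_mapRingHom, coeff_map, coeff_one_zero] at h1
    rw [(res_eq hϖ _).2 h0] at h1
    exact zero_ne_one h1
  -- `b(0)` or `c(0)` is a unit
  have hbc : IsUnit (b.coeff 0) ∨ IsUnit (c.coeff 0) := by
    by_contra hcon
    rw [not_or] at hcon
    have hb : ϖ ∣ b.coeff 0 := by
      by_contra h; exact hcon.1 (hunit _ h)
    have hc : ϖ ∣ c.coeff 0 := by
      by_contra h; exact hcon.2 (hunit _ h)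
    have h1 := congrArg (fun p => p.coeff 1) hab
    simp only [coeff_add, pow_two, mul_coeff_one] at h1
    have hmul0 : ∀ p p' : O[X], (p * p').coeff 0 = p.coeff 0 * p'.coeff 0 := mul_coeff_zero
    simp only [hmul0, qi_coeff_zero, qi_coeff_one hm, mul_zero, add_zero, mul_one] at h1
    have h3 : ϖ ∣ s.coeff 0 * s.coeff 0 := by
      have e1 : s.coeff 0 * s.coeff 0 =
          2 * (a.coeff 0 * a.coeff 1) + b.coeff 0 * c.coeff 1 + c.coeff 0 * b.coeff 1 := by
        linear_combination -h1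
      rw [e1]
      exact dvd_add (dvd_add (h2.mul_right _) (hb.mul_right _)) (hc.mul_right _)
    have h4 : IsUnit ϖ := isUnit_of_dvd_unit h3 (hs0.mul hs0)
    exact hϖ.not_isUnit h4
  rcases hbc with hb | hc
  · refine ⟨e₁, he₁, hr1, b * s, by rw [mul_coeff_zero]; exact hb.mul hs0, fun z hz => ?_⟩
    obtain ⟨u, v, huv⟩ := hrep z hz
    rw [Algebra.smul_def, Algebra.smul_def, Algebra.smul_def] at huv
    refine ⟨algebraMap _ _ (u * b) + algebraMap _ _ v * ⟨-a, s⟩, ?_⟩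
    rw [map_mul, mul_assoc, huv, map_mul]
    linear_combination -(algebraMap O[X] (QA (qi f)) v) * H1
  · refine ⟨e₂, he₂, hr2, c * s, by rw [mul_coeff_zero]; exact hc.mul hs0, fun z hz => ?_⟩
    obtain ⟨u, v, huv⟩ := hrep z hz
    rw [Algebra.smul_def, Algebra.smul_def, Algebra.smul_def] at huv
    refine ⟨algebraMap _ _ (v * c) + algebraMap _ _ u * ⟨a, s⟩, ?_⟩
    rw [map_mul, mul_assoc, huv, map_mul]
    linear_combination -(algebraMap O[X] (QA (qi f)) u) * H2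

/-- The elements whose expansion is divisible by `ω` up to constants. -/
noncomputable def KK (k : Type*) [Field k] [Algebra O k] [IsFractionRing O k] (ω : LL f) :
    Ideal (CR (fK k f)) where
  carrier := {z | ∃ b : O, b ≠ 0 ∧ ∃ a : QA f, jA k f a = jA k f (cA f (C b)) * z ∧ ω ∣ jL hd a}
  zero_mem' := ⟨1, one_ne_zero, 0, by rw [map_zero, mul_zero], by rw [map_zero]; exact dvd_zero _⟩
  add_mem' := by
    rintro z z' ⟨b, hb, a, h1, h2⟩ ⟨b', hb', a', h1', h2'⟩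
    refine ⟨b * b', mul_ne_zero hb hb', cA f (C b') * a + cA f (C b) * a', ?_, ?_⟩
    · rw [map_add, map_mul, map_mul, h1, h1', C_mul, cA_mul, map_mul]
      ring
    · rw [map_add, map_mul, map_mul]
      exact dvd_add (h2.mul_left _) (h2'.mul_left _)
  smul_mem' := by
    rintro c z ⟨b, hb, a, h1, h2⟩
    obtain ⟨b', hb', a', ha'⟩ := clear c
    refine ⟨b' * b, mul_ne_zero hb' hb, a' * a, ?_, ?_⟩
    · rw [map_mul, ha', h1, C_mul, cA_mul, map_mul, smul_eq_mul]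
      ring
    · rw [map_mul]
      exact h2.mul_left _

theorem mem_KK (ω : LL f) (z : CR (fK k f)) : z ∈ KK hd k ω ↔
    ∃ b : O, b ≠ 0 ∧ ∃ a : QA f, jA k f a = jA k f (cA f (C b)) * z ∧ ω ∣ jL hd a := Iff.rfl

theorem KK_mul (ω ω' : LL f) : KK hd k ω * KK hd k ω' ≤ KK hd k (ω * ω') := by
  rw [Ideal.mul_le]
  rintro z ⟨b, hb, a, h1, h2⟩ z' ⟨b', hb', a', h1', h2'⟩
  refine ⟨b * b', mul_ne_zero hb hb', a * a', ?_, ?_⟩
  · rw [map_mul, h1, h1', C_mul, cA_mul, map_mul]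
    ring
  · rw [map_mul]
    exact mul_dvd_mul h2 h2'

theorem KK_one : KK hd k (1 : LL f) = ⊤ := by
  rw [Ideal.eq_top_iff_one]
  exact ⟨1, one_ne_zero, 1, by rw [map_one, C_1, cA, map_one, map_one, mul_one], one_dvd _⟩

theorem KK_pow {E : Ideal (CR (fK k f))} {ω : LL f} (h : E ≤ KK hd k ω) (n : ℕ) :
    E ^ n ≤ KK hd k (ω ^ n) := by
  induction n with
  | zero =>
    rw [pow_zero, pow_zero, KK_one]
    exact le_top
  | succ n ih =>
    rw [pow_succ, pow_succ]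
    exact (Ideal.mul_mono ih h).trans (KK_mul hd _ _)

theorem le_KK {E : Ideal (CR (fK k f))} {W : QA (qi f)} {σ : O[X]} (hσ : IsUnit (σ.coeff 0))
    (h : ∀ z ∈ EI hd E, ∃ y : QA (qi f), algebraMap O[X] (QA (qi f)) σ * z = W * y) :
    E ≤ KK hd k (jI f W) := by
  intro z hz
  obtain ⟨b, hb, a, ha⟩ := clear z
  refine ⟨b, hb, a, ha, ?_⟩
  obtain ⟨l, hl⟩ : ∃ l : ℕ, jI f (toI f g l a) = cL f (tt O ^ l) * jL hd a :=
    ⟨a.re.natDegree + (a.im.natDegree + (g + 1)), jI_toI hd (by omega) (by omega)⟩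
  have hmem : toI f g l a ∈ EI hd E := by
    refine ⟨l, a, ?_, ?_⟩
    · rw [ha]
      exact E.mul_mem_left _ hz
    · rw [hl, ← mul_assoc, cL_ti_tt, one_mul]
  obtain ⟨y, hy⟩ := h _ hmem
  have h1 : cL f (iP σ) * (cL f (tt O ^ l) * jL hd a) = jI f W * jI f y := by
    rw [← hl, ← jI_c, ← map_mul, hy, map_mul]
  have h2 : jI f W ∣ cL f (iP σ) * (cL f (tt O ^ l) * jL hd a) := ⟨_, h1⟩
  rw [(isUnit_cL (iP_unit hσ)).dvd_mul_left] at h2
  rwa [(isUnit_cL (isUnit_tt.pow l)).dvd_mul_left] at h2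

/-- The element `w - w₀`. -/
noncomputable def wp (f : O[X]) (w₀ : O) : LL f := ⟨-HahnSeries.C w₀, 1⟩

/-- The ideal of a point near infinity. -/
theorem dvd_pt {ϖ : O} (hϖ : Irreducible ϖ) (hm : f.Monic) {z₀ w₀ : O} (hz : z₀ ≠ 0) (hzϖ : ϖ ∣ z₀)
    (hw : w₀ ^ 2 = (qi f).eval z₀) {y : QA (qi f)}
    (hy : y.re.eval z₀ + w₀ * y.im.eval z₀ = 0) : wp f w₀ ∣ jI f y := by
  -- the quotient
  have h1 : (X - C z₀) ∣ qi f - C ((qi f).eval z₀) := by
    rw [dvd_iff_isRoot, IsRoot.def, eval_sub, eval_C, sub_self]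
  obtain ⟨Q, hQ⟩ := h1
  have hQ0 : Q.eval 0 = f.reverse.eval z₀ := by
    have h2 := congrArg (eval 0) hQ
    rw [eval_sub, eval_C, eval_mul, eval_sub, eval_X, eval_C, qi, eval_mul, eval_X, zero_mul,
      eval_mul, eval_X] at h2
    apply mul_left_cancel₀ hz
    linear_combination h2
  have hun : IsUnit (Q.coeff 0) := by
    rw [coeff_zero_eq_eval_zero, hQ0]
    by_contra hu
    have h3 : ϖ ∣ f.reverse.eval z₀ := by
      have : f.reverse.eval z₀ ∈ IsLocalRing.maximalIdeal O := (IsLocalRing.mem_maximalIdeal _).2 hu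
      rwa [hϖ.maximalIdeal_eq, Ideal.mem_span_singleton] at this
    have h4 : z₀ ∣ f.reverse.eval z₀ - f.reverse.eval 0 := by
      have := f.reverse.sub_dvd_eval_sub z₀ 0
      rwa [sub_zero] at this
    have h5 : f.reverse.eval 0 = 1 := by
      rw [← coeff_zero_eq_eval_zero, coeff_zero_reverse]
      exact hm
    have h6 : ϖ ∣ 1 := by
      have e : (1 : O) = f.reverse.eval z₀ - (f.reverse.eval z₀ - f.reverse.eval 0) := by
        rw [h5]; ring
      rw [e]
      exact dvd_sub h3 (hzϖ.trans h4)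
    exact hϖ.not_isUnit (isUnit_of_dvd_one h6)
  -- `w - w₀` divides `t - z₀`
  have h2 : wp f w₀ ∣ cL f (iP (X - C z₀)) := by
    have h3 : wp f w₀ * ⟨HahnSeries.C w₀, 1⟩ = cL f (iP Q) * cL f (iP (X - C z₀)) := by
      rw [← map_mul, ← map_mul, mul_comm Q, ← hQ, map_sub, iP_C, ← hw]
      refine QuadraticAlgebra.ext ?_ ?_
      · rw [QuadraticAlgebra.re_mul, QuadraticAlgebra.algebraMap_re]
        simp only [wp, map_pow, qL]
        ring
      · rw [QuadraticAlgebra.im_mul, QuadraticAlgebra.algebraMap_im]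
        simp only [wp]
        ring
    have h4 : wp f w₀ ∣ cL f (iP Q) * cL f (iP (X - C z₀)) := ⟨_, h3.symm⟩
    rwa [(isUnit_cL (iP_unit hun)).dvd_mul_left] at h4
  -- the element
  have h3 : (X - C z₀) ∣ y.re + C w₀ * y.im := by
    rw [dvd_iff_isRoot, IsRoot.def, eval_add, eval_mul, eval_C, hy]
  obtain ⟨p, hp⟩ := h3
  have h4 : jI f y = cL f (iP (X - C z₀)) * cL f (iP p) + cL f (iP y.im) * wp f w₀ := by
    rw [← map_mul, ← map_mul, ← hp]
    refine QuadraticAlgebra.ext ?_ ?_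
    · rw [QuadraticAlgebra.re_add, QuadraticAlgebra.re_mul, QuadraticAlgebra.algebraMap_re,
        QuadraticAlgebra.algebraMap_re, QuadraticAlgebra.algebraMap_im, jI_re]
      simp only [wp, map_add, map_mul, iP_C]
      ring
    · rw [QuadraticAlgebra.im_add, QuadraticAlgebra.im_mul, QuadraticAlgebra.algebraMap_im,
        QuadraticAlgebra.algebraMap_re, QuadraticAlgebra.algebraMap_im, jI_im]
      simp only [wp]
      ring
  rw [h4]
  exact dvd_add (h2.mul_right _) (dvd_mul_left _ _)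

/-- Evaluation of the reflected polynomial. -/
theorem eval_reflect' {z₀ : O} (hz : z₀ ≠ 0) {p : O[X]} {N : ℕ} (hN : p.natDegree ≤ N) :
    algebraMap O k ((reflect N p).eval z₀) =
      algebraMap O k z₀ ^ N * (p.map (algebraMap O k)).eval (algebraMap O k z₀)⁻¹ := by
  have hz' : algebraMap O k z₀ ≠ 0 := by rwa [Ne, FaithfulSMul.algebraMap_eq_zero_iff]
  let _ : Invertible (algebraMap O k z₀)⁻¹ := ⟨algebraMap O k z₀, mul_inv_cancel₀ hz',
    inv_mul_cancel₀ hz'⟩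
  have h : eval₂ (algebraMap O k) (algebraMap O k z₀) (reflect N p) * (algebraMap O k z₀)⁻¹ ^ N =
      eval₂ (algebraMap O k) (algebraMap O k z₀)⁻¹ p :=
    eval₂_reflect_mul_pow (algebraMap O k) (algebraMap O k z₀)⁻¹ N p hN
  rw [eval_map, ← h, eval₂_at_apply, inv_pow]
  have h0 : algebraMap O k z₀ ^ N ≠ 0 := pow_ne_zero N hz'
  field_simp

/-- The ideal of a point near infinity in terms of expansions. -/
theorem pt_le {ϖ : O} (hϖ : Irreducible ϖ) (hm : f.Monic) {z₀ w₀ : O} (hz : z₀ ≠ 0) (hzϖ : ϖ ∣ z₀)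
    (hw : w₀ ^ 2 = (qi f).eval z₀)
    (hdv : (X - C (algebraMap O k z₀)⁻¹) ∣
      fK k f - (C (algebraMap O k w₀ * (algebraMap O k z₀)⁻¹ ^ (g + 1))) ^ 2) :
    mi (fK k f) (X - C (algebraMap O k z₀)⁻¹)
      (C (algebraMap O k w₀ * (algebraMap O k z₀)⁻¹ ^ (g + 1))) ≤ KK hd k (wp f w₀) := by
  have hz' : algebraMap O k z₀ ≠ 0 := by rwa [Ne, FaithfulSMul.algebraMap_eq_zero_iff]
  intro z hz1
  obtain ⟨b, hb, a, ha⟩ := clear z
  refine ⟨b, hb, a, ha, ?_⟩
  have hz2 : jA k f a ∈ mi (fK k f) (X - C (algebraMap O k z₀)⁻¹)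
      (C (algebraMap O k w₀ * (algebraMap O k z₀)⁻¹ ^ (g + 1))) := by
    rw [ha]
    exact Ideal.mul_mem_left _ _ hz1
  rw [Pool.Agent.Y723.HJ.mem_mi hdv, dvd_iff_isRoot, IsRoot.def, eval_add, eval_mul, eval_C, jA_re,
    jA_im] at hz2
  obtain ⟨l, hl1, hl2⟩ : ∃ l : ℕ, a.re.natDegree ≤ l ∧ a.im.natDegree + (g + 1) ≤ l :=
    ⟨a.re.natDegree + (a.im.natDegree + (g + 1)), by omega, by omega⟩
  have h1 := jI_toI hd hl1 hl2
  have h2 : wp f w₀ ∣ jI f (toI f g l a) := by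
    apply dvd_pt hϖ hm hz hzϖ hw
    apply IsFractionRing.injective O k
    have e1 : (toI f g l a).re = reflect l a.re := rfl
    have e2 : (toI f g l a).im = reflect (l - (g + 1)) a.im := rfl
    rw [map_add, map_mul, e1, e2, eval_reflect' (k := k) hz hl1,
      eval_reflect' (k := k) hz (by omega : a.im.natDegree ≤ l - (g + 1)), map_zero]
    have e3 : algebraMap O k z₀ ^ l = algebraMap O k z₀ ^ (l - (g + 1)) *
        algebraMap O k z₀ ^ (g + 1) := by
      rw [← pow_add]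
      congr 1
      omega
    have e4 : algebraMap O k z₀ ^ (g + 1) * (algebraMap O k z₀)⁻¹ ^ (g + 1) = 1 := by
      rw [← mul_pow, mul_inv_cancel₀ hz', one_pow]
    rw [e3]
    linear_combination (algebraMap O k z₀ ^ (l - (g + 1)) * algebraMap O k z₀ ^ (g + 1)) * hz2 -
      algebraMap O k w₀ * algebraMap O k z₀ ^ (l - (g + 1)) *
        (a.im.map (algebraMap O k)).eval (algebraMap O k z₀)⁻¹ * e4
  rw [h1] at h2
  rwa [(isUnit_cL (isUnit_tt.pow l)).dvd_mul_left] at h2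

end Pool.Agent.H905.OP
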