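import Pool.Agent.H905.OP.Ex
import Pool.Graph.R_pool_sql_team_seeded_63374d34.N874.TQ.Cnt
import Pool.Graph.R_pool_sql_team_seeded_63374d34.N922.PY.Fam4
import Mathlib.NumberTheory.Padics.RingHoms

/-!
# One point: the regular residue class over the integers

Project OP (helper905). After `N874/TQ/Cnt.lean` (helper874).
-/

set_option autoImplicit false

open Polynomial IsDedekindDomain NumberField
open Pool.Agent.N783.PQ (GoodF GoodS rd)

namespace Pool.Agent.H905.OP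

/-- The prime two. -/
noncomputable def twoZ : HeightOneSpectrum ℤ where
  asIdeal := Ideal.span {(2 : ℤ)}
  isPrime := (Ideal.span_singleton_prime two_ne_zero).2 Int.prime_two
  ne_bot := by
    rw [Ne, Ideal.span_singleton_eq_bot]
    exact two_ne_zero

theorem rd_zero {p : ℕ} {ϖ : ℤ} (h : (p : ℤ) ∣ ϖ) (f r : ℤ[X]) :
    rd p (f + C ϖ * r) = rd p f := by
  rw [rd, rd, Polynomial.map_add, Polynomial.map_mul, map_C]
  have h1 : (Int.castRingHom (ZMod p)) ϖ = 0 := by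
    rw [eq_intCast]
    exact (ZMod.intCast_zmod_eq_zero_iff_dvd ϖ p).2 h
  rw [h1, C_0, zero_mul, add_zero]

/-- The residue class over the integers. -/
theorem gfi_reg (g M : ℕ) (hg : 1 ≤ g) :
    ∃ (W : ℕ) (f₁ : ℤ[X]) (ϖ : ℤ), GoodF g W f₁ ∧ 4 ∣ W ∧
      (∀ p : ℕ, p.Prime → p ≤ M → p ∣ W) ∧
      (∀ p : ℕ, p.Prime → p ∣ W → Irreducible (rd p f₁)) ∧
      (2 : ℤ) ∣ ϖ ∧ ¬ (4 : ℤ) ∣ ϖ ∧ RegV (Ideal.span {(2 : ℤ)}) ϖ f₁ := by
  obtain ⟨W, f₁, hG, hp, hirr⟩ := Pool.Agent.N711.QM.gfi Pool.Agent.N394.QM.irr g M hg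
  obtain ⟨k, m, hm, hW⟩ := Nat.exists_eq_two_pow_mul_odd hG.pos.ne'
  have h4 : ¬ (4 : ℤ) ∣ 2 * (m : ℤ) := by
    obtain ⟨t, ht⟩ := hm
    intro h
    omega
  have hdvd : ∀ p : ℕ, p.Prime → p ∣ W → (p : ℤ) ∣ 2 * (m : ℤ) := by
    intro p hp1 hp2
    rw [hW] at hp2
    rcases (hp1.dvd_mul).1 hp2 with h | h
    · have := hp1.dvd_of_dvd_pow h
      exact Dvd.dvd.mul_right (by exact_mod_cast this) _
    · exact Dvd.dvd.mul_left (by exact_mod_cast h) _
  have hfin : Finite (ℤ ⧸ twoZ.asIdeal) :=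
    Ideal.finiteQuotientOfFreeOfNeBot twoZ.asIdeal twoZ.ne_bot
  obtain ⟨r, hr1, hr2⟩ := adj twoZ (ϖ := 2 * (m : ℤ))
    (Ideal.mem_span_singleton.2 (dvd_mul_right _ _)) (by
      show ¬ _ ∈ (Ideal.span {(2 : ℤ)}) ^ 2
      rw [Ideal.span_singleton_pow, Ideal.mem_span_singleton]
      norm_num
      exact h4) (Ideal.mem_span_singleton_self _) hG.mon hG.deg
  have hr3 : (C (2 * (m : ℤ)) * r).degree < (g : WithBot ℕ) :=
    lt_of_le_of_lt (by
      refine (degree_mul_le _ _).trans ?_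
      calc (C (2 * (m : ℤ))).degree + r.degree ≤ 0 + r.degree := by gcongr; exact degree_C_le
        _ = r.degree := zero_add _) hr1
  have hr4 : (C (2 * (m : ℤ)) * r).degree < f₁.degree := by
    rw [degree_eq_natDegree hG.mon.ne_zero, hG.deg]
    exact hr3.trans (by exact_mod_cast (by omega : g < 2 * g + 1))
  have hW2 : ∀ p : ℕ, p.Prime → p ∣ 2 * W → p ∣ W := by
    intro p hp1 hp2
    rcases (hp1.dvd_mul).1 hp2 with h | h
    · exact h.trans hG.two
    · exact h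
  refine ⟨2 * W, f₁ + C (2 * (m : ℤ)) * r, 2 * (m : ℤ), ?_, ?_, ?_, ?_, dvd_mul_right _ _, h4, hr2⟩
  · exact
    { mon := hG.mon.add_of_left hr4
      deg := by rw [natDegree_add_eq_left_of_degree_lt hr4, hG.deg]
      tr := by
        rw [coeff_add, hG.tr, zero_add]
        exact coeff_eq_zero_of_degree_lt (hr3.trans (by exact_mod_cast (by omega : g < 2 * g)))
      pos := by have := hG.pos; omega
      two := dvd_mul_right _ _
      irr := by
        rw [rd_zero (hdvd 2 Nat.prime_two hG.two)]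
        exact hG.irr
      sep := by
        intro p hp1 hp2
        rw [rd_zero (hdvd p hp1 (hW2 p hp1 hp2))]
        exact hG.sep p hp1 (hW2 p hp1 hp2) }
  · obtain ⟨n, hn⟩ := hG.two
    exact ⟨n, by rw [hn]; ring⟩
  · exact fun p hp1 hp2 => Dvd.dvd.mul_left (hp p hp1 hp2) 2
  · intro p hp1 hp2
    rw [rd_zero (hdvd p hp1 (hW2 p hp1 hp2))]
    exact hirr p hp1 (hW2 p hp1 hp2)

/-- Change of rings. -/
theorem RegV.map {R R' : Type*} [CommRing R] [CommRing R'] (φ : R →+* R') {v : Ideal R}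
    {w : Ideal R'} (hvw : ∀ x ∈ v, φ x ∈ w) {ϖ : R} {f : R[X]} (h : RegV v ϖ f) :
    RegV w (φ ϖ) (f.map φ) := by
  obtain ⟨a, b, u, hh⟩ := h
  refine ⟨a.map φ, b.map φ, u.map φ, fun j => ?_⟩
  have h1 : f.map φ - (X * (a.map φ) ^ 2 + (b.map φ) ^ 2 + C (φ ϖ) * (1 + u.map φ * a.map φ)) =
      (f - (X * a ^ 2 + b ^ 2 + C ϖ * (1 + u * a))).map φ := by
    simp only [Polynomial.map_sub, Polynomial.map_add, Polynomial.map_mul, Polynomial.map_pow,
      map_X, map_C, Polynomial.map_one]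
  rw [h1, coeff_map]
  have h2 : v ^ 2 ≤ (w ^ 2).comap φ := by
    refine le_trans ?_ (Ideal.le_comap_pow φ 2)
    exact Ideal.pow_right_mono (fun x hx => hvw x hx) 2
  exact h2 (hh j)

section padic

variable {M : Type} [Field M] [NumberField M] (τ : M →+* ℚ_[2])

theorem int_le (x : 𝓞 M) : ‖τ (x : M)‖ ≤ 1 := by
  have h1 : IsIntegral ℤ (τ (x : M)) := by
    have h2 := x.isIntegral_coe
    exact h2.map (τ.toIntAlgHom)
  have h3 : IsIntegral ℤ_[2] (τ (x : M)) := by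
    obtain ⟨p, hp, he⟩ := h1
    refine ⟨p.map (algebraMap ℤ ℤ_[2]), hp.map _, ?_⟩
    rw [eval₂_map]
    rw [← he]
    congr 1
  obtain ⟨y, hy⟩ := IsIntegrallyClosed.isIntegral_iff.1 h3
  rw [← hy]
  exact y.2

/-- The map to the 2-adic integers. -/
noncomputable def toP : 𝓞 M →+* ℤ_[2] :=
  (τ.comp (algebraMap (𝓞 M) M)).codRestrict (PadicInt.subring 2) fun x => int_le τ x

/-- The prime over two given by the embedding. -/
noncomputable def wP : HeightOneSpectrum (𝓞 M) where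
  asIdeal := (IsLocalRing.maximalIdeal ℤ_[2]).comap (toP τ)
  isPrime := Ideal.IsPrime.comap _
  ne_bot := by
    intro h
    have h1 : (2 : 𝓞 M) ∈ (IsLocalRing.maximalIdeal ℤ_[2]).comap (toP τ) := by
      rw [Ideal.mem_comap, map_ofNat, PadicInt.maximalIdeal_eq_span_p]
      exact Ideal.mem_span_singleton_self _
    rw [h] at h1
    exact two_ne_zero (Ideal.mem_bot.1 h1)

theorem wP_two : (2 : 𝓞 M) ∈ (wP τ).asIdeal := by
  show (2 : 𝓞 M) ∈ (IsLocalRing.maximalIdeal ℤ_[2]).comap (toP τ)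
  rw [Ideal.mem_comap, map_ofNat, PadicInt.maximalIdeal_eq_span_p]
  exact Ideal.mem_span_singleton_self _

theorem wP_sq {ϖ : ℤ} (h : ¬ (4 : ℤ) ∣ ϖ) : (algebraMap ℤ (𝓞 M) ϖ) ∉ (wP τ).asIdeal ^ 2 := by
  intro h1
  have h2 : toP τ (algebraMap ℤ (𝓞 M) ϖ) ∈ (IsLocalRing.maximalIdeal ℤ_[2]) ^ 2 := by
    have h3 := Ideal.le_comap_pow (K := IsLocalRing.maximalIdeal ℤ_[2]) (toP τ) 2 h1
    exact h3
  rw [PadicInt.maximalIdeal_eq_span_p, Ideal.span_singleton_pow, Ideal.mem_span_singleton] at h2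
  have h4 : toP τ (algebraMap ℤ (𝓞 M) ϖ) = (ϖ : ℤ_[2]) := by
    rw [eq_intCast, map_intCast]
  rw [h4, PadicInt.pow_p_dvd_int_iff] at h2
  apply h
  norm_num at h2
  exact h2

end padic

end Pool.Agent.H905.OP
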