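import Pool.Agent.H905.OP.Pic
import Mathlib.NumberTheory.NumberField.Completion.FinitePlace

/-!
# One point: number fields

Project OP (helper905). Regularity at a prime ideal over `2` and the triviality of the class group.
-/

set_option autoImplicit false

open Polynomial IsDedekindDomain NumberField WithZero

namespace Pool.Agent.H905.OP

open Pool.Agent.Y723.HJ (CR OddM HF)
open Pool.Agent.N874.Jac (UniquelyTwoDivisible)

/-- Regularity at a prime ideal. -/
def RegV {R : Type*} [CommRing R] (v : Ideal R) (ϖ : R) (f : R[X]) : Prop :=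
  ∃ h k u : R[X], ∀ j, (f - (X * h ^ 2 + k ^ 2 + C ϖ * (1 + u * h))).coeff j ∈ v ^ 2

theorem RegV.congr {R : Type*} [CommRing R] {v : Ideal R} {ϖ : R} {f f' : R[X]}
    (hf : RegV v ϖ f) (hc : ∀ j, f'.coeff j - f.coeff j ∈ v ^ 2) : RegV v ϖ f' := by
  obtain ⟨h, k, u, hh⟩ := hf
  refine ⟨h, k, u, fun j => ?_⟩
  have h1 : (f' - (X * h ^ 2 + k ^ 2 + C ϖ * (1 + u * h))).coeff j =
      (f'.coeff j - f.coeff j) + (f - (X * h ^ 2 + k ^ 2 + C ϖ * (1 + u * h))).coeff j := by
    rw [coeff_sub, coeff_sub]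
    ring
  rw [h1]
  exact Ideal.add_mem _ (hc j) (hh j)

theorem RegV.reg {R O : Type*} [CommRing R] [CommRing O] (φ : R →+* O) {v : Ideal R} {ϖ : R}
    {f : R[X]} (hf : RegV v ϖ f) (hv : ∀ x ∈ v ^ 2, φ ϖ ^ 2 ∣ φ x) : Reg (φ ϖ) (f.map φ) := by
  obtain ⟨h, k, u, hh⟩ := hf
  obtain ⟨w, hw⟩ : C ((φ ϖ) ^ 2) ∣
      (f - (X * h ^ 2 + k ^ 2 + C ϖ * (1 + u * h))).map φ := by
    rw [C_dvd_iff_dvd_coeff]
    intro j
    rw [coeff_map]
    exact hv _ (hh j)
  refine ⟨h.map φ, k.map φ, u.map φ, w, ?_⟩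
  rw [C_pow] at hw
  simp only [Polynomial.map_sub, Polynomial.map_add, Polynomial.map_mul, Polynomial.map_pow, map_X,
    map_C, Polynomial.map_one] at hw
  linear_combination hw

section

variable {R : Type} [CommRing R] [IsDedekindDomain R] (F : Type) [Field F] [Algebra R F]
  [IsFractionRing R F] (v : HeightOneSpectrum R)

/-- The map to the valuation ring. -/
noncomputable def toV : R →+* (v.valuation F).integer :=
  (algebraMap R F).codRestrict _ fun x => v.valuation_le_one x

theorem toV_coe (x : R) : (toV F v x : F) = algebraMap R F x := rfl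

theorem le_exp {x : ℤᵐ⁰} (h : x < 1) : x ≤ exp (-1 : ℤ) := by
  rw [← lt_mul_exp_iff_le (exp_ne_zero), ← exp_add]
  simpa using h

theorem toV_irr {ϖ : R} (h1 : ϖ ∈ v.asIdeal) (h2 : ϖ ∉ v.asIdeal ^ 2) :
    Irreducible (toV F v ϖ) := by
  constructor
  · rw [Valuation.Integer.not_isUnit_iff_valuation_lt_one]
    exact (v.valuation_lt_one_iff_mem ϖ).2 h1
  · intro a b hab
    by_contra hcon
    rw [not_or, Valuation.Integer.not_isUnit_iff_valuation_lt_one,
      Valuation.Integer.not_isUnit_iff_valuation_lt_one] at hcon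
    apply h2
    rw [← v.intValuation_le_pow_iff_mem, ← v.valuation_of_algebraMap (K := F)]
    have h3 : algebraMap R F ϖ = (a : F) * (b : F) := congrArg Subtype.val hab
    show v.valuation F (algebraMap R F ϖ) ≤ _
    rw [h3, map_mul]
    calc v.valuation F (a : F) * v.valuation F (b : F) ≤ exp (-1 : ℤ) * exp (-1 : ℤ) :=
          mul_le_mul' (le_exp hcon.1) (le_exp hcon.2)
      _ = exp (-((2 : ℕ) : ℤ)) := by
        rw [← exp_add]
        norm_num

theorem toV_dvd {ϖ : R} (h2 : ϖ ∉ v.asIdeal ^ 2) {x : R} (hx : x ∈ v.asIdeal ^ 2) :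
    toV F v ϖ ^ 2 ∣ toV F v x := by
  apply (Valuation.integer.integers (v.valuation F)).dvd_of_le
  have h3 : v.valuation F (algebraMap R F x) ≤ exp (-((2 : ℕ) : ℤ)) := by
    rw [v.valuation_of_algebraMap, v.intValuation_le_pow_iff_mem]
    exact hx
  have h4 : exp (-1 : ℤ) ≤ v.valuation F (algebraMap R F ϖ) := by
    rw [← v.intValuation_le_pow_iff_mem, ← v.valuation_of_algebraMap (K := F), not_le] at h2
    by_contra h5
    rw [not_le] at h5
    have h6 : v.valuation F (algebraMap R F ϖ) ≤ exp (-2 : ℤ) := by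
      rw [← lt_mul_exp_iff_le (exp_ne_zero), ← exp_add]
      simpa using h5
    exact absurd h2 (not_lt.2 (by simpa using h6))
  show v.valuation F (algebraMap R F x) ≤ v.valuation F ((toV F v ϖ ^ 2 : _) : F)
  rw [show ((toV F v ϖ ^ 2 : _) : F) = (algebraMap R F ϖ) ^ 2 from rfl, map_pow]
  refine h3.trans ?_
  calc exp (-((2 : ℕ) : ℤ)) = exp (-1 : ℤ) ^ 2 := by
        rw [← exp_nsmul]
        norm_num
    _ ≤ _ := pow_le_pow_left' h4 2

/-- **Triviality of the class group.** -/
theorem triv_F {ϖ : R} (h1 : ϖ ∈ v.asIdeal) (h2 : ϖ ∉ v.asIdeal ^ 2) (h3 : (2 : R) ∈ v.asIdeal)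
    {f : R[X]} {g : ℕ} (hm : f.Monic) (hd : f.natDegree = 2 * g + 1)
    (hr : RegV v.asIdeal ϖ f) (hf : HF (f.map (algebraMap R F)))
    (h : UniquelyTwoDivisible (f.map (algebraMap R F)))
    (c : ClassGroup (CR (f.map (algebraMap R F)))) : c = 1 := by
  have e1 : fK F (f.map (toV F v)) = f.map (algebraMap R F) := by
    rw [fK, Polynomial.map_map]
    rfl
  have hi := toV_irr F v h1 h2
  have key : ∀ (P : F[X]), P = f.map (algebraMap R F) → UniquelyTwoDivisible P → HF P →
      (∀ (_ : HF P) (c : ClassGroup (CR P)), c = 1) →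
      ∀ c : ClassGroup (CR (f.map (algebraMap R F))), c = 1 := by
    rintro _ rfl _ h4 h5
    exact h5 h4
  have h2' : toV F v ϖ ∣ 2 := by
    apply (Valuation.integer.integers (v.valuation F)).dvd_of_le
    have h4 : exp (-1 : ℤ) ≤ v.valuation F (algebraMap R F ϖ) := by
      have h2'' := h2
      rw [← v.intValuation_le_pow_iff_mem, ← v.valuation_of_algebraMap (K := F), not_le] at h2''
      by_contra h5
      rw [not_le] at h5
      have h6 : v.valuation F (algebraMap R F ϖ) ≤ exp (-2 : ℤ) := by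
        rw [← lt_mul_exp_iff_le (exp_ne_zero), ← exp_add]
        simpa using h5
      exact absurd h2'' (not_lt.2 (by simpa using h6))
    have h5 : v.valuation F (algebraMap R F 2) < 1 := (v.valuation_lt_one_iff_mem (2 : R)).2 h3
    have h6 := (le_exp h5).trans h4
    rw [map_ofNat] at h6
    exact h6
  refine key _ e1 ?_ ?_ ?_ c
  · rw [e1]; exact h
  · rw [e1]; exact hf
  · intro hHF c
    have hU : UniquelyTwoDivisible (fK F (f.map (toV F v))) := by rw [e1]; exact h
    exact triv hi h2' (hm.map _) (by rw [hm.natDegree_map, hd])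
      (hr.reg (toV F v) fun x hx => toV_dvd F v h2 hx) hU c

end

end Pool.Agent.H905.OP
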