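import Pool.Graph.R_pool_sql_team_seeded_3997aac3.Q14.AR.Cheb

/-!
# One point: infinitely many primes with a given Frobenius automorphism

Project OP (helper905). The theorem of Chebotarev is in the library (`Q14/AR/Cheb.lean`); the passage to prime
numbers is as in `H515/Inf.lean` (helper515).
-/

set_option autoImplicit false
set_option linter.deprecated false

namespace Pool.Agent.H905.OP

open NumberField IsDedekindDomain

theorem rat_prime_span {p : ℕ} (hp : p.Prime) {v : HeightOneSpectrum (𝓞 ℚ)}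
    (hv : (p : 𝓞 ℚ) ∈ v.asIdeal) : v.asIdeal = Ideal.span {(p : 𝓞 ℚ)} := by
  apply le_antisymm
  · intro x hx
    obtain ⟨a, rfl⟩ : ∃ a : ℤ, (a : 𝓞 ℚ) = x := by
      refine ⟨Rat.ringOfIntegersEquiv x, ?_⟩
      apply Rat.ringOfIntegersEquiv.injective
      rw [map_intCast]
      simp
    by_cases hpa : (p : ℤ) ∣ a
    · obtain ⟨b, rfl⟩ := hpa
      rw [Int.cast_mul, Int.cast_natCast]
      exact Ideal.mul_mem_right _ _ (Ideal.mem_span_singleton_self _)
    · exfalso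
      have hcop : IsCoprime (p : ℤ) a :=
        (Prime.coprime_iff_not_dvd (Nat.prime_iff_prime_int.1 hp)).2 hpa
      obtain ⟨r, s, hrs⟩ := hcop
      apply v.isPrime.ne_top
      rw [Ideal.eq_top_iff_one]
      have h1 : ((r * p + s * a : ℤ) : 𝓞 ℚ) ∈ v.asIdeal := by
        rw [Int.cast_add, Int.cast_mul, Int.cast_mul, Int.cast_natCast]
        exact add_mem (Ideal.mul_mem_left _ _ hv) (Ideal.mul_mem_left _ _ hx)
      rw [hrs, Int.cast_one] at h1
      exact h1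
  · rw [Ideal.span_singleton_le_iff_mem]
    exact hv

theorem absNorm_rat {p : ℕ} (hp : p.Prime) {v : HeightOneSpectrum (𝓞 ℚ)}
    (hv : (p : 𝓞 ℚ) ∈ v.asIdeal) : Ideal.absNorm v.asIdeal = p := by
  rw [rat_prime_span hp hv, Ideal.absNorm_span_singleton]
  have h1 : Algebra.norm ℤ ((p : ℕ) : 𝓞 ℚ) = (p : ℤ) ^ (Module.finrank ℤ (𝓞 ℚ)) := by
    have h2 := Algebra.norm_algebraMap (R := ℤ) (S := 𝓞 ℚ) (p : ℤ)
    rw [← h2]
    congr 1
  rw [h1, RingOfIntegers.rank, Module.finrank_self, pow_one, Int.natAbs_natCast]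

/-- each prime contains a prime number -/
theorem exists_prime_in {F : Type} [Field F] [NumberField F] (v : HeightOneSpectrum (𝓞 F)) :
    ∃ p : ℕ, p.Prime ∧ (p : 𝓞 F) ∈ v.asIdeal := by
  have key : ∀ n : ℕ, n ≠ 0 → (n : 𝓞 F) ∈ v.asIdeal →
      ∃ p : ℕ, p.Prime ∧ (p : 𝓞 F) ∈ v.asIdeal := by
    intro n
    induction n using Nat.strong_induction_on with
    | _ n ih =>
      intro hn hv
      have hn1 : n ≠ 1 := by
        rintro rfl
        apply v.isPrime.ne_top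
        rw [Ideal.eq_top_iff_one]
        rw [Nat.cast_one] at hv
        exact hv
      obtain ⟨q, hq, c, rfl⟩ := Nat.exists_prime_and_dvd hn1
      rw [Nat.cast_mul] at hv
      rcases v.isPrime.mem_or_mem hv with h | h
      · exact ⟨q, hq, h⟩
      · have hc0 : c ≠ 0 := right_ne_zero_of_mul hn
        exact ih c (by nlinarith [hq.two_le, Nat.pos_of_ne_zero hc0]) hc0 h
  exact key _ (fun h => v.ne_bot (Ideal.absNorm_eq_zero_iff.1 h)) (Ideal.absNorm_mem v.asIdeal)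

/-- infinitely many primes have a given Frobenius element -/
theorem frob_inf {M : Type} [Field M] [NumberField M] [IsGalois ℚ M] (g : M ≃ₐ[ℚ] M) (B0 : ℕ) :
    ∃ p : ℕ, p.Prime ∧ B0 < p ∧ ∃ Q : Ideal (𝓞 M), Q.IsPrime ∧ (p : 𝓞 M) ∈ Q ∧
      ∀ x : 𝓞 M, ∃ y ∈ Q, (y : M) = g x - (x : M) ^ p := by
  have hne : Ideal.span {((B0.factorial : ℕ) : 𝓞 ℚ)} ≠ 0 := by
    rw [Ne, Ideal.zero_eq_bot, Ideal.span_singleton_eq_bot]
    exact_mod_cast Nat.factorial_ne_zero B0
  have hfin : {v : HeightOneSpectrum (𝓞 ℚ) | ((B0.factorial : ℕ) : 𝓞 ℚ) ∈ v.asIdeal}.Finite := by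
    refine (Ideal.finite_factors hne).subset fun v hv => ?_
    exact Ideal.dvd_span_singleton.2 hv
  obtain ⟨v, hvB, hu, w, hw, hwv, hF⟩ := Pool.Agent.Q14.AR.cheb ℚ M g _ hfin
  obtain ⟨p, hp, hpv⟩ := exists_prime_in v
  refine ⟨p, hp, ?_, w, hw.isPrime, ?_, ?_⟩
  · by_contra hle
    apply hvB
    obtain ⟨c, hc⟩ := Nat.dvd_factorial hp.pos (not_lt.1 hle)
    change ((B0.factorial : ℕ) : 𝓞 ℚ) ∈ v.asIdeal
    rw [hc, Nat.cast_mul]
    exact Ideal.mul_mem_right _ _ hpv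
  · have hv := hpv
    rw [← hwv, Ideal.mem_comap, map_natCast] at hv
    exact hv
  · rw [absNorm_rat hp hpv] at hF
    exact hF

end Pool.Agent.H905.OP
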