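import Pool.Agent.H905.OP.Lat
import Mathlib.RingTheory.LaurentSeries
import Mathlib.RingTheory.PowerSeries.Inverse
import Mathlib.Algebra.Polynomial.Reverse
import Mathlib.RingTheory.Prime

/-!
# One point: Laurent series

Project OP (helper905). Laurent series over a domain `R` with a square root of a series `q` of order one
with leading coefficient `1`. Units, reduction, expansions of polynomials.
-/

set_option autoImplicit false

open Polynomial

namespace Pool.Agent.H905.OP

/-- Laurent series. -/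
abbrev LS (R : Type*) [CommRing R] : Type _ := HahnSeries ℤ R

/-- The map of Laurent series given by a homomorphism. -/
noncomputable def hm {R S : Type*} [CommRing R] [CommRing S] (φ : R →+* S) : LS R →+* LS S where
  toFun x := x.map φ
  map_zero' := by ext; simp
  map_one' := by
    ext n
    rw [HahnSeries.map_coeff, HahnSeries.coeff_one, HahnSeries.coeff_one]
    split_ifs
    · exact map_one φ
    · exact map_zero φ
  map_add' x y := by ext; simp
  map_mul' x y := HahnSeries.map_mul (φ : R →ₙ+* S)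

@[simp] theorem hm_coeff {R S : Type*} [CommRing R] [CommRing S] (φ : R →+* S) (x : LS R) (n : ℤ) :
    (hm φ x).coeff n = φ (x.coeff n) := rfl

section tri

variable {R : Type*} [CommRing R] [IsDomain R] {q : LS R}

/-- The series is `t` times a power series with constant term `1`. -/
structure Ord1 (q : LS R) : Prop where
  ord : q.order = 1
  lc : q.leadingCoeff = 1

theorem Ord1.ne (hq : Ord1 q) : q ≠ 0 := by
  rintro rfl
  have := hq.lc
  rw [HahnSeries.leadingCoeff_zero] at this
  exact zero_ne_one this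

theorem ord_sq {α : LS R} (h : α ≠ 0) : (α ^ 2).orderTop = ((2 * α.order : ℤ) : WithTop ℤ) := by
  rw [← HahnSeries.order_eq_orderTop_of_ne_zero (pow_ne_zero 2 h), pow_two,
    HahnSeries.order_mul h h, two_mul]

theorem ord_qsq (hq : Ord1 q) {β : LS R} (h : β ≠ 0) :
    (q * β ^ 2).orderTop = ((1 + 2 * β.order : ℤ) : WithTop ℤ) := by
  rw [← HahnSeries.order_eq_orderTop_of_ne_zero (mul_ne_zero hq.ne (pow_ne_zero 2 h)),
    HahnSeries.order_mul hq.ne (pow_ne_zero 2 h), hq.ord, pow_two, HahnSeries.order_mul h h, two_mul]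

theorem tri (hq : Ord1 q) {α β : LS R} (h : ¬ (α = 0 ∧ β = 0)) :
    (α ^ 2).orderTop < (q * β ^ 2).orderTop ∨ (q * β ^ 2).orderTop < (α ^ 2).orderTop := by
  by_cases hα : α = 0
  · right
    have hβ : β ≠ 0 := fun hβ => h ⟨hα, hβ⟩
    rw [hα, ord_qsq hq hβ, zero_pow two_ne_zero, HahnSeries.orderTop_zero]
    exact WithTop.coe_lt_top _
  · by_cases hβ : β = 0
    · left
      rw [hβ, ord_sq hα, zero_pow two_ne_zero, mul_zero, HahnSeries.orderTop_zero]
      exact WithTop.coe_lt_top _
    · rw [ord_qsq hq hβ, ord_sq hα, WithTop.coe_lt_coe, WithTop.coe_lt_coe]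
      omega

theorem nsq_q (hq : Ord1 q) : NSq q := by
  intro u v h
  by_contra hv
  rcases tri hq (α := u) (β := v) (fun h' => hv h'.2) with h1 | h1
  · rw [h] at h1
    exact lt_irrefl _ h1
  · rw [h] at h1
    exact lt_irrefl _ h1

theorem lc_left {α β : LS R} (h : (α ^ 2).orderTop < (q * β ^ 2).orderTop) :
    (α ^ 2 - q * β ^ 2).leadingCoeff = α.leadingCoeff ^ 2 := by
  rw [HahnSeries.leadingCoeff_sub h, pow_two, HahnSeries.leadingCoeff_mul, pow_two]

theorem lc_right (hq : Ord1 q) {α β : LS R} (h : (q * β ^ 2).orderTop < (α ^ 2).orderTop) :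
    (α ^ 2 - q * β ^ 2).leadingCoeff = -β.leadingCoeff ^ 2 := by
  have e : α ^ 2 - q * β ^ 2 = -(q * β ^ 2 - α ^ 2) := by ring
  rw [e, HahnSeries.leadingCoeff_neg, HahnSeries.leadingCoeff_sub h, HahnSeries.leadingCoeff_mul,
    hq.lc, one_mul, pow_two, HahnSeries.leadingCoeff_mul, pow_two]

theorem unit_iff_norm (z : QA q) : IsUnit z ↔ IsUnit (z.re ^ 2 - q * z.im ^ 2).leadingCoeff := by
  rw [QuadraticAlgebra.isUnit_iff_norm_isUnit, norm_eq, HahnSeries.isUnit_iff]

end tri

section red

variable {O κ : Type*} [CommRing O] [IsDomain O] [Field κ] {ρ : O →+* κ} {q : LS O} {q' : LS κ}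
  (h : hm ρ q = q')

/-- Lifting of the elements to units. -/
theorem lift_unit (hρ : Function.Surjective ρ) (hloc : ∀ r : O, ρ r ≠ 0 → IsUnit r) (hq : Ord1 q)
    {ζ : QA q'} (hζ : ζ ≠ 0) : ∃ z : QA q, IsUnit z ∧ qm (hm ρ) h z = ζ := by
  classical
  obtain ⟨l, hl⟩ : ∃ l : ZeroHom κ O, ∀ c, ρ (l c) = c := by
    refine ⟨⟨fun c => if c = 0 then 0 else Function.surjInv hρ c, if_pos rfl⟩, fun c => ?_⟩
    show ρ (if c = 0 then 0 else Function.surjInv hρ c) = c
    split_ifs with h0
    · rw [h0, map_zero]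
    · exact Function.surjInv_eq hρ c
  have hmap : ∀ x : LS κ, hm ρ (x.map l) = x := by
    intro x
    ext n
    rw [hm_coeff, HahnSeries.map_coeff, hl]
  have hlc : ∀ x : LS κ, x ≠ 0 → IsUnit (x.map l).leadingCoeff := by
    intro x hx
    have hx' : x.map l ≠ 0 := by
      intro h0
      have := hmap x
      rw [h0, map_zero] at this
      exact hx this.symm
    have hcoef : (x.map l).coeff (x.map l).order ≠ 0 := by
      rw [← HahnSeries.leadingCoeff_eq]
      exact HahnSeries.leadingCoeff_ne_zero.2 hx'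
    rw [HahnSeries.leadingCoeff_eq]
    apply hloc
    rw [HahnSeries.map_coeff, hl]
    intro h0
    rw [HahnSeries.map_coeff, h0, map_zero] at hcoef
    exact hcoef rfl
  refine ⟨⟨ζ.re.map l, ζ.im.map l⟩, ?_, QuadraticAlgebra.ext (hmap _) (hmap _)⟩
  have hne : ¬ (ζ.re.map l = 0 ∧ ζ.im.map l = 0) := by
    rintro ⟨h1, h2⟩
    apply hζ
    refine QuadraticAlgebra.ext ?_ ?_
    · rw [← hmap ζ.re, h1, map_zero]
      rfl
    · rw [← hmap ζ.im, h2, map_zero]
      rfl
  rw [unit_iff_norm]
  rcases tri hq hne with h1 | h1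
  · rw [lc_left h1]
    refine (hlc _ ?_).pow 2
    intro h0
    rw [h0] at h1
    have e0 : (0 : LS κ).map l = 0 := by
      ext n
      rw [HahnSeries.map_coeff, HahnSeries.coeff_zero, HahnSeries.coeff_zero]
      exact map_zero l
    rw [e0, zero_pow two_ne_zero, HahnSeries.orderTop_zero] at h1
    exact not_top_lt h1
  · rw [lc_right hq h1]
    refine ((hlc _ ?_).pow 2).neg
    intro h0
    rw [h0] at h1
    have e0 : (0 : LS κ).map l = 0 := by
      ext n
      rw [HahnSeries.map_coeff, HahnSeries.coeff_zero, HahnSeries.coeff_zero]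
      exact map_zero l
    rw [e0, zero_pow two_ne_zero, mul_zero, HahnSeries.orderTop_zero] at h1
    exact not_top_lt h1

/-- Units congruent to `1`. -/
theorem unit_one (hunit : ∀ r : O, IsUnit r → ρ r ≠ 0) (hq : Ord1 q) {z : QA q} (hz : IsUnit z)
    (h1 : qm (hm ρ) h z = 1) :
    IsUnit (z.re.coeff 0) ∧ (∀ n < 0, z.re.coeff n = 0) ∧ ∀ n < 0, z.im.coeff n = 0 := by
  rw [unit_iff_norm] at hz
  have hne : ¬ (z.re = 0 ∧ z.im = 0) := by
    rintro ⟨h2, h3⟩
    rw [h2, h3, zero_pow two_ne_zero, mul_zero, sub_zero, HahnSeries.leadingCoeff_zero] at hz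
    exact not_isUnit_zero hz
  have hre : ∀ n, ρ (z.re.coeff n) = (1 : LS κ).coeff n := by
    intro n
    have := congrArg (fun w : QA q' => w.re.coeff n) h1
    exact this
  have him : ∀ n, ρ (z.im.coeff n) = 0 := by
    intro n
    have := congrArg (fun w : QA q' => w.im.coeff n) h1
    exact this
  rcases tri hq hne with h2 | h2
  · rw [lc_left h2, isUnit_pow_iff two_ne_zero] at hz
    have hre0 : z.re ≠ 0 := by
      intro h0
      rw [h0, HahnSeries.leadingCoeff_zero] at hz
      exact not_isUnit_zero hz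
    have hord : z.re.order = 0 := by
      by_contra hne0
      apply hunit _ hz
      rw [HahnSeries.leadingCoeff_eq, hre, HahnSeries.coeff_one, if_neg hne0]
    refine ⟨?_, ?_, ?_⟩
    · rw [HahnSeries.leadingCoeff_eq, hord] at hz
      exact hz
    · intro n hn
      exact HahnSeries.coeff_eq_zero_of_lt_order (by rw [hord]; exact hn)
    · intro n hn
      by_cases hi : z.im = 0
      · rw [hi, HahnSeries.coeff_zero]
      · rw [ord_sq hre0, ord_qsq hq hi, WithTop.coe_lt_coe, hord] at h2
        exact HahnSeries.coeff_eq_zero_of_lt_order (by omega)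
  · exfalso
    rw [lc_right hq h2, IsUnit.neg_iff, isUnit_pow_iff two_ne_zero] at hz
    apply hunit _ hz
    rw [HahnSeries.leadingCoeff_eq, him]

end red

section exp

variable {R : Type*} [CommRing R]

/-- The parameter `t`. -/
noncomputable def tt (R : Type*) [CommRing R] : LS R := HahnSeries.single 1 1

/-- The inverse of the parameter `t`. -/
noncomputable def ti (R : Type*) [CommRing R] : LS R := HahnSeries.single (-1) 1

theorem tt_ti : tt R * ti R = 1 := by
  rw [tt, ti, HahnSeries.single_mul_single, add_neg_cancel, one_mul]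
  rfl

theorem ti_tt : ti R * tt R = 1 := by rw [mul_comm, tt_ti]

theorem isUnit_tt : IsUnit (tt R) := .of_mul_eq_one _ tt_ti

theorem isUnit_ti : IsUnit (ti R) := .of_mul_eq_one _ ti_tt

theorem ti_pow (n : ℕ) : ti R ^ n = HahnSeries.single (-(n : ℤ)) 1 := by
  rw [ti, HahnSeries.single_pow, one_pow]
  congr 1
  simp

theorem tt_pow (n : ℕ) : tt R ^ n = HahnSeries.single (n : ℤ) 1 := by
  rw [tt, HahnSeries.single_pow, one_pow]
  congr 1
  simp

/-- `p(t)`. -/
noncomputable def iP : R[X] →+* LS R := eval₂RingHom HahnSeries.C (tt R)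

/-- `p(1 / t)`. -/
noncomputable def iN : R[X] →+* LS R := eval₂RingHom HahnSeries.C (ti R)

theorem iP_C (r : R) : iP (C r) = HahnSeries.C r := eval₂_C _ _
theorem iN_C (r : R) : iN (C r) = HahnSeries.C r := eval₂_C _ _
theorem iP_X : iP (X : R[X]) = tt R := eval₂_X _ _
theorem iN_X : iN (X : R[X]) = ti R := eval₂_X _ _

theorem iP_eq (p : R[X]) : iP p = HahnSeries.ofPowerSeries ℤ R (p : PowerSeries R) := by
  have h : (iP : R[X] →+* LS R) =
      (HahnSeries.ofPowerSeries ℤ R).comp (Polynomial.coeToPowerSeries.ringHom) := by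
    refine Polynomial.ringHom_ext (fun r => ?_) ?_
    · rw [iP_C, RingHom.comp_apply, Polynomial.coeToPowerSeries.ringHom_apply, Polynomial.coe_C,
        HahnSeries.ofPowerSeries_C]
    · rw [iP_X, RingHom.comp_apply, Polynomial.coeToPowerSeries.ringHom_apply, Polynomial.coe_X,
        HahnSeries.ofPowerSeries_X]
      rfl
  rw [h]
  rfl

theorem iP_coeff (p : R[X]) (n : ℕ) : (iP p).coeff (n : ℤ) = p.coeff n := by
  rw [iP_eq]
  have := HahnSeries.ofPowerSeries_apply_coeff (Γ := ℤ) (p : PowerSeries R) n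
  rw [Polynomial.coeff_coe] at this
  exact this

theorem iP_coeff_neg (p : R[X]) {n : ℤ} (hn : n < 0) : (iP p).coeff n = 0 := by
  rw [iP_eq]
  have := PowerSeries.coeff_coe (p : PowerSeries R) n
  rw [if_pos hn] at this
  exact this

theorem iP_inj : Function.Injective (iP : R[X] → LS R) := by
  intro p p' h
  ext n
  rw [← iP_coeff, h, iP_coeff]

theorem iP_unit {p : R[X]} (h : IsUnit (p.coeff 0)) : IsUnit (iP p) := by
  rw [iP_eq]
  apply IsUnit.map
  rw [PowerSeries.isUnit_iff_constantCoeff]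
  simpa using h

theorem iP_reflect (p : R[X]) (N : ℕ) (hN : p.natDegree ≤ N) :
    iP (reflect N p) = iN p * tt R ^ N := by
  let _ : Invertible (ti R) := ⟨tt R, tt_ti, ti_tt⟩
  have h : iP (reflect N p) * ti R ^ N = iN p :=
    eval₂_reflect_mul_pow (HahnSeries.C : R →+* LS R) (ti R) N p hN
  rw [← h, mul_assoc, ← mul_pow, ti_tt, one_pow, mul_one]

end exp

end Pool.Agent.H905.OP
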