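import Pool.Agent.H905.OP.Aff
import Pool.Agent.H905.OP.Lau

/-!
# One point: the chart at infinity

Project OP (helper905). The parameter is `t = 1 / x`, `w = y / x ^ (g + 1)`, `w ^ 2 = t f*(t)` with the
reversed polynomial `f*`.
-/

set_option autoImplicit false

open Polynomial

namespace Pool.Agent.H905.OP

open Pool.Agent.Y723.HJ (CR OddM HF CC mi bar cl)

section gen

variable {R : Type*} [CommRing R]

theorem iN_reflect (p : R[X]) (N : ℕ) (hN : p.natDegree ≤ N) :
    iN (reflect N p) = iP p * ti R ^ N := by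
  have h := iP_reflect (reflect N p) N (natDegree_reflect_le.trans (by simp [hN]))
  rw [reflect_reflect] at h
  rw [h, mul_assoc, ← mul_pow, tt_ti, one_pow, mul_one]

theorem iN_inj : Function.Injective (iN : R[X] → LS R) := by
  rw [injective_iff_map_eq_zero]
  intro p hp
  have h := iP_reflect p p.natDegree le_rfl
  rw [hp, zero_mul] at h
  have h1 : reflect p.natDegree p = 0 := by
    apply iP_inj
    rw [h, map_zero]
  rwa [reflect_eq_zero_iff] at h1

theorem iN_coeff_pos (p : R[X]) {n : ℤ} (hn : 0 < n) : (iN p).coeff n = 0 := by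
  have h := iP_reflect p p.natDegree le_rfl
  have h1 : iN p = ti R ^ p.natDegree * iP (reflect p.natDegree p) := by
    rw [h, mul_comm, mul_assoc, ← mul_pow, tt_ti, one_pow, mul_one]
  rw [h1, ti_pow, HahnSeries.coeff_single_mul, one_mul]
  obtain ⟨m, hm⟩ : ∃ m : ℕ, n - -(p.natDegree : ℤ) = (m : ℤ) := ⟨(n + p.natDegree).toNat, by omega⟩
  rw [hm, iP_coeff]
  apply coeff_eq_zero_of_natDegree_lt
  refine lt_of_le_of_lt natDegree_reflect_le ?_
  rw [max_self]
  omega

theorem hm_iP {S : Type*} [CommRing S] (φ : R →+* S) (p : R[X]) : hm φ (iP p) = iP (p.map φ) := by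
  ext n
  rw [hm_coeff]
  rcases lt_or_ge n 0 with hn | hn
  · rw [iP_coeff_neg p hn, iP_coeff_neg _ hn, map_zero]
  · obtain ⟨m, rfl⟩ := Int.eq_ofNat_of_zero_le hn
    rw [iP_coeff, iP_coeff, coeff_map]

theorem hm_C {S : Type*} [CommRing S] (φ : R →+* S) (r : R) :
    hm φ (HahnSeries.C r) = HahnSeries.C (φ r) := by
  rw [← iP_C, hm_iP, map_C, iP_C]

theorem hm_ti {S : Type*} [CommRing S] (φ : R →+* S) : hm φ (ti R) = ti S := by
  have h1 : hm φ (tt R) = tt S := by
    rw [← iP_X, hm_iP, map_X, iP_X]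
  have h2 : hm φ (ti R) * tt S = ti S * tt S := by
    rw [← h1, ← map_mul, ti_tt, map_one, h1, ti_tt]
  exact isUnit_tt.mul_left_injective h2

theorem ord1_iP [IsDomain R] {p : R[X]} (h : p.coeff 0 = 1) : Ord1 (iP (X * p)) := by
  have h0 : iP p ≠ 0 := by
    intro h0
    have := iP_coeff p 0
    rw [h0, HahnSeries.coeff_zero, h] at this
    exact zero_ne_one this
  have h1 : (iP p).coeff 0 = 1 := by
    rw [← h]
    exact iP_coeff p 0
  have hord : (iP p).order = 0 := by
    apply le_antisymm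
    · exact HahnSeries.order_le_of_coeff_ne_zero (by rw [h1]; exact one_ne_zero)
    · rw [HahnSeries.le_order_iff_forall h0]
      intro j hj
      exact iP_coeff_neg p hj
  have ht0 : tt R ≠ 0 := isUnit_tt.ne_zero
  have hto : (tt R).order = 1 := HahnSeries.order_single one_ne_zero
  refine ⟨?_, ?_⟩
  · rw [map_mul, iP_X, HahnSeries.order_mul ht0 h0, hord, hto, add_zero]
  · rw [map_mul, iP_X, HahnSeries.leadingCoeff_mul, HahnSeries.leadingCoeff_eq, hto,
      HahnSeries.leadingCoeff_eq, hord, h1, mul_one]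
    exact HahnSeries.coeff_single_same _ _

end gen

/-- A homomorphism of quadratic algebras which multiplies the root by `λ`. -/
def ql {R S : Type*} [CommRing R] [CommRing S] (φ : R →+* S) (l : S) {q : R} {q' : S}
    (h : φ q = l ^ 2 * q') : QA q →+* QA q' where
  toFun z := ⟨φ z.re, l * φ z.im⟩
  map_zero' := by
    refine QuadraticAlgebra.ext ?_ ?_
    · exact map_zero φ
    · simp
  map_one' := by
    refine QuadraticAlgebra.ext ?_ ?_
    · exact map_one φ
    · show l * φ 0 = 0
      rw [map_zero, mul_zero]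
  map_add' z w := by
    refine QuadraticAlgebra.ext ?_ ?_
    · exact map_add φ _ _
    · simp [mul_add]
  map_mul' z w := by
    refine QuadraticAlgebra.ext ?_ ?_
    · simp only [QuadraticAlgebra.re_mul, map_add, map_mul, h]
      ring
    · simp only [QuadraticAlgebra.im_mul, map_add, map_mul, map_zero]
      ring

section maps

variable {O : Type*} [CommRing O]

/-- The polynomial `t f*(t)`. -/
noncomputable def qi (f : O[X]) : O[X] := X * f.reverse

/-- The series `t f*(t)`. -/
noncomputable def qL (f : O[X]) : LS O := iP (qi f)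

/-- The ring of the expansions. -/
abbrev LL (f : O[X]) : Type _ := QA (qL f)

/-- The chart at infinity in the ring of the expansions. -/
noncomputable def jI (f : O[X]) : QA (qi f) →+* LL f := qm iP rfl

theorem qL_eq {f : O[X]} {g : ℕ} (hd : f.natDegree = 2 * g + 1) :
    iN f = (ti O ^ (g + 1)) ^ 2 * qL f := by
  have h := iP_reflect f f.natDegree le_rfl
  have h1 : qL f = tt O * (iN f * tt O ^ f.natDegree) := by
    rw [qL, qi, map_mul, iP_X, ← h]
    rfl
  have h2 : (ti O ^ (g + 1)) ^ 2 * (tt O * tt O ^ (2 * g + 1)) = 1 := by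
    have e1 : (ti O ^ (g + 1)) ^ 2 = ti O ^ (2 * g + 2) := by ring
    have e2 : tt O * tt O ^ (2 * g + 1) = tt O ^ (2 * g + 2) := by ring
    rw [e1, e2, ← mul_pow, ti_tt, one_pow]
  rw [h1, hd]
  linear_combination -iN f * h2

/-- The affine chart in the ring of the expansions. -/
noncomputable def jL {f : O[X]} {g : ℕ} (hd : f.natDegree = 2 * g + 1) : QA f →+* LL f :=
  ql iN (ti O ^ (g + 1)) (qL_eq hd)

variable {f : O[X]} {g : ℕ} (hd : f.natDegree = 2 * g + 1)

theorem jL_re (z : QA f) : (jL hd z).re = iN z.re := rfl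
theorem jL_im (z : QA f) : (jL hd z).im = ti O ^ (g + 1) * iN z.im := rfl
theorem jI_re (z : QA (qi f)) : (jI f z).re = iP z.re := rfl
theorem jI_im (z : QA (qi f)) : (jI f z).im = iP z.im := rfl

theorem jI_inj : Function.Injective (jI f) := qm_inj _ _ iP_inj

theorem jL_inj : Function.Injective (jL hd) := by
  rw [injective_iff_map_eq_zero]
  intro z hz
  have h1 : iN z.re = 0 := by rw [← jL_re hd, hz]; rfl
  have h2 : ti O ^ (g + 1) * iN z.im = 0 := by rw [← jL_im hd, hz]; rfl
  refine QuadraticAlgebra.ext ?_ ?_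
  · exact iN_inj (h1.trans (map_zero _).symm)
  · exact iN_inj (((isUnit_ti.pow _).mul_right_eq_zero.1 h2).trans (map_zero _).symm)

/-- Elements of `O((t))`. -/
noncomputable abbrev cL (f : O[X]) (r : LS O) : LL f := algebraMap (LS O) (LL f) r

/-- From the chart at infinity to the affine chart. -/
noncomputable def toA (f : O[X]) (g l : ℕ) (z : QA (qi f)) : QA f :=
  ⟨reflect l z.re, reflect (l - (g + 1)) z.im⟩

/-- From the affine chart to the chart at infinity. -/
noncomputable def toI (f : O[X]) (g l : ℕ) (z : QA f) : QA (qi f) :=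
  ⟨reflect l z.re, reflect (l - (g + 1)) z.im⟩

theorem jL_toA {l : ℕ} {z : QA (qi f)} (h1 : z.re.natDegree ≤ l)
    (h2 : z.im.natDegree + (g + 1) ≤ l) :
    jL hd (toA f g l z) = cL f (ti O ^ l) * jI f z := by
  rw [← Algebra.smul_def]
  refine QuadraticAlgebra.ext ?_ ?_
  · rw [jL_re, QuadraticAlgebra.re_smul, jI_re, smul_eq_mul, toA, iN_reflect _ _ h1, mul_comm]
  · rw [jL_im, QuadraticAlgebra.im_smul, jI_im, smul_eq_mul, toA,
      iN_reflect _ _ (by omega : z.im.natDegree ≤ l - (g + 1))]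
    have e : ti O ^ l = ti O ^ (g + 1) * ti O ^ (l - (g + 1)) := by
      rw [← pow_add]
      congr 1
      omega
    rw [e]
    ring

theorem jI_toI {l : ℕ} {z : QA f} (h1 : z.re.natDegree ≤ l)
    (h2 : z.im.natDegree + (g + 1) ≤ l) :
    jI f (toI f g l z) = cL f (tt O ^ l) * jL hd z := by
  rw [← Algebra.smul_def]
  refine QuadraticAlgebra.ext ?_ ?_
  · rw [jI_re, QuadraticAlgebra.re_smul, jL_re, smul_eq_mul, toI, iP_reflect _ _ h1, mul_comm]
  · rw [jI_im, QuadraticAlgebra.im_smul, jL_im, smul_eq_mul, toI,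
      iP_reflect _ _ (by omega : z.im.natDegree ≤ l - (g + 1))]
    have e : tt O ^ l * ti O ^ (g + 1) = tt O ^ (l - (g + 1)) := by
      have e1 : tt O ^ l = tt O ^ (l - (g + 1)) * tt O ^ (g + 1) := by
        rw [← pow_add]
        congr 1
        omega
      rw [e1, mul_assoc, ← mul_pow, tt_ti, one_pow, mul_one]
    rw [← mul_assoc, e, mul_comm]

theorem exists_toA (z : QA (qi f)) :
    ∃ l : ℕ, jL hd (toA f g l z) = cL f (ti O ^ l) * jI f z :=
  ⟨z.re.natDegree + (z.im.natDegree + (g + 1)), jL_toA hd (by omega) (by omega)⟩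

theorem cL_mul (r r' : LS O) : cL f (r * r') = cL f r * cL f r' := map_mul _ _ _

theorem cL_ti_tt (l : ℕ) : cL f (ti O ^ l) * cL f (tt O ^ l) = 1 := by
  rw [← map_mul, ← mul_pow, ti_tt, one_pow, map_one]

theorem isUnit_cL {r : LS O} (h : IsUnit r) : IsUnit (cL f r) := h.map _

/-- The coordinate `x`. -/
theorem jL_X (m : ℕ) : jL hd (cA f (X ^ m)) = cL f (ti O ^ m) := by
  refine QuadraticAlgebra.ext ?_ ?_
  · rw [jL_re]
    show iN (X ^ m) = ti O ^ m
    rw [map_pow, iN_X]
  · rw [jL_im]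
    show ti O ^ (g + 1) * iN 0 = 0
    rw [map_zero, mul_zero]

theorem jL_mul (a b : QA f) : jL hd (a * b) = jL hd a * jL hd b := map_mul _ _ _

theorem jI_mul (a b : QA (qi f)) : jI f (a * b) = jI f a * jI f b := map_mul _ _ _

theorem jL_C (r : O) : jL hd (cA f (C r)) = cL f (HahnSeries.C r) := by
  refine QuadraticAlgebra.ext ?_ ?_
  · rw [jL_re]
    exact iN_C r
  · rw [jL_im]
    show ti O ^ (g + 1) * iN 0 = 0
    rw [map_zero, mul_zero]

theorem jI_c (p : O[X]) : jI f (algebraMap O[X] (QA (qi f)) p) = cL f (iP p) := by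
  refine QuadraticAlgebra.ext ?_ ?_
  · rfl
  · rw [jI_im]
    show iP 0 = 0
    rw [map_zero]

end maps

end Pool.Agent.H905.OP
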