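import Pool.Agent.H905.OP.MQ

/-!
# One point: from number fields to infinite extensions

Project OP (helper905).
-/

set_option autoImplicit false

open Polynomial

namespace Pool.Agent.H905.OP

theorem adj_top {F L : Type} [Field F] [Field L] [Algebra F L] (T : Set L) :
    IntermediateField.adjoin F {x : IntermediateField.adjoin F T | (x : L) ∈ T} = ⊤ := by
  apply IntermediateField.map_injective (IntermediateField.adjoin F T).val
  rw [IntermediateField.adjoin_map]
  have h1 : (IntermediateField.adjoin F T).val '' {x : IntermediateField.adjoin F T |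
      (x : L) ∈ T} = T := by
    ext x
    constructor
    · rintro ⟨y, hy, rfl⟩
      exact hy
    · intro hx
      exact ⟨⟨x, IntermediateField.subset_adjoin F T hx⟩, hx, rfl⟩
  rw [h1, ← AlgHom.fieldRange_eq_map, IntermediateField.fieldRange_val]

/-- Points over an infinite extension are defined over a number field. -/
theorem inf_point {E : Set ℕ} {f : ℤ[X]}
    (h : ∀ (M : Type) [Field M] [NumberField M] (t : Set M), IntermediateField.adjoin ℚ t = ⊤ →
      (∀ x ∈ t, ∃ p ∈ E, x ^ 2 = (p : M)) → ∀ a b : M, b ^ 2 ≠ aeval a f)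
    {L : Type} [Field L] [CharZero L] (s : Set L) (hs : IntermediateField.adjoin ℚ s = ⊤)
    (hsq : ∀ x ∈ s, ∃ p ∈ E, x ^ 2 = (p : L)) (a b : L) : b ^ 2 ≠ aeval a f := by
  classical
  intro hab
  have ha : a ∈ IntermediateField.adjoin ℚ s := by rw [hs]; trivial
  have hb : b ∈ IntermediateField.adjoin ℚ s := by rw [hs]; trivial
  obtain ⟨A, hA, haA⟩ := IntermediateField.exists_finset_of_mem_adjoin ha
  obtain ⟨B, hB, hbB⟩ := IntermediateField.exists_finset_of_mem_adjoin hb
  set T : Set L := ↑(A ∪ B) with hT
  have hTs : T ⊆ s := by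
    rw [hT, Finset.coe_union]
    exact Set.union_subset hA hB
  have hfin : Finite T := (A ∪ B).finite_toSet
  have hint : ∀ x ∈ T, IsIntegral ℚ x := by
    intro x hx
    obtain ⟨p, -, hp⟩ := hsq x (hTs hx)
    refine ⟨X ^ 2 - C (p : ℚ), monic_X_pow_sub_C _ two_ne_zero, ?_⟩
    rw [eval₂_sub, eval₂_X_pow, eval₂_C, hp, map_natCast, sub_self]
  have hfd : FiniteDimensional ℚ (IntermediateField.adjoin ℚ T) :=
    IntermediateField.finiteDimensional_adjoin hint
  have hnf : NumberField (IntermediateField.adjoin ℚ T) := ⟨⟩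
  have haT : a ∈ IntermediateField.adjoin ℚ T := by
    refine IntermediateField.adjoin.mono ℚ _ _ ?_ haA
    rw [hT, Finset.coe_union]
    exact Set.subset_union_left
  have hbT : b ∈ IntermediateField.adjoin ℚ T := by
    refine IntermediateField.adjoin.mono ℚ _ _ ?_ hbB
    rw [hT, Finset.coe_union]
    exact Set.subset_union_right
  set t : Set (IntermediateField.adjoin ℚ T) := {x | (x : L) ∈ T} with ht
  have htop : IntermediateField.adjoin ℚ t = ⊤ := by
    have key : ∀ inst : Algebra ℚ (IntermediateField.adjoin ℚ T),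
        @IntermediateField.adjoin ℚ _ (IntermediateField.adjoin ℚ T) _ inst t = ⊤ := by
      intro inst
      obtain rfl : inst = IntermediateField.algebra' _ := Subsingleton.elim _ _
      exact adj_top T
    exact key _
  refine h (IntermediateField.adjoin ℚ T) t htop (fun x hx => ?_) ⟨a, haT⟩ ⟨b, hbT⟩ ?_
  · obtain ⟨p, hpE, hp⟩ := hsq (x : L) (hTs hx)
    refine ⟨p, hpE, ?_⟩
    apply Subtype.ext
    push_cast
    exact hp
  · apply Subtype.ext
    have h2 : ((aeval (⟨a, haT⟩ : IntermediateField.adjoin ℚ T) f :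
        IntermediateField.adjoin ℚ T) : L) = aeval a f := by
      have h3 := aeval_algebraMap_apply L (⟨a, haT⟩ : IntermediateField.adjoin ℚ T) f
      exact h3.symm
    rw [h2]
    exact hab

end Pool.Agent.H905.OP
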