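import Mathlib.Algebra.QuadraticAlgebra.Basic
import Mathlib.RingTheory.Nakayama
import Mathlib.RingTheory.PrincipalIdealDomain
import Mathlib.RingTheory.Noetherian.Basic
import Mathlib.Tactic

/-!
# One point: lattices stable under a square root

Project OP (helper905). Let `R` be a noetherian domain and `ρ : R → S` a surjective homomorphism to a
principal ideal domain with kernel `(p)`, and `q ∈ R` such that `ρ(q)` is not a square in the field of
fractions of `S`. An ideal of `R[√q]` which is saturated with respect to `p` and not contained in `(p)`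
is free of rank two over `R` up to the elements which are `1` modulo `p`, so that it is described by a
matrix for the multiplication with `√q`.
-/

set_option autoImplicit false

namespace Pool.Agent.H905.OP

/-- The ring `R[√q]`. -/
abbrev QA {R : Type*} [CommRing R] (q : R) : Type _ := QuadraticAlgebra R q 0

/-- The homomorphism of the rings `R[√q]` given by a homomorphism of rings. -/
def qm {R S : Type*} [CommRing R] [CommRing S] (φ : R →+* S) {q : R} {q' : S} (h : φ q = q') :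
    QA q →+* QA q' where
  toFun z := ⟨φ z.re, φ z.im⟩
  map_zero' := by
    refine QuadraticAlgebra.ext ?_ ?_ <;> exact map_zero φ
  map_one' := by
    refine QuadraticAlgebra.ext ?_ ?_
    · exact map_one φ
    · exact map_zero φ
  map_add' z w := by
    refine QuadraticAlgebra.ext ?_ ?_ <;> exact map_add φ _ _
  map_mul' z w := by
    refine QuadraticAlgebra.ext ?_ ?_
    · simp only [QuadraticAlgebra.re_mul, map_add, map_mul, h]
    · simp only [QuadraticAlgebra.im_mul, map_add, map_mul, map_zero]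

section qm

variable {R S : Type*} [CommRing R] [CommRing S] (φ : R →+* S) {q : R} {q' : S} (h : φ q = q')

@[simp] theorem qm_re (z : QA q) : (qm φ h z).re = φ z.re := rfl
@[simp] theorem qm_im (z : QA q) : (qm φ h z).im = φ z.im := rfl

theorem qm_inj (hφ : Function.Injective φ) : Function.Injective (qm φ h) := by
  intro z w hzw
  refine QuadraticAlgebra.ext (hφ ?_) (hφ ?_)
  · rw [← qm_re φ h, hzw, qm_re]
  · rw [← qm_im φ h, hzw, qm_im]

theorem norm_eq (z : QA q) : z.norm = z.re ^ 2 - q * z.im ^ 2 := by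
  rw [QuadraticAlgebra.norm_def]
  ring

end qm

/-- `q` is not the square of a fraction. -/
def NSq {S : Type*} [CommRing S] (q : S) : Prop := ∀ u v : S, u ^ 2 = q * v ^ 2 → v = 0

theorem norm_ne {S : Type*} [CommRing S] [IsDomain S] {q : S} (h : NSq q) {z : QA q} (hz : z ≠ 0) :
    z.norm ≠ 0 := by
  intro h0
  rw [norm_eq, sub_eq_zero] at h0
  have h1 := h _ _ h0
  rw [h1] at h0
  have h2 : z.re = 0 := by
    have : z.re ^ 2 = 0 := by rw [h0]; ring
    exact pow_eq_zero_iff two_ne_zero |>.1 this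
  exact hz (QuadraticAlgebra.ext h2 h1)

theorem isDomain_of {S : Type*} [CommRing S] [IsDomain S] {q : S} (h : NSq q) : IsDomain (QA q) := by
  have : NoZeroDivisors (QA q) := by
    constructor
    intro z w hzw
    by_contra hcon
    rw [not_or] at hcon
    have h1 := norm_ne h hcon.1
    have h2 := norm_ne h hcon.2
    have h3 : (z * w).norm = z.norm * w.norm := map_mul _ _ _
    rw [hzw, QuadraticAlgebra.norm_zero] at h3
    exact mul_ne_zero h1 h2 h3.symm
  exact NoZeroDivisors.to_isDomain _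

section lat

variable {R S : Type*} [CommRing R] [IsDomain R] [IsNoetherianRing R] [CommRing S] [IsDomain S]
  [IsPrincipalIdealRing S] {ρ : R →+* S} {q : R} {q' : S} (hq : ρ q = q')

omit [IsDomain R] [IsNoetherianRing R] [IsDomain S] [IsPrincipalIdealRing S] in
theorem dvd_iff {p : R} (hker : ∀ r, ρ r = 0 ↔ p ∣ r) (z : QA q) :
    algebraMap R (QA q) p ∣ z ↔ qm ρ hq z = 0 := by
  rw [QuadraticAlgebra.algebraMap_dvd_iff]
  constructor
  · rintro ⟨h1, h2⟩
    exact QuadraticAlgebra.ext ((hker _).2 h1) ((hker _).2 h2)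
  · intro h
    exact ⟨(hker _).1 (by rw [← qm_re ρ hq, h]; rfl), (hker _).1 (by rw [← qm_im ρ hq, h]; rfl)⟩

/-- The lattice. -/
theorem lat (hns : NSq q') {p : R} (hρ : Function.Surjective ρ) (hker : ∀ r, ρ r = 0 ↔ p ∣ r)
    (I : Ideal (QA q)) (hsat : ∀ z, algebraMap R (QA q) p * z ∈ I → z ∈ I)
    (hne : ∃ z ∈ I, qm ρ hq z ≠ 0) :
    ∃ (e₁ e₂ : QA q) (s a b c : R), e₁ ∈ I ∧ e₂ ∈ I ∧ qm ρ hq e₁ ≠ 0 ∧ qm ρ hq e₂ ≠ 0 ∧
      ρ s = 1 ∧ b ≠ 0 ∧
      a ^ 2 + b * c = s ^ 2 * q ∧ (∀ z ∈ I, ∃ u v : R, s • z = u • e₁ + v • e₂) ∧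
      (⟨-a, s⟩ : QA q) * e₁ = b • e₂ ∧ (⟨a, s⟩ : QA q) * e₂ = c • e₁ := by
  -- the ideals of `S`
  let D₁ : Ideal S :=
    { carrier := {r | ∃ z ∈ I, ρ z.re = r ∧ ρ z.im = 0}
      zero_mem' := ⟨0, I.zero_mem, by simp⟩
      add_mem' := by
        rintro r r' ⟨z, hz, h1, h2⟩ ⟨z', hz', h1', h2'⟩
        exact ⟨z + z', I.add_mem hz hz', by simp [h1, h1'], by simp [h2, h2']⟩
      smul_mem' := by
        rintro t r ⟨z, hz, h1, h2⟩
        obtain ⟨t, rfl⟩ := hρ t
        refine ⟨algebraMap R (QA q) t * z, I.mul_mem_left _ hz, ?_, ?_⟩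
        · simp [h1]
        · simp [h2] }
  let D₂ : Ideal S :=
    { carrier := {r | ∃ z ∈ I, ρ z.im = r}
      zero_mem' := ⟨0, I.zero_mem, by simp⟩
      add_mem' := by
        rintro r r' ⟨z, hz, h1⟩ ⟨z', hz', h1'⟩
        exact ⟨z + z', I.add_mem hz hz', by simp [h1, h1']⟩
      smul_mem' := by
        rintro t r ⟨z, hz, h1⟩
        obtain ⟨t, rfl⟩ := hρ t
        refine ⟨algebraMap R (QA q) t * z, I.mul_mem_left _ hz, ?_⟩
        simp [h1] }
  obtain ⟨d₁, hd₁⟩ := (IsPrincipalIdealRing.principal D₁).principal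
  obtain ⟨d₂, hd₂⟩ := (IsPrincipalIdealRing.principal D₂).principal
  have m₁ : d₁ ∈ D₁ := by rw [hd₁]; exact Submodule.mem_span_singleton_self d₁
  have m₂ : d₂ ∈ D₂ := by rw [hd₂]; exact Submodule.mem_span_singleton_self d₂
  obtain ⟨e₁, he₁, h11, h12⟩ := m₁
  obtain ⟨e₂, he₂, h22⟩ := m₂
  -- `d₁` and `d₂` are nonzero
  obtain ⟨z₀, hz₀, hz₀'⟩ := hne
  have hN : algebraMap R (QA q) z₀.norm ∈ I := by
    rw [QuadraticAlgebra.algebraMap_norm_eq_mul_star]
    exact I.mul_mem_right _ hz₀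
  have hN' : ρ z₀.norm ≠ 0 := by
    have h1 := norm_ne hns hz₀'
    rw [norm_eq, qm_re, qm_im, ← hq] at h1
    rwa [norm_eq, map_sub, map_mul, map_pow, map_pow]
  have hd₁0 : d₁ ≠ 0 := by
    intro h0
    have h1 : ρ z₀.norm ∈ D₁ := ⟨_, hN, by simp, by simp⟩
    rw [hd₁, h0, Submodule.span_zero_singleton] at h1
    exact hN' h1
  have hd₂0 : d₂ ≠ 0 := by
    intro h0
    have h1 : ρ z₀.norm ∈ D₂ := by
      refine ⟨⟨0, 1⟩ * algebraMap R (QA q) z₀.norm, I.mul_mem_left _ hN, ?_⟩
      simp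
    rw [hd₂, h0, Submodule.span_zero_singleton] at h1
    exact hN' h1
  -- generation modulo `p`
  set N : Submodule R (QA q) := Submodule.span R {e₁, e₂} with hNdef
  set P : Submodule R (QA q) := I.restrictScalars R with hP
  have hgen : P ≤ N ⊔ Ideal.span {p} • P := by
    intro z hz
    have hz' : z ∈ I := hz
    have h1 : ρ z.im ∈ D₂ := ⟨z, hz', rfl⟩
    rw [hd₂, Submodule.mem_span_singleton] at h1
    obtain ⟨l, hl⟩ := h1
    obtain ⟨l, rfl⟩ := hρ l
    have h2 : z - l • e₂ ∈ I := by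
      have e3 : l • e₂ = algebraMap R (QA q) l * e₂ := Algebra.smul_def _ _
      rw [e3]
      exact I.sub_mem hz' (I.mul_mem_left _ he₂)
    have h3 : ρ (z - l • e₂).im = 0 := by
      rw [QuadraticAlgebra.im_sub, QuadraticAlgebra.im_smul, smul_eq_mul, map_sub, map_mul, h22, ← hl,
        smul_eq_mul, sub_self]
    have h4 : ρ (z - l • e₂).re ∈ D₁ := ⟨_, h2, rfl, h3⟩
    rw [hd₁, Submodule.mem_span_singleton] at h4
    obtain ⟨k, hk⟩ := h4
    obtain ⟨k, rfl⟩ := hρ k
    have h5 : z - l • e₂ - k • e₁ ∈ I := by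
      have e3 : k • e₁ = algebraMap R (QA q) k * e₁ := Algebra.smul_def _ _
      rw [e3]
      exact I.sub_mem h2 (I.mul_mem_left _ he₁)
    have h6 : algebraMap R (QA q) p ∣ z - l • e₂ - k • e₁ := by
      rw [dvd_iff hq hker]
      refine QuadraticAlgebra.ext ?_ ?_
      · rw [qm_re, QuadraticAlgebra.re_sub, QuadraticAlgebra.re_smul, smul_eq_mul, map_sub, map_mul,
          h11, ← hk, smul_eq_mul, sub_self]
        rfl
      · rw [qm_im, QuadraticAlgebra.im_sub, QuadraticAlgebra.im_smul, smul_eq_mul, map_sub, map_mul,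
          h12, h3, mul_zero, sub_zero]
        rfl
    obtain ⟨w, hw⟩ := h6
    have h7 : w ∈ I := hsat w (by rw [← hw]; exact h5)
    have e4 : z = (k • e₁ + l • e₂) + p • w := by
      have e5 : p • w = algebraMap R (QA q) p * w := Algebra.smul_def _ _
      rw [e5, ← hw]
      abel
    rw [e4]
    refine Submodule.add_mem_sup ?_ ?_
    · exact Submodule.add_mem _ (Submodule.smul_mem _ _ (Submodule.subset_span (by simp)))
        (Submodule.smul_mem _ _ (Submodule.subset_span (by simp)))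
    · exact Submodule.smul_mem_smul (Ideal.mem_span_singleton_self p) h7
  have hfg : P.FG := IsNoetherian.noetherian P
  obtain ⟨s, hs, hsP⟩ := Submodule.exists_sub_one_mem_and_smul_le_of_fg_of_le_sup hfg le_rfl hgen
  have hs1 : ρ s = 1 := by
    rw [Ideal.mem_span_singleton] at hs
    have := (hker _).2 hs
    rw [map_sub, map_one, sub_eq_zero] at this
    exact this
  have hrep : ∀ z ∈ I, ∃ u v : R, s • z = u • e₁ + v • e₂ := by
    intro z hz
    have h1 : s • z ∈ N := hsP (Submodule.smul_mem_pointwise_smul z s P hz)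
    rw [hNdef, Submodule.mem_span_pair] at h1
    obtain ⟨u, v, h⟩ := h1
    exact ⟨u, v, h.symm⟩
  -- independence
  have hdet : e₁.re * e₂.im - e₂.re * e₁.im ≠ 0 := by
    intro h0
    have h1 := congrArg ρ h0
    rw [map_sub, map_mul, map_mul, h11, h22, h12, mul_zero, sub_zero, map_zero] at h1
    exact mul_ne_zero hd₁0 hd₂0 h1
  have hind : ∀ u v : R, u • e₁ + v • e₂ = 0 → u = 0 ∧ v = 0 := by
    intro u v h
    have h1 := congrArg QuadraticAlgebra.re h
    have h2 := congrArg QuadraticAlgebra.im h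
    simp only [QuadraticAlgebra.re_add, QuadraticAlgebra.im_add, QuadraticAlgebra.re_smul,
      QuadraticAlgebra.im_smul, smul_eq_mul, QuadraticAlgebra.re_zero,
      QuadraticAlgebra.im_zero] at h1 h2
    constructor
    · have h3 : u * (e₁.re * e₂.im - e₂.re * e₁.im) = 0 := by
        linear_combination e₂.im * h1 - e₂.re * h2
      exact (mul_eq_zero.1 h3).resolve_right hdet
    · have h3 : v * (e₁.re * e₂.im - e₂.re * e₁.im) = 0 := by
        linear_combination e₁.re * h2 - e₁.im * h1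
      exact (mul_eq_zero.1 h3).resolve_right hdet
  -- the matrix
  have hy1 : (⟨0, 1⟩ : QA q) * e₁ ∈ I := I.mul_mem_left _ he₁
  have hy2 : (⟨0, 1⟩ : QA q) * e₂ ∈ I := I.mul_mem_left _ he₂
  obtain ⟨a, b, hab⟩ := hrep _ hy1
  obtain ⟨c, d, hcd⟩ := hrep _ hy2
  have hss : (⟨0, s⟩ : QA q) = s • (⟨0, 1⟩ : QA q) := by
    refine QuadraticAlgebra.ext ?_ ?_ <;> simp
  have hsy : ∀ z : QA q, (⟨0, s⟩ : QA q) * z = s • ((⟨0, 1⟩ : QA q) * z) := by
    intro z
    rw [hss, smul_mul_assoc]
  have hab' : (⟨0, s⟩ : QA q) * e₁ = a • e₁ + b • e₂ := by rw [hsy, hab]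
  have hcd' : (⟨0, s⟩ : QA q) * e₂ = c • e₁ + d • e₂ := by rw [hsy, hcd]
  have hsq : ∀ z : QA q, (⟨0, s⟩ : QA q) * ((⟨0, s⟩ : QA q) * z) = (s ^ 2 * q) • z := by
    intro z
    rw [← mul_assoc]
    have : (⟨0, s⟩ : QA q) * ⟨0, s⟩ = algebraMap R (QA q) (s ^ 2 * q) := by
      rw [QuadraticAlgebra.algebraMap_eq]
      refine QuadraticAlgebra.ext ?_ ?_
      · simp only [QuadraticAlgebra.re_mul]
        ring
      · simp only [QuadraticAlgebra.im_mul]
        ring
    rw [this, Algebra.smul_def]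
  have key1 : (a ^ 2 + b * c - s ^ 2 * q) • e₁ + (a * b + b * d) • e₂ = 0 := by
    have h1 := hsq e₁
    rw [hab', mul_add, mul_smul_comm, mul_smul_comm, hab', hcd'] at h1
    rw [sub_smul, ← h1]
    simp only [smul_add, smul_smul, add_smul]
    have e1 : a ^ 2 = a * a := sq a
    rw [e1]
    abel
  obtain ⟨k1, k2⟩ := hind _ _ key1
  have hns0 : ∀ u : R, u ^ 2 ≠ s ^ 2 * q := by
    intro u hu
    have h1 := congrArg ρ hu
    rw [map_pow, map_mul, map_pow, hs1, hq, one_pow, one_mul] at h1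
    have := hns (ρ u) 1 (by rw [h1]; ring)
    exact one_ne_zero this
  have hb0 : b ≠ 0 := by
    intro hb
    rw [hb, zero_mul, add_zero, sub_eq_zero] at k1
    exact hns0 a k1
  have hd : d = -a := by
    have h1 : b * (a + d) = 0 := by linear_combination k2
    have h2 := (mul_eq_zero.1 h1).resolve_left hb0
    linear_combination h2
  refine ⟨e₁, e₂, s, a, b, c, he₁, he₂, ?_, ?_, hs1, hb0, sub_eq_zero.1 k1, hrep, ?_, ?_⟩
  · intro h
    have h1 := congrArg QuadraticAlgebra.re h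
    rw [qm_re, h11] at h1
    exact hd₁0 h1
  · intro h
    have h1 := congrArg QuadraticAlgebra.im h
    rw [qm_im, h22] at h1
    exact hd₂0 h1
  · have e5 : (⟨-a, s⟩ : QA q) = ⟨0, s⟩ - algebraMap R (QA q) a := by
      refine QuadraticAlgebra.ext ?_ ?_ <;> simp
    rw [e5, sub_mul, hab', Algebra.smul_def a e₁]
    abel
  · have e5 : (⟨a, s⟩ : QA q) = ⟨0, s⟩ + algebraMap R (QA q) a := by
      refine QuadraticAlgebra.ext ?_ ?_ <;> simp
    rw [e5, add_mul, hcd', hd, ← Algebra.smul_def a e₂, neg_smul]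
    abel

end lat

end Pool.Agent.H905.OP
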