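import Pool.Agent.H905.OP.Supply2
import Pool.Graph.R_pool_sql_team_seeded_63374d34.N891.PQ.TwA
import Mathlib.NumberTheory.RamificationInertia.Galois
import Mathlib.NumberTheory.RamificationInertia.Unramified
import Mathlib.FieldTheory.Extension

/-!
# One point: multiquadratic fields

Project OP (helper905). A number field generated by square roots of primes `p` which are one modulo eight and
squares modulo the primes in `S` is Galois of 2-power degree, can be embedded in `ℝ` and `ℚ_2`, the primes in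
`S` split completely and only the primes `p` and two can be ramified.
-/

set_option autoImplicit false
set_option linter.deprecated false
set_option linter.unusedSectionVars false

open Polynomial NumberField IsDedekindDomain Pointwise

namespace Pool.Agent.H905.OP

section inert

variable {M : Type} [Field M] [NumberField M] [IsGalois ℚ M]

theorem unram_of_inertia {p : ℕ} (hp : p.Prime) (w : HeightOneSpectrum (𝓞 M))
    (hw : (p : 𝓞 M) ∈ w.asIdeal)
    (hI : ∀ g : M ≃ₐ[ℚ] M, (∀ x : 𝓞 M, tg g x - x ∈ w.asIdeal) → g = 1) :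
    (p : 𝓞 M) ∉ w.asIdeal ^ 2 := by
  have hm : (Ideal.span {(p : ℤ)}).IsMaximal :=
    PrincipalIdealRing.isMaximal_of_irreducible (Nat.prime_iff_prime_int.1 hp).irreducible
  have hle : Ideal.span {(p : ℤ)} ≤ w.asIdeal.under ℤ := by
    rw [Ideal.span_singleton_le_iff_mem, Ideal.under, Ideal.mem_comap, map_natCast]
    exact hw
  have hl : w.asIdeal.LiesOver (Ideal.span {(p : ℤ)}) := by
    constructor
    exact hm.eq_of_le (Ideal.IsPrime.ne_top inferInstance) hle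
  have hcard : Nat.card (w.asIdeal.inertia (M ≃ₐ[ℚ] M)) = 1 := by
    rw [Nat.card_eq_one_iff_unique]
    constructor
    · constructor
      intro a b
      have key : ∀ a : w.asIdeal.inertia (M ≃ₐ[ℚ] M), a = 1 := by
        intro a
        apply Subtype.ext
        apply hI
        intro x
        have := a.2 x
        exact this
      rw [key a, key b]
    · exact ⟨1⟩
  have h1 := Ideal.card_inertia_eq_ramificationIdxIn (G := M ≃ₐ[ℚ] M) (Ideal.span {(p : ℤ)})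
    w.asIdeal
  rw [hcard, Ideal.ramificationIdxIn_eq_ramificationIdx (Ideal.span {(p : ℤ)}) w.asIdeal
    (M ≃ₐ[ℚ] M)] at h1
  have hne : (Ideal.span {(p : ℤ)}).map (algebraMap ℤ (𝓞 M)) ≠ ⊥ := by
    rw [Ideal.map_span, Set.image_singleton, Ne, Ideal.span_singleton_eq_bot, map_natCast]
    exact_mod_cast hp.ne_zero
  have h2 := Ideal.ramificationIdx'_eq_ramificationIdx' (p := Ideal.span {(p : ℤ)})
    (q := w.asIdeal) hne
  intro h3
  have h4 : (Ideal.span {(p : ℤ)}).map (algebraMap ℤ (𝓞 M)) ≤ w.asIdeal ^ 2 := by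
    rw [Ideal.map_span, Set.image_singleton, Ideal.span_singleton_le_iff_mem, map_natCast]
    exact h3
  have h5 := (Ideal.ramificationIdx'_ne_one_iff (h4.trans (Ideal.pow_le_self two_ne_zero))).2 h4
  exact h5 (h2.trans h1.symm)

/-- a Frobenius automorphism at a given prime -/
theorem frob_at {p : ℕ} (hp : p.Prime) (w : HeightOneSpectrum (𝓞 M))
    (hw : (p : 𝓞 M) ∈ w.asIdeal) : ∃ g : M ≃ₐ[ℚ] M, ∀ x : 𝓞 M, tg g x - x ^ p ∈ w.asIdeal := by
  have hm : (Ideal.span {(p : ℤ)}).IsMaximal :=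
    PrincipalIdealRing.isMaximal_of_irreducible (Nat.prime_iff_prime_int.1 hp).irreducible
  have hle : Ideal.span {(p : ℤ)} ≤ w.asIdeal.under ℤ := by
    rw [Ideal.span_singleton_le_iff_mem, Ideal.under, Ideal.mem_comap, map_natCast]
    exact hw
  have hu : w.asIdeal.under ℤ = Ideal.span {(p : ℤ)} :=
    (hm.eq_of_le (Ideal.IsPrime.ne_top inferInstance) hle).symm
  have hfin : Finite (𝓞 M ⧸ w.asIdeal) := Ideal.finiteQuotientOfFreeOfNeBot w.asIdeal w.ne_bot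
  have hinv : Algebra.IsInvariant ℤ (𝓞 M) (M ≃ₐ[ℚ] M) := inferInstance
  obtain ⟨g, hg⟩ := IsArithFrobAt.exists_of_isInvariant ℤ (M ≃ₐ[ℚ] M) w.asIdeal
  have hcard : Nat.card (ℤ ⧸ w.asIdeal.under ℤ) = p := by
    rw [hu]
    have := Nat.card_congr (Int.quotientSpanEquivZMod (p : ℤ)).toEquiv
    rw [this, Int.natAbs_natCast, Nat.card_zmod]
  refine ⟨g, fun x => ?_⟩
  have h1 := hg x
  rw [hcard] at h1
  exact h1

/-- if the Frobenius automorphism is trivial then all integers are congruent to rational integers -/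
theorem res_int {p : ℕ} (hp : p.Prime) (w : HeightOneSpectrum (𝓞 M))
    (hw : (p : 𝓞 M) ∈ w.asIdeal) (h : ∀ x : 𝓞 M, x - x ^ p ∈ w.asIdeal) (y : 𝓞 M) :
    ∃ c : ℤ, y - (c : 𝓞 M) ∈ w.asIdeal := by
  have : Fact p.Prime := ⟨hp⟩
  have hmx : w.asIdeal.IsMaximal := w.isMaximal
  let _ : Field (𝓞 M ⧸ w.asIdeal) := Ideal.Quotient.field w.asIdeal
  have hp0 : ((p : ℕ) : 𝓞 M ⧸ w.asIdeal) = 0 := by
    have := Ideal.Quotient.eq_zero_iff_mem.2 hw
    rwa [map_natCast] at this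
  have hchar : CharP (𝓞 M ⧸ w.asIdeal) p := (CharP.charP_iff_prime_eq_zero hp).2 hp0
  let _ : Algebra (ZMod p) (𝓞 M ⧸ w.asIdeal) := ZMod.algebra (𝓞 M ⧸ w.asIdeal) p
  have h1 : (Ideal.Quotient.mk w.asIdeal y) ^ p = Ideal.Quotient.mk w.asIdeal y := by
    rw [← map_pow]
    exact (Ideal.Quotient.eq.2 (h y)).symm
  have h2 := (Subfield.mem_bot_iff_pow_eq_self (F := 𝓞 M ⧸ w.asIdeal) (p := p)).2 h1
  obtain ⟨d, hc⟩ := (mem_bot_iff_intCast p _).1 h2
  refine ⟨d, ?_⟩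
  apply Ideal.Quotient.eq.1
  rw [← hc, map_intCast]

end inert

section mq

variable {M : Type} [Field M] [NumberField M] {s : Set M}

theorem fix_all (hs : IntermediateField.adjoin ℚ s = ⊤) {g : M ≃ₐ[ℚ] M}
    (h : ∀ x ∈ s, g x = x) : g = 1 := by
  apply AlgEquiv.ext
  intro x
  have hx : x ∈ IntermediateField.adjoin ℚ s := by rw [hs]; trivial
  show g x = x
  induction hx using IntermediateField.adjoin_induction with
  | mem x hx => exact h x hx
  | algebraMap x => exact g.commutes x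
  | add x y _ _ hx hy => rw [map_add, hx, hy]
  | inv x _ hx => rw [map_inv₀, hx]
  | mul x y _ _ hx hy => rw [map_mul, hx, hy]

theorem sqrt_int {x : M} {p : ℕ} (hx : x ^ 2 = (p : M)) : IsIntegral ℤ x := by
  refine ⟨X ^ 2 - C (p : ℤ), monic_X_pow_sub_C _ two_ne_zero, ?_⟩
  rw [eval₂_sub, eval₂_X_pow, eval₂_C, hx, sub_eq_zero]
  exact (map_natCast (algebraMap ℤ M) p).symm

theorem splits_sqrt {L : Type} [Field L] [Algebra ℚ L] {x : M} {p : ℕ} (hx : x ^ 2 = (p : M))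
    {y : L} (hy : y ^ 2 = (p : L)) : ((minpoly ℚ x).map (algebraMap ℚ L)).Splits := by
  have h1 : minpoly ℚ x ∣ X ^ 2 - C (p : ℚ) := by
    apply minpoly.dvd
    rw [map_sub, map_pow, aeval_X, aeval_C, hx, map_natCast, sub_self]
  have h2 : (X ^ 2 - C (p : ℚ) : ℚ[X]).map (algebraMap ℚ L) = (X - C y) * (X + C y) := by
    rw [Polynomial.map_sub, Polynomial.map_pow, map_X, map_C, map_natCast, ← hy, C_pow]
    ring
  have h3 : ((X ^ 2 - C (p : ℚ) : ℚ[X]).map (algebraMap ℚ L)).Splits := by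
    rw [h2]
    exact (Splits.X_sub_C y).mul (Splits.X_add_C y)
  refine h3.of_dvd ?_ (Polynomial.map_dvd _ h1)
  exact Polynomial.map_ne_zero (monic_X_pow_sub_C _ two_ne_zero).ne_zero

theorem mq_galois (hs : IntermediateField.adjoin ℚ s = ⊤)
    (hsq : ∀ x ∈ s, ∃ p : ℕ, x ^ 2 = (p : M)) : IsGalois ℚ M := by
  have hn : Normal ℚ M := by
    rw [normal_iff]
    intro x
    refine ⟨Algebra.IsIntegral.isIntegral x, ?_⟩
    refine IntermediateField.splits_of_mem_adjoin (F := ℚ) (K := M) (L := M) (S := s)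
      (fun y hy => ?_) (x := x) ?_
    · obtain ⟨p, hp⟩ := hsq y hy
      exact ⟨Algebra.IsIntegral.isIntegral y, splits_sqrt hp hp⟩
    · rw [hs]; trivial
  exact ⟨⟩

theorem mq_hom (hs : IntermediateField.adjoin ℚ s = ⊤) {L : Type} [Field L] [Algebra ℚ L]
    (hsq : ∀ x ∈ s, ∃ p : ℕ, x ^ 2 = (p : M) ∧ ∃ y : L, y ^ 2 = (p : L)) :
    Nonempty (M →+* L) := by
  obtain ⟨φ⟩ := IntermediateField.nonempty_algHom_of_adjoin_splits (F := ℚ) (E := M) (K := L)
    (S := s) (fun y hy => by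
      obtain ⟨p, hp, z, hz⟩ := hsq y hy
      exact ⟨Algebra.IsIntegral.isIntegral y, splits_sqrt hp hz⟩) hs
  exact ⟨φ.toRingHom⟩

theorem mq_sign {g : M ≃ₐ[ℚ] M} {x : M} {p : ℕ} (hx : x ^ 2 = (p : M)) : g x = x ∨ g x = -x := by
  apply sq_eq_sq_iff_eq_or_eq_neg.1
  rw [← map_pow, hx, map_natCast]

theorem mq_sq (hs : IntermediateField.adjoin ℚ s = ⊤)
    (hsq : ∀ x ∈ s, ∃ p : ℕ, x ^ 2 = (p : M)) (g : M ≃ₐ[ℚ] M) : g ^ 2 = 1 := by
  apply fix_all hs
  intro x hx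
  obtain ⟨p, hp⟩ := hsq x hx
  rw [pow_two, AlgEquiv.mul_apply]
  rcases mq_sign (g := g) hp with h | h
  · rw [h, h]
  · rw [h, map_neg, h, neg_neg]

theorem mq_rank (hs : IntermediateField.adjoin ℚ s = ⊤)
    (hsq : ∀ x ∈ s, ∃ p : ℕ, x ^ 2 = (p : M)) : ∃ n : ℕ, Module.finrank ℚ M = 2 ^ n := by
  have hg := mq_galois hs hsq
  have h1 : IsPGroup 2 (M ≃ₐ[ℚ] M) := by
    intro g
    exact ⟨1, by rw [pow_one]; exact mq_sq hs hsq g⟩
  have : Fact (Nat.Prime 2) := ⟨Nat.prime_two⟩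
  obtain ⟨n, hn⟩ := IsPGroup.iff_card.1 h1
  exact ⟨n, by rw [← IsGalois.card_aut_eq_finrank, hn]⟩

/-- an automorphism which is the identity modulo `w` on the square roots is the identity -/
theorem mq_triv (hs : IntermediateField.adjoin ℚ s = ⊤) {l : ℕ} (hl : l.Prime) (hl2 : l ≠ 2)
    (w : HeightOneSpectrum (𝓞 M)) (hw : (l : 𝓞 M) ∈ w.asIdeal)
    (hsq : ∀ x ∈ s, ∃ p : ℕ, x ^ 2 = (p : M) ∧ ¬ l ∣ p) {g : M ≃ₐ[ℚ] M}
    (hg : ∀ x : 𝓞 M, (x : M) ∈ s → tg g x - x ∈ w.asIdeal) : g = 1 := by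
  apply fix_all hs
  intro x hx
  obtain ⟨p, hp, hlp⟩ := hsq x hx
  rcases mq_sign (g := g) hp with h | h
  · exact h
  exfalso
  obtain ⟨y, hy⟩ : ∃ y : 𝓞 M, (y : M) = x := ⟨⟨x, sqrt_int hp⟩, rfl⟩
  have h1 := hg y (by rw [hy]; exact hx)
  have h2 : tg g y = -y := by
    apply RingOfIntegers.ext
    rw [tg_coe, hy, h]
    show -x = -(y : M)
    rw [hy]
  rw [h2] at h1
  have h3 : ((4 * p : ℕ) : 𝓞 M) ∈ w.asIdeal := by
    have h4 : ((4 * p : ℕ) : 𝓞 M) = (-y - y) * (-y - y) := by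
      apply RingOfIntegers.ext
      have h5 : ((((-y - y) * (-y - y) : 𝓞 M)) : M) = (-(y : M) - y) * (-(y : M) - y) := rfl
      have h6 : (((4 * p : ℕ) : 𝓞 M) : M) = 4 * (p : M) := by
        show algebraMap (𝓞 M) M ((4 * p : ℕ) : 𝓞 M) = _
        rw [map_natCast]
        push_cast
        ring
      rw [h5, h6, hy, ← hp]
      ring
    rw [h4]
    exact Ideal.mul_mem_left _ _ h1
  have h4 : ¬ l ∣ 4 * p := by
    rw [hl.dvd_mul, not_or]
    refine ⟨fun h => ?_, hlp⟩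
    have h5 := hl.dvd_of_dvd_pow (show l ∣ 2 ^ 2 by exact h)
    exact hl2 ((Nat.prime_dvd_prime_iff_eq hl Nat.prime_two).1 h5)
  have h5 : IsCoprime (l : ℤ) ((4 * p : ℕ) : ℤ) := by
    rw [Nat.isCoprime_iff_coprime]
    exact (Nat.Prime.coprime_iff_not_dvd hl).2 h4
  obtain ⟨a, b, hab⟩ := h5
  apply w.isPrime.ne_top
  rw [Ideal.eq_top_iff_one]
  have h6 : ((a * l + b * ((4 * p : ℕ) : ℤ) : ℤ) : 𝓞 M) ∈ w.asIdeal := by
    rw [Int.cast_add, Int.cast_mul, Int.cast_mul, Int.cast_natCast, Int.cast_natCast]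
    exact add_mem (Ideal.mul_mem_left _ _ hw) (Ideal.mul_mem_left _ _ h3)
  rw [hab, Int.cast_one] at h6
  exact h6

theorem mq_unram (hs : IntermediateField.adjoin ℚ s = ⊤) {l : ℕ} (hl : l.Prime) (hl2 : l ≠ 2)
    (hsq : ∀ x ∈ s, ∃ p : ℕ, x ^ 2 = (p : M) ∧ ¬ l ∣ p) (w : HeightOneSpectrum (𝓞 M))
    (hw : (l : 𝓞 M) ∈ w.asIdeal) : (l : 𝓞 M) ∉ w.asIdeal ^ 2 := by
  have hg := mq_galois hs fun x hx => by
    obtain ⟨p, hp, -⟩ := hsq x hx
    exact ⟨p, hp⟩
  exact unram_of_inertia hl w hw fun g hg => mq_triv hs hl hl2 w hw hsq fun x _ => hg x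

theorem mq_split (hs : IntermediateField.adjoin ℚ s = ⊤) {q : ℕ} (hq : q.Prime) (hq2 : q ≠ 2)
    (hsq : ∀ x ∈ s, ∃ p : ℕ, x ^ 2 = (p : M) ∧ ¬ q ∣ p ∧ IsSquare (p : ZMod q))
    (w : HeightOneSpectrum (𝓞 M)) (hw : (q : 𝓞 M) ∈ w.asIdeal) (y : 𝓞 M) :
    ∃ c : ℤ, y - (c : 𝓞 M) ∈ w.asIdeal := by
  have hg := mq_galois hs fun x hx => by
    obtain ⟨p, hp, -⟩ := hsq x hx
    exact ⟨p, hp⟩
  have : Fact q.Prime := ⟨hq⟩
  obtain ⟨g, hF⟩ := frob_at hq w hw
  have h1 : g = 1 := by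
    refine mq_triv hs hq hq2 w hw (fun x hx => ?_) fun x hx => ?_
    · obtain ⟨p, hp, hqp, -⟩ := hsq x hx
      exact ⟨p, hp, hqp⟩
    · obtain ⟨p, hp, hqp, c, hc⟩ := hsq _ hx
      obtain ⟨d, rfl⟩ := ZMod.intCast_surjective c
      have h2 : (q : ℤ) ∣ (p : ℤ) - d * d := by
        rw [← ZMod.intCast_zmod_eq_zero_iff_dvd]
        push_cast
        rw [hc, sub_self]
      have hmem : ∀ t : ℤ, (q : ℤ) ∣ t → (t : 𝓞 M) ∈ w.asIdeal := by
        rintro t ⟨r, rfl⟩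
        rw [Int.cast_mul, Int.cast_natCast]
        exact Ideal.mul_mem_right _ _ hw
      have h3 : (x - (d : 𝓞 M)) * (x + (d : 𝓞 M)) ∈ w.asIdeal := by
        have h4 : (x - (d : 𝓞 M)) * (x + (d : 𝓞 M)) = (((p : ℤ) - d * d : ℤ) : 𝓞 M) := by
          apply RingOfIntegers.ext
          have h5 : (((x - (d : 𝓞 M)) * (x + (d : 𝓞 M)) : 𝓞 M) : M) =
              ((x : M) - algebraMap (𝓞 M) M (d : 𝓞 M)) * ((x : M) + algebraMap (𝓞 M) M (d : 𝓞 M)) :=
            rfl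
          have h6 : (((((p : ℤ) - d * d : ℤ)) : 𝓞 M) : M) =
              algebraMap (𝓞 M) M ((((p : ℤ) - d * d : ℤ)) : 𝓞 M) := rfl
          rw [h5, h6, map_intCast, map_intCast]
          push_cast
          rw [← hp]
          ring
        rw [h4]
        exact hmem _ h2
      have h7 : ∃ e : ℤ, x - (e : 𝓞 M) ∈ w.asIdeal := by
        rcases w.isPrime.mem_or_mem h3 with h | h
        · exact ⟨d, h⟩
        · exact ⟨-d, by rw [Int.cast_neg, sub_neg_eq_add]; exact h⟩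
      obtain ⟨e, he⟩ := h7
      have h8 : x ^ q - (e : 𝓞 M) ^ q ∈ w.asIdeal :=
        Ideal.mem_of_dvd _ (sub_dvd_pow_sub_pow x (e : 𝓞 M) q) he
      have h9 : (((e ^ q - e : ℤ)) : 𝓞 M) ∈ w.asIdeal := by
        apply hmem
        rw [← ZMod.intCast_zmod_eq_zero_iff_dvd]
        push_cast
        rw [ZMod.pow_card, sub_self]
      have h10 := hF x
      have h11 : tg g x - x = (tg g x - x ^ q) + (x ^ q - (e : 𝓞 M) ^ q) +
          (((e ^ q - e : ℤ)) : 𝓞 M) - (x - (e : 𝓞 M)) := by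
        push_cast
        ring
      rw [h11]
      exact Ideal.sub_mem _ (Ideal.add_mem _ (Ideal.add_mem _ h10 h8) h9) he
  refine res_int hq w hw (fun x => ?_) y
  have h2 := hF x
  rw [h1] at h2
  have h3 : tg (1 : M ≃ₐ[ℚ] M) x = x := by
    apply RingOfIntegers.ext
    rfl
  rwa [h3] at h2

end mq

end Pool.Agent.H905.OP
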