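import Pool.Graph.R_pool_sql_team_seeded_63374d34.N783.PF.Final
import Pool.Agent.H905.OP.FamC
import Pool.Agent.H905.OP.Ex

/-!
# One point: a positive proportion in a regular residue class, over a number field

Project OP (helper905). The theorem `main` of `N99/PF/Main.lean` (helper99, helper783 and others) with a
condition modulo four, with the same proof.
-/

set_option autoImplicit false
set_option linter.all false

open Polynomial NumberField IsDedekindDomain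
open scoped Classical

namespace Pool.Agent.H905.OP

open Pool.Agent.N783.PF
open Pool.Agent.N352.PJ (dd)
open Pool.Agent.N99.PF

variable {F : Type} [Field F] [NumberField F]

/-- The products of the primes of `S` are congruent to one. -/
theorem dp_one {g W : ℕ} {S J : Finset ℕ} {𝔮 : ℕ → Ideal (𝓞 F)} {h P : ℕ → (𝓞 F)[X]}
    (hS : GoodS g W S 𝔮 h P) (hJ : J ⊆ S) (k : ℕ) : (4 : 𝓞 F) ∣ ((Dp J : ℕ) : 𝓞 F) ^ k - 1 := by
  have h1 : Dp J ≡ 1 [MOD 4] := by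
    have h2 : ∀ T : Finset ℕ, T ⊆ S → ∏ q ∈ T, q ≡ 1 [MOD 4] := by
      intro T
      induction T using Finset.induction_on with
      | empty => intro _; rfl
      | insert a T ha ih =>
        intro hT
        rw [Finset.prod_insert ha]
        have h3 := ih ((Finset.subset_insert a T).trans hT)
        have h4 : a ≡ 1 [MOD 4] := by
          have h5 := (hS a (hT (Finset.mem_insert_self a T))).2.2.2.1
          show a % 4 = 1 % 4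
          omega
        exact h4.mul h3
    exact h2 J hJ
  obtain ⟨D, hD⟩ : ∃ D : ℕ, D = Dp J := ⟨_, rfl⟩
  rw [← hD] at h1 ⊢
  have h3 := (h1.pow k).symm.dvd
  rw [one_pow] at h3
  obtain ⟨m, hm⟩ := h3
  refine ⟨(m : 𝓞 F), ?_⟩
  have h4 := congrArg (Int.cast : ℤ → 𝓞 F) hm
  push_cast at h4
  exact h4

/-- **A positive proportion, with a residue class modulo four.** -/
theorem mainC (g : ℕ) (F : Type) [Field F] [NumberField F] (hg : 1 ≤ g) :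
    ∃ (f₁ : (𝓞 F)[X]) (v : HeightOneSpectrum (𝓞 F)) (ϖ : 𝓞 F), ϖ ∈ v.asIdeal ∧
    ϖ ∉ v.asIdeal ^ 2 ∧ (2 : 𝓞 F) ∈ v.asIdeal ∧ RegV v.asIdeal ϖ f₁ ∧
    ∃ c : ℝ, 0 < c ∧ ∃ B₀ : ℕ, ∀ B ≥ B₀,
    {f : (𝓞 F)[X] | Ht g B f}.Finite ∧ c * ({f : (𝓞 F)[X] | Ht g B f}.ncard : ℝ) ≤
      ({f : (𝓞 F)[X] | Ht g B f ∧ Irreducible (fF f) ∧ SelZero f ∧ Min g f ∧
        ∀ j, (4 : 𝓞 F) ∣ f.coeff j - f₁.coeff j}.ncard : ℝ) := by
  obtain ⟨κ, htw⟩ := Pool.Agent.N783.PF.tw g F hg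
  obtain ⟨C, K, hbad⟩ := Pool.Agent.N783.PF.bad F g κ hg
  obtain ⟨M, hM⟩ := fam_core F g hg
  obtain ⟨p₀, hp₀K, hp₀⟩ := Nat.exists_infinite_primes (max K κ)
  obtain ⟨W, f₁, v, ϖ, hmon, hdeg, htr, hW0, hfour, hirr, hsep, hW, hv1, hv2, hv3, hv4⟩ :=
    gf_reg F g (max p₀ M) hg
  have hKW : max K κ ≤ W := hp₀K.trans (Nat.le_of_dvd hW0 (hW p₀ hp₀ (le_max_left _ _)))
  obtain ⟨hf₁, c, hc, hfam⟩ := hM W f₁ hmon hdeg htr hW0 (dvd_trans (by norm_num) hfour) hirr hsep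
    fun p hp hpM => hW p hp (hpM.trans (le_max_right _ _))
  have h3 : S_EXS := Pool.Agent.N710.PF.exs
  obtain ⟨-, Cp, hCp, -, hpt⟩ := Pool.Agent.N490.PF.pts F
  refine ⟨f₁, v, ϖ, hv1, hv2, hv3, hv4, ?_⟩
  set D : ℕ := Module.finrank ℚ F * dd g with hD
  obtain ⟨m, hm⟩ : ∃ m : ℕ, 2 * (C * (4 * 2 ^ κ : ℝ) ^ D) / c < 2 ^ m :=
    pow_unbounded_of_one_lt _ (by norm_num)
  obtain ⟨S, 𝔮, h, P, hS, hcard⟩ := h3 F g W hg m
  obtain ⟨B₁₀, hB₁₀⟩ := hfam S 𝔮 h P hS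
  obtain ⟨N₀, hN₀⟩ := hbad W S 𝔮 h P ((le_max_left _ _).trans hKW) hS
  set Q : ℕ := ∏ q ∈ S, q with hQ
  have hq1 : ∀ q ∈ S, 1 ≤ q := fun q hq => (hS q hq).1.pos
  have hQ1 : 1 ≤ Q := Finset.one_le_prod' hq1
  set Pn : ℕ := (∏ q ∈ S, q ^ (2 * g)) ^ Module.finrank ℚ F with hPn
  have hP0 : (0 : ℝ) < Pn := by
    have : 0 < Pn := pow_pos (Finset.prod_pos fun q hq => pow_pos (hq1 q hq) _) _
    exact_mod_cast this
  have hQ0 : (0 : ℝ) < Q := by exact_mod_cast hQ1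
  set X₀ : ℕ := max (max B₁₀ (4 ^ N₀)) 1 with hX₀
  refine ⟨c / 2 / (Pn * 2 ^ m * ((2 * Cp) ^ (2 * g) * (2 * Q) ^ D)), by positivity, X₀ * Q,
    fun B hB => ?_⟩
  set B₁ : ℕ := B / Q with hB₁
  have hBX : X₀ ≤ B₁ := (Nat.le_div_iff_mul_le hQ1).2 hB
  have hb1 : 1 ≤ B₁ := (le_max_right _ _).trans hBX
  have hb2 : B₁₀ ≤ B₁ := ((le_max_left _ _).trans (le_max_left _ _)).trans hBX
  have hb3 : 4 ^ N₀ ≤ B₁ := ((le_max_right _ _).trans (le_max_left _ _)).trans hBX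
  have hBQ : B₁ * Q ≤ B := Nat.div_mul_le_self B Q
  have hBQ2 : B ≤ 2 * Q * B₁ := by
    have e1 : B < B₁ * Q + Q := by
      have := Nat.lt_div_mul_add (a := B) (b := Q) hQ1
      exact this
    nlinarith
  have hB1 : 1 ≤ B := le_trans (by nlinarith) hBQ
  obtain ⟨N, hNa, hNb⟩ : ∃ N : ℕ, 2 ^ κ * B₁ ≤ 4 ^ N ∧ 4 ^ N ≤ 4 * (2 ^ κ * B₁) := by
    refine ⟨Nat.log 4 (2 ^ κ * B₁) + 1, (Nat.lt_pow_succ_log_self (by norm_num) _).le, ?_⟩
    rw [pow_succ, mul_comm]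
    refine Nat.mul_le_mul_left 4 (Nat.pow_log_le_self 4 ?_)
    positivity
  have hNN : N₀ ≤ N := by
    have e1 : 4 ^ N₀ ≤ 4 ^ N := hb3.trans (le_trans (Nat.le_mul_of_pos_left _ (by positivity)) hNa)
    exact (Nat.pow_le_pow_iff_right (by norm_num)).1 e1
  obtain ⟨hfin, hBd⟩ := hN₀ N hNN
  refine ⟨(ht_card hCp hpt g B hB1).1, ?_⟩
  set H := {f : (𝓞 F)[X] | Ht g B f ∧ Irreducible (fF f) ∧ SelZero f ∧ Min g f ∧
    ∀ j, (4 : 𝓞 F) ∣ f.coeff j - f₁.coeff j} with hH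
  set G := {f : (𝓞 F)[X] | Fam g B₁ W f₁ S P f} \ {f : (𝓞 F)[X] | LBad g N κ S 𝔮 P f} with hGdef
  have hHf : H.Finite := (ht_card hCp hpt g B hB1).1.subset fun f hf => hf.1
  have hGf : G.Finite := (ht_card hCp hpt g B₁ hb1).1.subset fun f hf => hf.1.ht
  have hG : c / 2 * (B₁ : ℝ) ^ D ≤ Pn * (G.ncard : ℝ) := by
    refine good_card (C := C) (m := m) (κ := κ) hc hP0 B₁ N (hB₁₀ B₁ hb2) hfin ?_ hm ?_
    · rw [hcard] at hBd
      have e2 : Module.finrank ℚ F * (2 * N * dd g) = 2 * N * D := by rw [hD]; ring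
      rw [e2] at hBd
      exact_mod_cast hBd
    · exact_mod_cast hNb
  have hJ0 : ∀ J ⊆ S, ((Dp J : ℕ) : 𝓞 F) ≠ 0 := by
    intro J hJ
    have : 0 < ∏ q ∈ J, q := Finset.prod_pos fun q hq => hq1 q (hJ hq)
    have h5 : (Dp J : ℕ) ≠ 0 := this.ne'
    exact_mod_cast h5
  have hcard1 := card_fib hGf hHf S (fun J f => f.scaleRoots ((Dp J : ℕ) : 𝓞 F)) (by
      intro f hf
      obtain ⟨J, hJ, hirr, hsel⟩ := htw B₁ N W f₁ S 𝔮 h P f ((le_max_right _ _).trans hKW) hf₁ hS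
        hf.1 hNa hb1 hf.2
      have hDle : Dp J ≤ Q :=
        Finset.prod_le_prod_of_subset_of_one_le' hJ fun q hq _ => hq1 q hq
      refine ⟨J, hJ, ht_scale hf.1.ht ((Nat.mul_le_mul_left _ hDle).trans hBQ), hirr, hsel.1,
        hsel.2, fun j => ?_⟩
      have e5 : (4 : 𝓞 F) ∣ f.coeff j - f₁.coeff j := by
        have e6 := hf.1.one j
        rw [Ideal.mem_span_singleton] at e6
        refine dvd_trans ?_ e6
        have e7 : ((4 : ℕ) : 𝓞 F) ∣ (W : 𝓞 F) := Nat.cast_dvd_cast hfour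
        exact_mod_cast e7
      rw [coeff_scaleRoots]
      have e8 : f.coeff j * ((Dp J : ℕ) : 𝓞 F) ^ (f.natDegree - j) - f₁.coeff j =
          f.coeff j * (((Dp J : ℕ) : 𝓞 F) ^ (f.natDegree - j) - 1) +
            (f.coeff j - f₁.coeff j) := by ring
      rw [e8]
      exact dvd_add (Dvd.dvd.mul_left (dp_one hS hJ _) _) e5) (by
      intro J hJ x hx y hy hxy
      exact scale_inj (hJ0 J hJ) (by rw [hx.1.ht.deg, hy.1.ht.deg]) hxy)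
  rw [hcard] at hcard1
  have hcard' : (G.ncard : ℝ) ≤ 2 ^ m * H.ncard := by exact_mod_cast hcard1
  have hM' : ({f : (𝓞 F)[X] | Ht g B f}.ncard : ℝ) ≤
      (2 * Cp) ^ (2 * g) * (2 * Q) ^ D * (B₁ : ℝ) ^ D := by
    have e1 : ({f : (𝓞 F)[X] | Ht g B f}.ncard : ℝ) ≤ (2 * Cp) ^ (2 * g) * (B : ℝ) ^ D :=
      (ht_card hCp hpt g B hB1).2
    refine e1.trans ?_
    rw [mul_assoc, ← mul_pow]
    have e2 : (B : ℝ) ≤ 2 * Q * B₁ := by exact_mod_cast hBQ2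
    gcongr
  calc c / 2 / (Pn * 2 ^ m * ((2 * Cp) ^ (2 * g) * (2 * Q) ^ D)) *
        ({f : (𝓞 F)[X] | Ht g B f}.ncard : ℝ)
      ≤ c / 2 / (Pn * 2 ^ m * ((2 * Cp) ^ (2 * g) * (2 * Q) ^ D)) *
        ((2 * Cp) ^ (2 * g) * (2 * Q) ^ D * (B₁ : ℝ) ^ D) :=
        mul_le_mul_of_nonneg_left hM' (by positivity)
    _ = c / 2 * (B₁ : ℝ) ^ D / (Pn * 2 ^ m) := by
        field_simp
    _ ≤ (Pn * (G.ncard : ℝ)) / (Pn * 2 ^ m) := by gcongr
    _ ≤ (Pn * (2 ^ m * H.ncard)) / (Pn * 2 ^ m) := by gcongr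
    _ = H.ncard := by field_simp

end Pool.Agent.H905.OP
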