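import Pool.Agent.H905.OP.ExZ

/-!
# One point: a positive proportion in a regular residue class, over many number fields at once

Project OP (helper905). The theorem `mainW` of `N874/TQ/Cnt.lean` (helper874 and others) with a condition modulo
four, with the same proof.
-/

set_option autoImplicit false
set_option linter.all false

open Polynomial IsDedekindDomain NumberField
open Pool.Agent.N783.PQ
open Pool.Agent.N352.PJ (dd)
open Pool.Agent.N400.PQ (card_fib sum_dd ht_card ht_scale scale_inj good_card)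
open Pool.Agent.N874.QM (Parts S_FAMI)
open Pool.Agent.N874.TQ
open Pool.Agent.N891.PQ (rd_congr)
open scoped Classical IntermediateField

namespace Pool.Agent.H905.OP

/-- The products of the primes of `S` are congruent to one. -/
theorem dpz_one {g W : ℕ} {S J : Finset ℕ} {h : ℕ → ℤ[X]}
    (hS : GoodS g W S h) (hJ : J ⊆ S) (k : ℕ) : (4 : ℤ) ∣ ((∏ q ∈ J, q : ℕ) : ℤ) ^ k - 1 := by
  have h1 : (∏ q ∈ J, q : ℕ) ≡ 1 [MOD 4] := by
    have h2 : ∀ T : Finset ℕ, T ⊆ S → (∏ q ∈ T, q : ℕ) ≡ 1 [MOD 4] := by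
      intro T
      induction T using Finset.induction_on with
      | empty => intro _; rfl
      | insert a T ha ih =>
        intro hT
        rw [Finset.prod_insert ha]
        have h3 := ih ((Finset.subset_insert a T).trans hT)
        have h4 : a ≡ 1 [MOD 4] := by
          have h5 := (hS a (hT (Finset.mem_insert_self a T))).2.2.2.1
          show a % 4 = 1 % 4
          omega
        exact h4.mul h3
    exact h2 J hJ
  obtain ⟨D, hD⟩ : ∃ D : ℕ, D = ∏ q ∈ J, q := ⟨_, rfl⟩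
  rw [← hD] at h1 ⊢
  have h3 := (h1.pow k).symm.dvd
  rw [one_pow] at h3
  exact_mod_cast h3

/-- **A positive proportion, with a residue class modulo four.** -/
theorem mainZ {g : ℕ} (hg : 1 ≤ g) (T : Finset ℕ) (hT : ∀ p ∈ T, p.Prime) :
    ∃ (f₁ : ℤ[X]) (ϖ : ℤ), (2 : ℤ) ∣ ϖ ∧ ¬ (4 : ℤ) ∣ ϖ ∧ RegV (Ideal.span {(2 : ℤ)}) ϖ f₁ ∧
    ∃ S : Finset ℕ, (∀ q ∈ S, q.Prime) ∧ Disjoint S T ∧ ∃ c : ℝ, 0 < c ∧ ∃ B₀ : ℕ, ∀ B ≥ B₀,
    {f : ℤ[X] | Ht g B f}.Finite ∧ c * ({f : ℤ[X] | Ht g B f}.ncard : ℝ) ≤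
      ({f : ℤ[X] | Ht g B f ∧ Irreducible (ov ℚ f) ∧ (∀ p ∈ T, Irreducible (rd p f)) ∧
        Tws g S f ∧ Uni S f f ∧ ∀ j, (4 : ℤ) ∣ f.coeff j - f₁.coeff j}.ncard : ℝ) := by
  have H : Parts := Pool.Agent.N874.QM.parts
  have hBAD : S_BAD := Pool.Agent.N783.PQ.bad
  have hEXS : S_EXS := Pool.Agent.N262.PQ.exs
  obtain ⟨M, hM⟩ := Pool.Agent.N922.PY.fam_core Pool.Agent.N134.PQ.bx
    (Pool.Agent.N595.PQ.sml Pool.Agent.N134.PQ.ld Pool.Agent.N134.PQ.bx)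
    Pool.Agent.N755.PQ.WK.wk Pool.Agent.N891.PQ.str Pool.Agent.N262.PQ.dscp g hg
  obtain ⟨W, f₁, ϖ, hf₁, hfour, hWp, hWi, hϖ1, hϖ2, hreg⟩ := gfi_reg g (max M (∑ p ∈ T, p)) hg
  have hWδ : ∀ p : ℕ, p.Prime → p ≤ ∑ p ∈ T, p → p ∣ W := fun p hp h =>
    hWp p hp (h.trans (le_max_right _ _))
  obtain ⟨c, hc, hfam⟩ := hM W f₁ hf₁ fun p hp h => hWp p hp (h.trans (le_max_left _ _))
  refine ⟨f₁, ϖ, hϖ1, hϖ2, hreg, ?_⟩
  have hTW : ∀ p ∈ T, p ∣ W := fun p hp =>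
    hWδ p (hT p hp) (Finset.single_le_sum (f := fun p => p) (fun _ _ => Nat.zero_le _) hp)
  obtain ⟨κ, htw⟩ := selM H hg
  obtain ⟨C, hbad⟩ := hBAD g κ hg
  obtain ⟨m, hm⟩ : ∃ m : ℕ, 2 * (C * (4 * 2 ^ κ : ℝ) ^ dd g) / c < 2 ^ m :=
    pow_unbounded_of_one_lt _ (by norm_num)
  obtain ⟨S, h, hS, hcard⟩ := hEXS g W hg m
  have hST : ∀ q ∈ S, ∀ p ∈ T, q ≠ p := by
    rintro q hq p hp rfl
    have h1 := Nat.le_of_dvd hf₁.pos (hTW q hp)
    exact absurd (hS q hq).2.1 (not_lt.2 h1)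
  refine ⟨S, fun q hq => (hS q hq).1, Finset.disjoint_left.2 fun q hq hq' => hST q hq q hq' rfl, ?_⟩
  obtain ⟨B₁₀, hB₁₀⟩ := hfam S h hS
  obtain ⟨N₀, hN₀⟩ := hbad W S h hS
  set Q : ℕ := ∏ q ∈ S, q with hQ
  have hq1 : ∀ q ∈ S, 1 ≤ q := fun q hq => (hS q hq).1.pos
  have hQ1 : 1 ≤ Q := Finset.one_le_prod' hq1
  set P : ℕ := ∏ q ∈ S, q ^ (2 * g) with hP
  have hP0 : (0 : ℝ) < P := by
    have : 0 < P := Finset.prod_pos fun q hq => pow_pos (hq1 q hq) _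
    exact_mod_cast this
  have hQ0 : (0 : ℝ) < Q := by exact_mod_cast hQ1
  set X₀ : ℕ := max (max B₁₀ (4 ^ N₀)) 1 with hX₀
  refine ⟨c / 2 / (P * 2 ^ m * (3 ^ (2 * g) * (2 * Q) ^ dd g)), by positivity, X₀ * Q,
    fun B hB => ?_⟩
  set B₁ : ℕ := B / Q with hB₁
  have hBX : X₀ ≤ B₁ := (Nat.le_div_iff_mul_le hQ1).2 hB
  have hb1 : 1 ≤ B₁ := (le_max_right _ _).trans hBX
  have hb2 : B₁₀ ≤ B₁ := ((le_max_left _ _).trans (le_max_left _ _)).trans hBX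
  have hb3 : 4 ^ N₀ ≤ B₁ := ((le_max_right _ _).trans (le_max_left _ _)).trans hBX
  have hBQ : B₁ * Q ≤ B := Nat.div_mul_le_self B Q
  have hBQ2 : B ≤ 2 * Q * B₁ := by
    have e1 : B < B₁ * Q + Q := by
      have := Nat.lt_div_mul_add (a := B) (b := Q) hQ1
      exact this
    nlinarith
  have hB1 : 1 ≤ B := le_trans (by nlinarith) hBQ
  obtain ⟨N, hNa, hNb⟩ : ∃ N : ℕ, 2 ^ κ * B₁ ≤ 4 ^ N ∧ 4 ^ N ≤ 4 * (2 ^ κ * B₁) := by
    refine ⟨Nat.log 4 (2 ^ κ * B₁) + 1, (Nat.lt_pow_succ_log_self (by norm_num) _).le, ?_⟩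
    rw [pow_succ, mul_comm]
    refine Nat.mul_le_mul_left 4 (Nat.pow_log_le_self 4 ?_)
    positivity
  have hNN : N₀ ≤ N := by
    have e1 : 4 ^ N₀ ≤ 4 ^ N := hb3.trans (le_trans (Nat.le_mul_of_pos_left _ (by positivity)) hNa)
    exact (Nat.pow_le_pow_iff_right (by norm_num)).1 e1
  obtain ⟨hfin, hBd⟩ := hN₀ N hNN
  refine ⟨(ht_card g B hB1).1, ?_⟩
  set Hs := {f : ℤ[X] | Ht g B f ∧ Irreducible (ov ℚ f) ∧ (∀ p ∈ T, Irreducible (rd p f)) ∧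
        Tws g S f ∧ Uni S f f ∧ ∀ j, (4 : ℤ) ∣ f.coeff j - f₁.coeff j} with hH
  set G := {f : ℤ[X] | Fam g B₁ W f₁ S h f ∧ ¬ LBad g N κ S h f} with hGdef
  have hHf : Hs.Finite := (ht_card g B hB1).1.subset fun f hf => hf.1
  have hGf : G.Finite := (ht_card g B₁ hb1).1.subset fun f hf => hf.1.ht
  have hGc : c / 2 * (B₁ : ℝ) ^ dd g ≤ P * (G.ncard : ℝ) := by
    refine good_card (C := C) (m := m) hc hP0 B₁ N (hB₁₀ B₁ hb2) hfin ?_ hm ?_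
    · rw [hcard] at hBd
      exact_mod_cast hBd
    · exact_mod_cast hNb
  have hJ0 : ∀ J ⊆ S, ((∏ q ∈ J, q : ℕ) : ℤ) ≠ 0 := by
    intro J hJ
    have : 0 < ∏ q ∈ J, q := Finset.prod_pos fun q hq => hq1 q (hJ hq)
    exact_mod_cast this.ne'
  have hcard1 := card_fib hGf hHf S (fun J f => f.scaleRoots ((∏ q ∈ J, q : ℕ) : ℤ)) (by
      intro f hf
      obtain ⟨hsqf, J, hJ, hirr, hsel⟩ := htw B₁ N W f₁ S h f hf₁ hS hf.1 hNa hb1 hf.2
      have hDle : ∏ q ∈ J, q ≤ Q :=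
        Finset.prod_le_prod_of_subset_of_one_le' hJ fun q hq _ => hq1 q hq
      refine ⟨J, hJ, ht_scale hf.1.ht ((Nat.mul_le_mul_left _ hDle).trans hBQ), hirr,
        fun p hp => irr_mod' hf.1.ht.mon (hT p hp) (fun hpD => ?_) ?_,
        ⟨J, hJ, f, hsqf, rfl⟩, uni_self hf.1.ht.mon hsel, fun j => ?_⟩
      · have h1 : p ∣ ∏ q ∈ J, q := Int.natCast_dvd_natCast.1 hpD
        obtain ⟨q, hq, hpq⟩ := ((hT p hp).prime.dvd_finset_prod_iff _).1 h1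
        have : p = q := (Nat.prime_dvd_prime_iff_eq (hT p hp) (hS q (hJ hq)).1).1 hpq
        exact hST q (hJ hq) p hp this.symm
      · rw [rd_congr hf.1.one (hTW p hp)]
        exact hWi p (hT p hp) (hTW p hp)
      · have e5 : (4 : ℤ) ∣ f.coeff j - f₁.coeff j :=
          dvd_trans (by exact_mod_cast hfour) (hf.1.one j)
        rw [coeff_scaleRoots]
        have e8 : f.coeff j * ((∏ q ∈ J, q : ℕ) : ℤ) ^ (f.natDegree - j) - f₁.coeff j =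
            f.coeff j * (((∏ q ∈ J, q : ℕ) : ℤ) ^ (f.natDegree - j) - 1) +
              (f.coeff j - f₁.coeff j) := by ring
        rw [e8]
        exact dvd_add (Dvd.dvd.mul_left (dpz_one hS hJ _) _) e5) (by
      intro J hJ x hx y hy hxy
      exact scale_inj (hJ0 J hJ) (by rw [hx.1.ht.deg, hy.1.ht.deg]) hxy)
  rw [hcard] at hcard1
  have hcard' : (G.ncard : ℝ) ≤ 2 ^ m * Hs.ncard := by exact_mod_cast hcard1
  have hM' : ({f : ℤ[X] | Ht g B f}.ncard : ℝ) ≤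
      3 ^ (2 * g) * (2 * Q) ^ dd g * (B₁ : ℝ) ^ dd g := by
    have e1 : ({f : ℤ[X] | Ht g B f}.ncard : ℝ) ≤ 3 ^ (2 * g) * (B : ℝ) ^ dd g := by
      exact_mod_cast (ht_card g B hB1).2
    refine e1.trans ?_
    rw [mul_assoc, ← mul_pow]
    have e2 : (B : ℝ) ≤ 2 * Q * B₁ := by exact_mod_cast hBQ2
    gcongr
  calc c / 2 / (P * 2 ^ m * (3 ^ (2 * g) * (2 * Q) ^ dd g)) *
        ({f : ℤ[X] | Ht g B f}.ncard : ℝ)
      ≤ c / 2 / (P * 2 ^ m * (3 ^ (2 * g) * (2 * Q) ^ dd g)) *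
        (3 ^ (2 * g) * (2 * Q) ^ dd g * (B₁ : ℝ) ^ dd g) :=
        mul_le_mul_of_nonneg_left hM' (by positivity)
    _ = c / 2 * (B₁ : ℝ) ^ dd g / (P * 2 ^ m) := by
        field_simp
    _ ≤ (P * (G.ncard : ℝ)) / (P * 2 ^ m) := by gcongr
    _ ≤ (P * (2 ^ m * Hs.ncard)) / (P * 2 ^ m) := by gcongr
    _ = Hs.ncard := by field_simp

end Pool.Agent.H905.OP
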