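import Pool.Agent.H905.OP.Chart

/-!
# One point: points near infinity

Project OP (helper905). If `f` is regular, a point of `y ^ 2 = f(x)` with non-integral coordinates minus
the point at infinity is not divisible by a high power of two.
-/

set_option autoImplicit false

open Polynomial

namespace Pool.Agent.H905.OP

open Pool.Agent.Y723.HJ (CR OddM HF CC mi bar cl)

section red

variable {O : Type*} [CommRing O] [IsDomain O] [IsDiscreteValuationRing O] {f : O[X]}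

/-- The reduction of the expansions. -/
noncomputable def rL (f : O[X]) : LL f →+* QA (hm (IsLocalRing.residue O) (qL f)) :=
  qm (hm (IsLocalRing.residue O)) rfl

/-- The uniformizer. -/
noncomputable abbrev pL (f : O[X]) (ϖ : O) : LL f := cL f (HahnSeries.C ϖ)

theorem coeff_C_mul' (r : O) (x : LS O) (n : ℤ) :
    (HahnSeries.C r * x).coeff n = r * x.coeff n := by
  rw [HahnSeries.C_apply, HahnSeries.coeff_single_mul, sub_zero]

theorem hm_ker {ϖ : O} (hϖ : Irreducible ϖ) (x : LS O) :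
    hm (IsLocalRing.residue O) x = 0 ↔ HahnSeries.C ϖ ∣ x := by
  classical
  constructor
  · intro h
    have h1 : ∀ n, ϖ ∣ x.coeff n := by
      intro n
      rw [← res_eq hϖ, ← hm_coeff, h, HahnSeries.coeff_zero]
    obtain ⟨l, hl⟩ : ∃ l : ZeroHom O O, ∀ c, ϖ ∣ c → ϖ * l c = c := by
      refine ⟨⟨fun c => if hc : ϖ ∣ c ∧ c ≠ 0 then hc.1.choose else 0, ?_⟩, fun c hc => ?_⟩
      · rw [dif_neg]
        rintro ⟨-, h⟩
        exact h rfl
      · show ϖ * (if hc : ϖ ∣ c ∧ c ≠ 0 then hc.1.choose else 0) = c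
        by_cases h0 : c = 0
        · rw [dif_neg (fun h => h.2 h0), mul_zero, h0]
        · rw [dif_pos ⟨hc, h0⟩]
          exact hc.choose_spec.symm
    refine ⟨x.map l, ?_⟩
    ext n
    rw [coeff_C_mul', HahnSeries.map_coeff, hl _ (h1 n)]
  · rintro ⟨y, rfl⟩
    rw [map_mul, hm_C, (res_eq hϖ ϖ).2 dvd_rfl, map_zero, zero_mul]

theorem rL_eq {ϖ : O} (hϖ : Irreducible ϖ) (z : LL f) : rL f z = 0 ↔ pL f ϖ ∣ z :=
  (dvd_iff (ρ := hm (IsLocalRing.residue O)) rfl (hm_ker hϖ) z).symm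

theorem ord1_qL (hm' : f.Monic) : Ord1 (qL f) := by
  rw [qL, qi]
  apply ord1_iP
  rw [coeff_zero_reverse]
  exact hm'

theorem ord1_qL' (hm' : f.Monic) : Ord1 (hm (IsLocalRing.residue O) (qL f)) := by
  rw [qL, qi, hm_iP, Polynomial.map_mul, map_X]
  apply ord1_iP
  rw [coeff_map, coeff_zero_reverse, hm', map_one]

theorem isDomain_LL (hm' : f.Monic) : IsDomain (LL f) := isDomain_of (nsq_q (ord1_qL hm'))

theorem isDomain_LL' (hm' : f.Monic) : IsDomain (QA (hm (IsLocalRing.residue O) (qL f))) :=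
  isDomain_of (nsq_q (ord1_qL' hm'))

theorem C_ne {ϖ : O} (h : ϖ ≠ 0) : (HahnSeries.C ϖ : LS O) ≠ 0 := by
  intro h0
  have := congrArg (fun x : LS O => x.coeff 0) h0
  simp only [HahnSeries.coeff_zero] at this
  rw [HahnSeries.C_apply, HahnSeries.coeff_single_same] at this
  exact h this

theorem pL_ne {ϖ : O} (h : ϖ ≠ 0) : pL f ϖ ≠ 0 := fun h0 => C_ne h (congrArg QuadraticAlgebra.re h0)

theorem prime_pL {ϖ : O} (hϖ : Irreducible ϖ) (hm' : f.Monic) : Prime (pL f ϖ) := by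
  have := isDomain_LL' hm'
  refine ⟨pL_ne hϖ.ne_zero, ?_, fun a b hab => ?_⟩
  · intro hu
    have h1 : rL f (pL f ϖ) = 0 := (rL_eq hϖ _).2 dvd_rfl
    have h2 := hu.map (rL f)
    rw [h1] at h2
    exact not_isUnit_zero h2
  · rw [← rL_eq hϖ, map_mul] at hab
    rcases mul_eq_zero.1 hab with h | h
    · exact Or.inl ((rL_eq hϖ _).1 h)
    · exact Or.inr ((rL_eq hϖ _).1 h)

theorem pL_mul (a b : O) : pL f (a * b) = pL f a * pL f b := by
  rw [pL, map_mul, cL_mul]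

theorem pL_pow (a : O) (n : ℕ) : pL f (a ^ n) = pL f a ^ n := by
  rw [pL, map_pow]
  exact map_pow _ _ _

/-- Comparison of the powers of the uniformizer. -/
theorem cmp {ϖ : O} (hϖ : Irreducible ϖ) (hm' : f.Monic) {A B : LL f} {i j : ℕ}
    (hA : rL f A ≠ 0) (hB : rL f B ≠ 0) (h : pL f ϖ ^ i * A = pL f ϖ ^ j * B) : A = B := by
  have := isDomain_LL hm'
  have h0 := pL_ne (f := f) hϖ.ne_zero
  have hr : rL f (pL f ϖ) = 0 := (rL_eq hϖ _).2 dvd_rfl
  rcases lt_trichotomy i j with hlt | heq | hgt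
  · exfalso
    obtain ⟨m, rfl⟩ : ∃ m, j = i + (m + 1) := ⟨j - i - 1, by omega⟩
    rw [pow_add, mul_assoc] at h
    have h6 := mul_left_cancel₀ (pow_ne_zero i h0) h
    apply hA
    rw [h6, pow_succ, map_mul, map_mul, hr, mul_zero, zero_mul]
  · subst heq
    exact mul_left_cancel₀ (pow_ne_zero i h0) h
  · exfalso
    obtain ⟨m, rfl⟩ : ∃ m, i = j + (m + 1) := ⟨i - j - 1, by omega⟩
    rw [pow_add, mul_assoc] at h
    have h6 := mul_left_cancel₀ (pow_ne_zero j h0) h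
    apply hB
    rw [← h6, pow_succ, map_mul, map_mul, hr, mul_zero, zero_mul]

/-- Powers of congruent elements. -/
theorem pow_cong {A : Type*} [CommRing A] {p a b : A} (h2 : p ∣ 2) (h : p ∣ a - b) (r : ℕ) :
    p ^ (r + 1) ∣ a ^ 2 ^ r - b ^ 2 ^ r := by
  induction r with
  | zero => simpa using h
  | succ r ih =>
    have e : a ^ 2 ^ (r + 1) - b ^ 2 ^ (r + 1) =
        (a ^ 2 ^ r - b ^ 2 ^ r) * ((a ^ 2 ^ r - b ^ 2 ^ r) + 2 * b ^ 2 ^ r) := by
      rw [pow_succ 2 r, pow_mul, pow_mul]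
      ring
    rw [e, pow_succ]
    refine mul_dvd_mul ih (dvd_add ?_ (h2.mul_right _))
    exact (dvd_pow_self p (Nat.succ_ne_zero r)).trans ih

/-- The coefficient of `1 / t` in `α / q`. -/
theorem exists_qinv (hm' : f.Monic) : ∃ qv : LS O, qL f * qv = 1 ∧
    ∀ α : LS O, (∀ n < 0, α.coeff n = 0) → (α * qv).coeff (-1) = α.coeff 0 := by
  set P : PowerSeries O := (f.reverse : PowerSeries O) with hP
  have hc : PowerSeries.constantCoeff P = ((1 : Oˣ) : O) := by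
    rw [hP, Polynomial.constantCoeff_coe, coeff_zero_reverse]
    exact hm'
  have hPS := PowerSeries.mul_invOfUnit P 1 hc
  set S := PowerSeries.invOfUnit P 1 with hS
  have hS0 : PowerSeries.constantCoeff S = 1 := by
    have := congrArg PowerSeries.constantCoeff hPS
    rw [map_mul, hc, map_one, Units.val_one, one_mul] at this
    exact this
  refine ⟨ti O * HahnSeries.ofPowerSeries ℤ O S, ?_, ?_⟩
  · have h1 : qL f = tt O * HahnSeries.ofPowerSeries ℤ O P := by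
      rw [qL, qi, map_mul, iP_X, iP_eq]
    have h2 : HahnSeries.ofPowerSeries ℤ O P * HahnSeries.ofPowerSeries ℤ O S = 1 := by
      rw [← map_mul, hPS, map_one]
    rw [h1]
    linear_combination (tt O * ti O) * h2 + tt_ti (R := O)
  · intro α hα
    set A : PowerSeries O := PowerSeries.mk fun n => α.coeff (n : ℤ) with hA
    have hαA : α = HahnSeries.ofPowerSeries ℤ O A := by
      ext n
      rcases lt_or_ge n 0 with hn | hn
      · rw [hα n hn]
        have := PowerSeries.coeff_coe A n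
        rw [if_pos hn] at this
        exact this.symm
      · obtain ⟨m, rfl⟩ := Int.eq_ofNat_of_zero_le hn
        have := HahnSeries.ofPowerSeries_apply_coeff (Γ := ℤ) A m
        rw [hA, PowerSeries.coeff_mk] at this
        exact this.symm
    have h1 : α * (ti O * HahnSeries.ofPowerSeries ℤ O S) =
        ti O ^ 1 * HahnSeries.ofPowerSeries ℤ O (A * S) := by
      rw [map_mul, ← hαA, pow_one]
      ring
    rw [h1, ti_pow, HahnSeries.coeff_single_mul, one_mul]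
    have h2 := HahnSeries.ofPowerSeries_apply_coeff (Γ := ℤ) (A * S) 0
    have h3 : (-1 - -((1 : ℕ) : ℤ)) = ((0 : ℕ) : ℤ) := by norm_num
    rw [h3]
    refine h2.trans ?_
    rw [PowerSeries.coeff_zero_eq_constantCoeff_apply, map_mul, hS0, mul_one, hA,
      ← PowerSeries.coeff_zero_eq_constantCoeff_apply, PowerSeries.coeff_mk]
    rfl

/-- The final contradiction. -/
theorem contra {ϖ : O} (hϖ : Irreducible ϖ) (h2 : ϖ ∣ 2) (hm' : f.Monic) {g : ℕ} (hg : 1 ≤ g)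
    (hd : f.natDegree = 2 * g + 1) {w₀ : O} (hw : ϖ ∣ w₀) {r : ℕ} {F : QA f}
    (hF : rA f F = 1) {W : QA (qi f)}
    (hW : qm (rX O) (q := qi f) (q' := rX O (qi f)) rfl W ≠ 0) {υ : LL f} (hυ : IsUnit υ)
    (h : jL hd F = jI f W ^ 2 ^ r * wp f w₀ * υ) : ϖ ^ (r + 1) ∣ w₀ := by
  have := isDomain_LL hm'
  have := isDomain_LL' hm'
  have hu : ∀ x : O, IsLocalRing.residue O x ≠ 0 → IsUnit x := by
    intro x hx
    rwa [IsLocalRing.residue_ne_zero_iff_isUnit] at hx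
  have hu' : ∀ x : O, IsUnit x → IsLocalRing.residue O x ≠ 0 := by
    intro x hx
    rwa [IsLocalRing.residue_ne_zero_iff_isUnit]
  -- the reduction of `W`
  have hrW : rL f (jI f W) ≠ 0 := by
    intro h0
    apply hW
    have e1 := congrArg QuadraticAlgebra.re h0
    have e2 := congrArg QuadraticAlgebra.im h0
    rw [rL, qm_re, jI_re, hm_iP] at e1
    rw [rL, qm_im, jI_im, hm_iP] at e2
    refine QuadraticAlgebra.ext ?_ ?_
    · exact iP_inj (e1.trans (map_zero _).symm)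
    · exact iP_inj (e2.trans (map_zero _).symm)
  obtain ⟨ω₀, hω₀, hω₀'⟩ := lift_unit (ρ := IsLocalRing.residue O) (q := qL f) rfl
    IsLocalRing.residue_surjective hu (ord1_qL hm') hrW
  obtain ⟨qv, hqv, hcoef⟩ := exists_qinv hm'
  -- `ω` and its inverse
  have hωω : (⟨0, 1⟩ : LL f) * ⟨0, qv⟩ = 1 := by
    refine QuadraticAlgebra.ext ?_ ?_
    · rw [QuadraticAlgebra.re_mul, QuadraticAlgebra.re_one]
      linear_combination hqv
    · rw [QuadraticAlgebra.im_mul, QuadraticAlgebra.im_one]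
      ring
  have hωu : IsUnit (⟨0, 1⟩ : LL f) := .of_mul_eq_one _ hωω
  set θ : LL f := ω₀ ^ 2 ^ r * ⟨0, 1⟩ * υ with hθ
  have hθu : IsUnit θ := ((hω₀.pow _).mul hωu).mul hυ
  have hrwp : rL f (wp f w₀) = rL f ⟨0, 1⟩ := by
    refine QuadraticAlgebra.ext ?_ ?_
    · rw [rL, qm_re, qm_re]
      show hm _ (-HahnSeries.C w₀) = hm _ 0
      rw [map_neg, hm_C, (res_eq hϖ w₀).2 hw, map_zero, map_zero, neg_zero]
    · rfl
  have hrF : rL f (jL hd F) = 1 := by
    have h1 : rA f (F - 1) = 0 := by rw [map_sub, hF, map_one, sub_self]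
    obtain ⟨F₂, hF₂⟩ := (rA_eq hϖ _).1 h1
    have h3 : jL hd F = 1 + pL f ϖ * jL hd F₂ := by
      have e : pL f ϖ = jL hd (cA f (C ϖ)) := (jL_C hd ϖ).symm
      rw [e, ← map_mul, ← hF₂, map_sub, map_one]
      ring
    rw [h3, map_add, map_one, map_mul, (rL_eq hϖ _).2 dvd_rfl, zero_mul, add_zero]
  have hrθ : rL f θ = 1 := by
    rw [hθ, map_mul, map_mul, map_pow, show rL f ω₀ = rL f (jI f W) from hω₀', ← map_pow, ← hrwp,
      ← map_mul, ← map_mul, ← h, hrF]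
  obtain ⟨h0u, hre, him⟩ := unit_one (ρ := IsLocalRing.residue O) (q := qL f) rfl hu'
    (ord1_qL hm') hθu hrθ
  -- the congruence
  have hpow : pL f ϖ ^ (r + 1) ∣ jI f W ^ 2 ^ r - ω₀ ^ 2 ^ r := by
    apply pow_cong
    · obtain ⟨c, hc⟩ := h2
      refine ⟨pL f c, ?_⟩
      rw [← pL_mul, ← hc, pL, map_ofNat, cL, map_ofNat]
    · rw [← rL_eq hϖ, map_sub, show rL f ω₀ = rL f (jI f W) from hω₀', sub_self]
  obtain ⟨δ, hδ⟩ := hpow
  have h3 : jL hd F - θ * (wp f w₀ * ⟨0, qv⟩) = pL f (ϖ ^ (r + 1)) * (δ * wp f w₀ * υ) := by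
    rw [pL_pow, h, hθ]
    linear_combination (wp f w₀ * υ) * hδ - ω₀ ^ 2 ^ r * υ * wp f w₀ * hωω
  have h4 : wp f w₀ * ⟨0, qv⟩ = ⟨1, -HahnSeries.C w₀ * qv⟩ := by
    refine QuadraticAlgebra.ext ?_ ?_
    · rw [QuadraticAlgebra.re_mul]
      simp only [wp]
      linear_combination hqv
    · rw [QuadraticAlgebra.im_mul]
      simp only [wp]
      ring
  have h5 := congrArg (fun z : LL f => z.im.coeff (-1)) h3
  rw [h4, QuadraticAlgebra.im_sub, QuadraticAlgebra.im_mul, HahnSeries.coeff_sub, jL_im] at h5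
  have h6 : (ti O ^ (g + 1) * iN F.im).coeff (-1) = 0 := by
    rw [ti_pow, HahnSeries.coeff_single_mul, one_mul]
    exact iN_coeff_pos _ (by push_cast; omega)
  have h7 : (θ.re * (-HahnSeries.C w₀ * qv) + θ.im * 1 + 0 * θ.im * (-HahnSeries.C w₀ * qv)).coeff
      (-1) = -(w₀ * θ.re.coeff 0) := by
    have e1 : θ.re * (-HahnSeries.C w₀ * qv) + θ.im * 1 + 0 * θ.im * (-HahnSeries.C w₀ * qv) =
        -(HahnSeries.C w₀ * (θ.re * qv)) + θ.im := by ring
    rw [e1, HahnSeries.coeff_add, HahnSeries.coeff_neg, coeff_C_mul', hcoef _ hre,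
      him (-1) (by norm_num), add_zero]
  have h8 : (pL f (ϖ ^ (r + 1)) * (δ * wp f w₀ * υ)).im.coeff (-1) =
      ϖ ^ (r + 1) * (δ * wp f w₀ * υ).im.coeff (-1) := by
    rw [pL, cL, ← Algebra.smul_def, QuadraticAlgebra.im_smul, smul_eq_mul, coeff_C_mul']
  rw [h6, h7, h8] at h5
  have h9 : ϖ ^ (r + 1) ∣ w₀ * θ.re.coeff 0 :=
    ⟨(δ * wp f w₀ * υ).im.coeff (-1), by linear_combination h5⟩
  exact (h0u.dvd_mul_right).1 h9

end red

section near

variable {O : Type*} [CommRing O] [IsDomain O] [IsDiscreteValuationRing O]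
variable {k : Type*} [Field k] [Algebra O k] [IsFractionRing O k] {f : O[X]} {g : ℕ}

/-- The function as a product. -/
theorem product {ϖ : O} (hϖ : Irreducible ϖ) (hm' : f.Monic) (hd : f.natDegree = 2 * g + 1)
    {F A : QA f} {Ω : LL f} (hF : rL f (jL hd F) ≠ 0) (hΩ : rL f Ω ≠ 0) {b₁ b₂ : O}
    (hb₁ : b₁ ≠ 0) (hb₂ : b₂ ≠ 0) {τ y : LL f} (hτ : IsUnit τ)
    (h1 : jL hd A * jL hd F = pL f b₁ * τ * Ω) (h2 : pL f b₂ * jL hd F = Ω * y) :
    ∃ υ : LL f, IsUnit υ ∧ jL hd F = Ω * υ := by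
  have := isDomain_LL hm'
  have hF0 : jL hd F ≠ 0 := by
    intro h0
    rw [h0, map_zero] at hF
    exact hF rfl
  have h3 : jL hd A * y = pL f (b₁ * b₂) * τ := by
    apply mul_right_cancel₀ hF0
    rw [pL_mul]
    linear_combination y * h1 - pL f b₁ * τ * h2
  obtain ⟨R, u₀, hu₀⟩ := IsDiscreteValuationRing.eq_unit_mul_pow_irreducible
    (mul_ne_zero hb₁ hb₂) hϖ
  obtain ⟨R₂, u₂, hu₂⟩ := IsDiscreteValuationRing.eq_unit_mul_pow_irreducible hb₂ hϖ
  rw [hu₀, pL_mul, pL_pow] at h3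
  have hun : ∀ u : Oˣ, IsUnit (pL f (u : O)) := fun u => isUnit_cL (u.isUnit.map _)
  obtain ⟨i, j, β₁, β₂, -, hβ, -, hy⟩ := mul_eq_mul_prime_pow (prime_pL hϖ hm')
    (show jL hd A * y = (pL f (u₀ : O) * τ) * pL f ϖ ^ R by rw [h3]; ring)
  have hβu : IsUnit β₂ := by
    have h4 : IsUnit (β₁ * β₂) := by
      rw [← hβ]
      exact (hun u₀).mul hτ
    exact isUnit_of_mul_isUnit_right h4
  rw [hu₂, pL_mul, pL_pow, hy] at h2
  have hdk := isDomain_LL' hm'
  have hr : ∀ z : LL f, IsUnit z → rL f z ≠ 0 := fun z hz => (hz.map (rL f)).ne_zero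
  have h5 : pL f (u₂ : O) * jL hd F = Ω * β₂ := by
    refine cmp hϖ hm' (i := R₂) (j := j) ?_ ?_ ?_
    · rw [map_mul]
      exact mul_ne_zero (hr _ (hun u₂)) hF
    · rw [map_mul]
      exact mul_ne_zero hΩ (hr _ hβu)
    · linear_combination h2
  have h6 : pL f ((u₂⁻¹ : Oˣ) : O) * pL f (u₂ : O) = 1 := by
    rw [← pL_mul, Units.inv_mul, pL, map_one]
    exact map_one _
  refine ⟨β₂ * pL f ((u₂⁻¹ : Oˣ) : O), hβu.mul (hun _), ?_⟩
  linear_combination pL f ((u₂⁻¹ : Oˣ) : O) * h5 - jL hd F * h6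

theorem near {ϖ : O} (hϖ : Irreducible ϖ) (h2 : ϖ ∣ 2) (hm : f.Monic)
    (hd : f.natDegree = 2 * g + 1) (hg : 1 ≤ g) (hr : Reg ϖ f) [HF (fK k f)] {z₀ w₀ : O}
    (hz : z₀ ≠ 0) (hzϖ : ϖ ∣ z₀) (hw : w₀ ^ 2 = (qi f).eval z₀) (hwϖ : ϖ ∣ w₀) {r : ℕ}
    (hwr : ¬ ϖ ^ (r + 1) ∣ w₀)
    (hdv : (X - C (algebraMap O k z₀)⁻¹) ∣
      fK k f - (C (algebraMap O k w₀ * (algebraMap O k z₀)⁻¹ ^ (g + 1))) ^ 2)
    (d : ClassGroup (CR (fK k f))) :
    d ^ 2 ^ (r + 1) ≠ cl (mi (fK k f) (X - C (algebraMap O k z₀)⁻¹)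
      (-C (algebraMap O k w₀ * (algebraMap O k z₀)⁻¹ ^ (g + 1)))) := by
  intro hcl
  apply hwr
  have ho : Odd f.natDegree := by rw [hd]; exact odd_two_mul_add_one g
  have hz' : algebraMap O k z₀ ≠ 0 := by rwa [Ne, FaithfulSMul.algebraMap_eq_zero_iff]
  have := isDomain_LL hm
  have := isDomain_LL' hm
  have hdA : IsDomain (QA f) := isDomain_of (nsq_O ho)
  have hdk : IsDomain (QA (rX O f)) := isDomain_of (nsq_red hm ho)
  have hodd := oddM_red hm ho
  set u : k[X] := X - C (algebraMap O k z₀)⁻¹ with hu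
  set v : k[X] := C (algebraMap O k w₀ * (algebraMap O k z₀)⁻¹ ^ (g + 1)) with hv
  have hu0 : u ≠ 0 := X_sub_C_ne_zero _
  set I := mi (fK k f) u (-v) with hI
  have hI0 : I ≠ ⊥ := Pool.Agent.Y723.HJ.mi_ne hu0
  obtain ⟨E, Φ, F, hE, hΦ, hmem, hF0, hF⟩ := k3 hϖ h2 hm ho hr r d hI0 hcl
  have hbar : bar I = mi (fK k f) u v := by
    rw [hI, Pool.Agent.Y723.HJ.bar_mi, neg_neg]
  rw [hbar] at hF
  set J := mi (fK k f) u v with hJ
  -- the element `Φ ^ M (1 - z₀ x)`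
  set t : QA f := cA f (Φ ^ 2 ^ r * (1 - C z₀ * X)) with ht
  have hrt : rA f t = 1 := by
    rw [ht, rA_c, map_mul, map_pow, hΦ, one_pow, one_mul, map_sub, map_mul, map_one,
      (rX_ker hϖ (C z₀)).2 (by
        obtain ⟨c, hc⟩ := hzϖ
        exact ⟨C c, by rw [← C_mul, ← hc]⟩), zero_mul, sub_zero, map_one]
  have hux : jA k f (cA f (1 - C z₀ * X)) ∈ J := by
    have e1 : jA k f (cA f (1 - C z₀ * X)) = CC (fK k f) (-C (algebraMap O k z₀) * u) := by
      rw [jA_c]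
      congr 1
      rw [Polynomial.map_sub, Polynomial.map_one, Polynomial.map_mul, map_C, map_X, hu]
      have e2 : (C (algebraMap O k z₀) : k[X]) * C (algebraMap O k z₀)⁻¹ = 1 := by
        rw [← C_mul, mul_inv_cancel₀ hz', C_1]
      linear_combination -e2
    rw [e1]
    exact Pool.Agent.Y723.HJ.mi_C_mem (dvd_mul_left _ _)
  have htF : jA k f t ∈ Ideal.span {F} := by
    rw [← hF, ht, cA_mul, cA_pow, map_mul, map_pow]
    exact Ideal.mul_mem_mul (Ideal.pow_mem_pow hmem _) hux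
  obtain ⟨G, hG⟩ := Ideal.mem_span_singleton'.1 htF
  obtain ⟨c, c', F', G', hcc, hF', hG', hFG'⟩ := gauss hϖ hm ho (t := t) (by
    rw [hrt]; exact one_ne_zero) (show F * G = jA k f t by rw [← hG, mul_comm])
  have hunit : IsUnit (rA f F') := by
    apply IsUnit.of_mul_eq_one (rA f G')
    rw [← map_mul, hFG', hrt]
  obtain ⟨cb, hcb, hF'c⟩ := Pool.Agent.Y723.HJ.unit_const hunit
  obtain ⟨e, he⟩ := IsLocalRing.residue_surjective (R := O) cb⁻¹
  have heu : IsUnit e := by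
    rw [← IsLocalRing.residue_ne_zero_iff_isUnit, he]
    exact inv_ne_zero hcb
  obtain ⟨F₁, hF₁⟩ : ∃ F₁ : QA f, F₁ = cA f (C e) * F' := ⟨_, rfl⟩
  have hrF₁ : rA f F₁ = 1 := by
    rw [hF₁, map_mul, rA_c, hF'c, coe_mapRingHom, map_C, he, ← map_mul, ← C_mul,
      inv_mul_cancel₀ hcb, C_1, map_one]
  have hc0 : c ≠ 0 := left_ne_zero_of_mul (hcc.trans_ne one_ne_zero)
  have hEQ : E ^ 2 ^ r * J = Ideal.span {jA k f F₁} := by
    rw [hF, hF₁, map_mul, hF', ← mul_assoc]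
    refine (Ideal.span_singleton_eq_span_singleton.2 ?_)
    refine (associated_unit_mul_left F _ ?_).symm
    refine (unit_c heu.ne_zero).mul ?_
    exact IsUnit.map _ (isUnit_C.2 (isUnit_iff_ne_zero.2 hc0))
  -- the generator at infinity
  obtain ⟨W, ⟨m₁, e₁, he₁, he₁'⟩, hWr, σ, hσ, hall⟩ := exists_W hd hϖ h2 hm hΦ hmem
  have hEW := le_KK hd hσ hall
  have hJW : J ≤ KK hd k (wp f w₀) := pt_le hd hϖ hm hz hzϖ hw hdv
  -- `α`
  set p₀ : QA f := ⟨-C w₀ * X ^ (g + 1), 1⟩ with hp₀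
  have hp₀J : jA k f p₀ ∈ J := by
    rw [hJ, Pool.Agent.Y723.HJ.mem_mi hdv, dvd_iff_isRoot, IsRoot.def, eval_add, eval_mul, jA_re,
      jA_im, hp₀, hv]
    simp only [Polynomial.map_neg, Polynomial.map_mul, Polynomial.map_pow, map_C, map_X, eval_neg,
      eval_mul, eval_C, eval_pow, eval_X, Polynomial.map_one, eval_one]
    ring
  have hp₀L : jL hd p₀ = cL f (ti O ^ (g + 1)) * wp f w₀ := by
    rw [← Algebra.smul_def]
    refine QuadraticAlgebra.ext ?_ ?_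
    · rw [jL_re, QuadraticAlgebra.re_smul, smul_eq_mul, hp₀]
      simp only [wp]
      rw [map_mul, map_neg, iN_C, map_pow, iN_X]
      ring
    · rw [jL_im, QuadraticAlgebra.im_smul, smul_eq_mul, hp₀]
      simp only [wp]
      rw [map_one]
  have hα : jA k f (e₁ ^ 2 ^ r * p₀) ∈ Ideal.span {jA k f F₁} := by
    rw [← hEQ, map_mul, map_pow]
    exact Ideal.mul_mem_mul (Ideal.pow_mem_pow he₁ _) hp₀J
  obtain ⟨G₁, hG₁⟩ := Ideal.mem_span_singleton'.1 hα
  obtain ⟨b₁, hb₁, g₁, hg₁⟩ := clear G₁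
  have hα' : g₁ * F₁ = cA f (C b₁) * (e₁ ^ 2 ^ r * p₀) := by
    apply jA_inj (k := k)
    rw [map_mul, hg₁, map_mul, ← hG₁]
    ring
  -- `β`
  have hβ : jA k f F₁ ∈ KK hd k (jI f W ^ 2 ^ r * wp f w₀) := by
    have h3 : E ^ 2 ^ r * J ≤ KK hd k (jI f W ^ 2 ^ r * wp f w₀) :=
      (Ideal.mul_mono (KK_pow hd hEW _) hJW).trans (KK_mul hd _ _)
    apply h3
    rw [hEQ]
    exact Ideal.mem_span_singleton_self _
  obtain ⟨b₂, hb₂, a₂, ha₂, y, hy⟩ := hβ
  have ha₂' : a₂ = cA f (C b₂) * F₁ := by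
    apply jA_inj (k := k)
    rw [ha₂, map_mul]
  set Ω : LL f := jI f W ^ 2 ^ r * wp f w₀ with hΩ
  have h5 : jL hd g₁ * jL hd F₁ = pL f b₁ * (cL f (ti O ^ m₁) ^ 2 ^ r * cL f (ti O ^ (g + 1))) * Ω := by
    rw [← map_mul, hα', map_mul, map_mul, map_pow, he₁', hp₀L, jL_C, hΩ]
    ring
  have h6 : pL f b₂ * jL hd F₁ = Ω * y := by
    rw [← hy, ha₂', map_mul, jL_C]
  have hτ : IsUnit (cL f (ti O ^ m₁) ^ 2 ^ r * cL f (ti O ^ (g + 1))) :=
    ((isUnit_cL (isUnit_ti.pow _)).pow _).mul (isUnit_cL (isUnit_ti.pow _))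
  have hrF : rL f (jL hd F₁) ≠ 0 := by
    have h1 : rA f (F₁ - 1) = 0 := by rw [map_sub, hrF₁, map_one, sub_self]
    obtain ⟨F₂, hF₂⟩ := (rA_eq hϖ _).1 h1
    have h3 : jL hd F₁ = 1 + pL f ϖ * jL hd F₂ := by
      have e : pL f ϖ = jL hd (cA f (C ϖ)) := (jL_C hd ϖ).symm
      rw [e, ← map_mul, ← hF₂, map_sub, map_one]
      ring
    rw [h3, map_add, map_one, map_mul, (rL_eq hϖ _).2 dvd_rfl, zero_mul, add_zero]
    exact one_ne_zero
  have hrW : rL f (jI f W) ≠ 0 := by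
    intro h0
    apply hWr
    have e1 := congrArg QuadraticAlgebra.re h0
    have e2 := congrArg QuadraticAlgebra.im h0
    rw [rL, qm_re, jI_re, hm_iP] at e1
    rw [rL, qm_im, jI_im, hm_iP] at e2
    refine QuadraticAlgebra.ext ?_ ?_
    · exact iP_inj (e1.trans (map_zero _).symm)
    · exact iP_inj (e2.trans (map_zero _).symm)
  have hrΩ : rL f Ω ≠ 0 := by
    rw [hΩ, map_mul, map_pow]
    refine mul_ne_zero (pow_ne_zero _ hrW) ?_
    intro h0
    have e2 := congrArg QuadraticAlgebra.im h0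
    rw [rL, qm_im] at e2
    have e3 : OP.hm (IsLocalRing.residue O) (1 : LS O) = 0 := e2
    rw [map_one] at e3
    exact one_ne_zero e3
  obtain ⟨υ, hυ, hprod⟩ := product hϖ hm hd hrF hrΩ hb₁ hb₂ hτ h5 h6
  exact contra hϖ h2 hm hg hd hwϖ hrF₁ hWr hυ hprod

end near

end Pool.Agent.H905.OP
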