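import Pool.Agent.H905.OP.Zero
import Pool.Graph.R_pool_sql_team_seeded_63374d34.N874.Jac.Def
import Mathlib.RingTheory.PicardGroup
import Mathlib.RingTheory.AdjoinRoot
import Mathlib.FieldTheory.IntermediateField.Adjoin.Basic
import Mathlib.FieldTheory.KummerPolynomial

/-!
# One point: Jacobians without rational points, points of small degree

Project OP (helper905). The Picard group in the form of project JB and the class group. If the class group
of `K[x, y] / (y ^ 2 - P)` is trivial, all points of degree at most `2 g` are obvious ones.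
-/

set_option autoImplicit false

open Polynomial IntermediateField

namespace Pool.Agent.H905.OP

open Pool.Agent.Y723.HJ (CR OddM HF CC mi bar cl nm)
open Pool.Agent.N874.Jac (UniquelyTwoDivisible CoordRing J)

section iso

variable {R : Type} [CommRing R] (q : R)

theorem root_sq : AdjoinRoot.root (X ^ 2 - C q : R[X]) * AdjoinRoot.root (X ^ 2 - C q : R[X]) =
    q • 1 + (0 : R) • AdjoinRoot.root (X ^ 2 - C q : R[X]) := by
  have h := AdjoinRoot.eval₂_root (X ^ 2 - C q : R[X])
  rw [eval₂_sub, eval₂_X_pow, eval₂_C, sub_eq_zero] at h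
  rw [zero_smul, add_zero, Algebra.smul_def, mul_one, ← pow_two (AdjoinRoot.root _), h]
  rfl

theorem omega_sq : (X ^ 2 - C q : R[X]).eval₂
    (Algebra.ofId R (QuadraticAlgebra R q 0) : R →+* QuadraticAlgebra R q 0) ⟨0, 1⟩ = 0 := by
  rw [eval₂_sub, eval₂_X_pow, eval₂_C]
  refine QuadraticAlgebra.ext ?_ ?_
  · show (((⟨0, 1⟩ : QuadraticAlgebra R q 0) ^ 2) - algebraMap R _ q).re = 0
    rw [pow_two, QuadraticAlgebra.re_sub, QuadraticAlgebra.re_mul,
      QuadraticAlgebra.algebraMap_re]
    ring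
  · show (((⟨0, 1⟩ : QuadraticAlgebra R q 0) ^ 2) - algebraMap R _ q).im = 0
    rw [pow_two, QuadraticAlgebra.im_sub, QuadraticAlgebra.im_mul,
      QuadraticAlgebra.algebraMap_im]
    ring

/-- The two models of `R[√q]`. -/
noncomputable def isoQ : AdjoinRoot (X ^ 2 - C q : R[X]) ≃ₐ[R] QuadraticAlgebra R q 0 :=
  AlgEquiv.ofAlgHom
    (AdjoinRoot.liftAlgHom (X ^ 2 - C q : R[X]) (Algebra.ofId R (QuadraticAlgebra R q 0)) ⟨0, 1⟩
      (omega_sq q))
    (QuadraticAlgebra.lift ⟨AdjoinRoot.root (X ^ 2 - C q : R[X]), root_sq q⟩)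
    (by
      apply QuadraticAlgebra.algHom_ext
      rw [AlgHom.comp_apply, AlgHom.id_apply, QuadraticAlgebra.lift_apply_apply,
        QuadraticAlgebra.omega_re, QuadraticAlgebra.omega_im, zero_smul, one_smul, zero_add,
        AdjoinRoot.liftAlgHom_root]
      rfl)
    (by
      apply AdjoinRoot.algHom_ext
      rw [AlgHom.comp_apply, AlgHom.id_apply, AdjoinRoot.liftAlgHom_root,
        QuadraticAlgebra.lift_apply_apply, zero_smul, one_smul, zero_add])

end iso

theorem pic_bij {R S : Type} [CommRing R] [CommRing S] (e : R ≃+* S)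
    (h : Function.Bijective fun P : CommRing.Pic R => P ^ 2) (c : CommRing.Pic S) :
    ∃ d, d ^ 2 = c := by
  obtain ⟨d, hd⟩ := h.2 (CommRing.Pic.mapRingHom (e.symm : S →+* R) c)
  refine ⟨CommRing.Pic.mapRingHom (e : R →+* S) d, ?_⟩
  have hd' : d ^ 2 = CommRing.Pic.mapRingHom (e.symm : S →+* R) c := hd
  rw [← map_pow, hd', CommRing.Pic.mapRingHom_mapRingHom]
  have e1 : (e : R →+* S).comp (e.symm : S →+* R) = RingHom.id S := by
    ext x
    simp
  rw [e1, CommRing.Pic.mapRingHom_id_apply]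

theorem pic_one {R S : Type} [CommRing R] [CommRing S] (e : R ≃+* S)
    (h : ∀ c : CommRing.Pic S, c = 1) (c : CommRing.Pic R) : c = 1 := by
  have h1 : CommRing.Pic.mapRingHom (e.symm : S →+* R) (CommRing.Pic.mapRingHom (e : R →+* S) c)
      = c := by
    rw [CommRing.Pic.mapRingHom_mapRingHom]
    have e1 : (e.symm : S →+* R).comp (e : R →+* S) = RingHom.id R := by
      ext x
      simp
    rw [e1, CommRing.Pic.mapRingHom_id_apply]
  rw [← h1, h (CommRing.Pic.mapRingHom (e : R →+* S) c), map_one]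

section jac

variable {K : Type} [Field K] {P : K[X]} [HF P]

/-- The class group is divisible by two. -/
theorem halve (h : UniquelyTwoDivisible P) (c : ClassGroup (CR P)) : ∃ d, d ^ 2 = c := by
  have e0 : P.map (algebraMap K K) = P := Polynomial.map_id
  have h1 : Function.Bijective fun Q : CommRing.Pic (AdjoinRoot (X ^ 2 - C P : K[X][X])) =>
      Q ^ 2 := by
    have h2 : ∀ P' : K[X], P' = P → (Function.Bijective
        fun Q : CommRing.Pic (AdjoinRoot (X ^ 2 - C P' : K[X][X])) => Q ^ 2) →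
        Function.Bijective fun Q : CommRing.Pic (AdjoinRoot (X ^ 2 - C P : K[X][X])) => Q ^ 2 := by
      rintro _ rfl h3
      exact h3
    exact h2 _ e0 h
  obtain ⟨d, hd⟩ := pic_bij (isoQ P).toRingEquiv h1 (ClassGroup.equivPic (CR P) c)
  refine ⟨(ClassGroup.equivPic (CR P)).symm d, ?_⟩
  rw [← map_pow, hd, MulEquiv.symm_apply_apply]

theorem halve_pow (h : UniquelyTwoDivisible P) (N : ℕ)
    (c : ClassGroup (CR P)) : ∃ d, d ^ 2 ^ N = c := by
  induction N generalizing c with
  | zero => exact ⟨c, by simp⟩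
  | succ N ih =>
    obtain ⟨d, hd⟩ := halve h c
    obtain ⟨e, he⟩ := ih d
    exact ⟨e, by rw [pow_succ, pow_mul, he, hd]⟩

/-- The group `J(K)` is trivial. -/
theorem jac_one (h : ∀ c : ClassGroup (CR P), c = 1) : Subsingleton (J P K) := by
  have e0 : P.map (algebraMap K K) = P := Polynomial.map_id
  have h1 : ∀ Q : CommRing.Pic (AdjoinRoot (X ^ 2 - C P : K[X][X])), Q = 1 := by
    refine pic_one (isoQ P).toRingEquiv fun c => ?_
    rw [← (ClassGroup.equivPic (CR P)).apply_symm_apply c,
      h ((ClassGroup.equivPic (CR P)).symm c), map_one]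
  have h2 : ∀ P' : K[X], P' = P →
      (∀ Q : CommRing.Pic (AdjoinRoot (X ^ 2 - C P : K[X][X])), Q = 1) →
      ∀ Q : CommRing.Pic (AdjoinRoot (X ^ 2 - C P' : K[X][X])), Q = 1 := by
    rintro _ rfl h3
    exact h3
  have h4 : ∀ Q : J P K, Q = (1 : CommRing.Pic (AdjoinRoot (X ^ 2 - C (P.map (algebraMap K K)) :
    K[X][X]))) := h2 _ e0 h1
  exact ⟨fun a b => (h4 a).trans (h4 b).symm⟩

theorem exists_gen (h : ∀ c : ClassGroup (CR P), c = 1) {I : Ideal (CR P)} (hI : I ≠ ⊥) :
    ∃ z : CR P, z ≠ 0 ∧ I = Ideal.span {z} := by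
  have h1 := h (cl I)
  rw [Pool.Agent.Y723.HJ.cl_def hI, ClassGroup.mk0_eq_one_iff] at h1
  obtain ⟨z, hz⟩ := h1.principal
  refine ⟨z, ?_, hz⟩
  rintro rfl
  apply hI
  rw [hz]
  exact Ideal.span_singleton_eq_bot.2 rfl

/-- Points of degree at most `2 g`. -/
theorem low {g : ℕ} (hd : P.natDegree = 2 * g + 1) (h : ∀ c : ClassGroup (CR P), c = 1)
    {L : Type*} [Field L] [Algebra K L] [FiniteDimensional K L] (hL : Module.finrank K L ≤ 2 * g)
    {a b : L} (hab : b ^ 2 = aeval a P) : b ∉ K⟮a⟯ := by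
  intro hb
  have ha : IsIntegral K a := IsIntegral.of_finite K a
  obtain ⟨v, hv⟩ : ∃ v : K[X], aeval a v = b := by
    have h1 : b ∈ (K⟮a⟯).toSubalgebra := hb
    rw [IntermediateField.adjoin_simple_toSubalgebra_of_isAlgebraic ha.isAlgebraic,
      Algebra.adjoin_singleton_eq_range_aeval] at h1
    exact h1
  set u := minpoly K a with hu
  have hum : u.Monic := minpoly.monic ha
  have hu0 : 0 < u.natDegree := minpoly.natDegree_pos ha
  have hul : u.natDegree ≤ 2 * g := (minpoly.natDegree_le a).trans hL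
  have hdv : u ∣ P - v ^ 2 := by
    apply minpoly.dvd
    rw [map_sub, map_pow, hv, hab, sub_self]
  obtain ⟨z, hz0, hz⟩ := exists_gen h (Pool.Agent.Y723.HJ.mi_ne (f := P) (v := v) hum.ne_zero)
  have hn := (Pool.Agent.Y723.HJ.nm_span hz0).2
  rw [← hz, Pool.Agent.Y723.HJ.nm_mi hum hdv] at hn
  have hmem : z ∈ mi P u v := by
    rw [hz]
    exact Ideal.mem_span_singleton_self z
  rw [Pool.Agent.Y723.HJ.mem_mi hdv] at hmem
  rcases Pool.Agent.Y723.HJ.cases_norm z hz0 with ⟨h1, h2, -, h3, -⟩ | ⟨-, -, -, h3, -⟩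
  · have him : z.im = 0 := by
      by_contra him
      rw [degree_eq_natDegree (pow_ne_zero 2 h1), degree_eq_natDegree (mul_ne_zero (by
        rintro rfl
        rw [natDegree_zero] at hd
        omega) (pow_ne_zero 2 him))] at h2
      have h4 : (P * z.im ^ 2).natDegree < (z.re ^ 2).natDegree := by exact_mod_cast h2
      rw [natDegree_mul (by
        rintro rfl
        rw [natDegree_zero] at hd
        omega) (pow_ne_zero 2 him), natDegree_pow, natDegree_pow, hd] at h4
      omega
    rw [him, mul_zero, add_zero] at hmem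
    have h4 := natDegree_le_of_dvd hmem h1
    omega
  · omega

/-- There are no points of small odd degree. -/
theorem low_odd {g : ℕ} (hd : P.natDegree = 2 * g + 1) (h : ∀ c : ClassGroup (CR P), c = 1)
    {L : Type*} [Field L] [Algebra K L] [FiniteDimensional K L] (hL : Module.finrank K L ≤ 2 * g)
    (ho : Odd (Module.finrank K L)) (a b : L) : b ^ 2 ≠ aeval a P := by
  intro hab
  have h1 := low hd h hL hab
  set E := K⟮a⟯ with hE
  obtain ⟨c, hc⟩ : ∃ c : E, algebraMap E L c = aeval a P := by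
    refine ⟨aeval (IntermediateField.AdjoinSimple.gen K a) P, ?_⟩
    rw [← aeval_algebraMap_apply, IntermediateField.AdjoinSimple.algebraMap_gen]
  have h2 : Irreducible (X ^ 2 - C c : E[X]) := by
    apply X_pow_sub_C_irreducible_of_prime Nat.prime_two
    intro x hx
    have h3 : (algebraMap E L x) ^ 2 = b ^ 2 := by
      rw [← map_pow, hx, hc, hab]
    rcases sq_eq_sq_iff_eq_or_eq_neg.1 h3 with h4 | h4
    · apply h1
      rw [← h4]
      exact x.2
    · apply h1
      have h5 : b = algebraMap E L (-x) := by rw [map_neg, h4, neg_neg]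
      rw [h5]
      exact (-x).2
  have h3 : minpoly E b = X ^ 2 - C c := by
    refine (minpoly.eq_of_irreducible_of_monic h2 ?_ (monic_X_pow_sub_C _ two_ne_zero)).symm
    rw [map_sub, map_pow, aeval_X, aeval_C, hc, hab, sub_self]
  have h4 : Module.finrank E E⟮b⟯ = 2 := by
    rw [IntermediateField.adjoin.finrank (IsIntegral.of_finite E b), h3, natDegree_X_pow_sub_C]
  have h5 : Module.finrank K E * Module.finrank E L = Module.finrank K L :=
    Module.finrank_mul_finrank K E L
  have h6 : Module.finrank E E⟮b⟯ * Module.finrank E⟮b⟯ L = Module.finrank E L :=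
    Module.finrank_mul_finrank E E⟮b⟯ L
  rw [← h5, ← h6, h4] at ho
  rw [Nat.odd_mul, Nat.odd_mul] at ho
  exact absurd ho.2.1 (by decide)

end jac

/-- **Infinitely divisible classes, Jacobian form.** -/
theorem triv {O : Type} [CommRing O] [IsDomain O] [IsDiscreteValuationRing O]
    {k : Type} [Field k] [Algebra O k] [IsFractionRing O k] {f : O[X]} {g : ℕ}
    {ϖ : O} (hϖ : Irreducible ϖ) (h2 : ϖ ∣ 2) (hm : f.Monic)
    (hd : f.natDegree = 2 * g + 1) (hr : Reg ϖ f) [HF (fK k f)]
    (h : UniquelyTwoDivisible (fK k f)) (c : ClassGroup (CR (fK k f))) : c = 1 :=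
  cl_eq_one hϖ h2 hm hd hr c fun r => halve_pow h r c

end Pool.Agent.H905.OP
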