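import Pool.Agent.H905.OP.Near

/-!
# One point: poles at infinity

Project OP (helper905). Orders of poles for the elements `α + β w` of the ring of the expansions at infinity.
-/

set_option autoImplicit false

open Polynomial

namespace Pool.Agent.H905.OP

section pole

variable {R : Type*} [CommRing R] {q : LS R}

/-- The order of the pole is at most `m`. -/
def Pl (m : ℤ) (z : QA q) : Prop :=
  (∀ n : ℤ, 2 * n < -m → z.re.coeff n = 0) ∧ ∀ n : ℤ, 2 * n + 1 < -m → z.im.coeff n = 0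

theorem Pl.mono {m m' : ℤ} (h : m ≤ m') {z : QA q} (hz : Pl m z) : Pl m' z :=
  ⟨fun n hn => hz.1 n (by omega), fun n hn => hz.2 n (by omega)⟩

theorem Pl.add {m : ℤ} {z w : QA q} (hz : Pl m z) (hw : Pl m w) : Pl m (z + w) :=
  ⟨fun n hn => by rw [QuadraticAlgebra.re_add, HahnSeries.coeff_add, hz.1 n hn, hw.1 n hn, add_zero],
    fun n hn => by rw [QuadraticAlgebra.im_add, HahnSeries.coeff_add, hz.2 n hn, hw.2 n hn, add_zero]⟩

theorem Pl.sub {m : ℤ} {z w : QA q} (hz : Pl m z) (hw : Pl m w) : Pl m (z - w) :=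
  ⟨fun n hn => by rw [QuadraticAlgebra.re_sub, HahnSeries.coeff_sub, hz.1 n hn, hw.1 n hn, sub_zero],
    fun n hn => by rw [QuadraticAlgebra.im_sub, HahnSeries.coeff_sub, hz.2 n hn, hw.2 n hn, sub_zero]⟩

theorem coeff_mul_zero {a b : LS R} {α β : ℤ} (ha : ∀ n < α, a.coeff n = 0)
    (hb : ∀ n < β, b.coeff n = 0) (n : ℤ) (hn : n < α + β) : (a * b).coeff n = 0 := by
  rw [HahnSeries.coeff_mul]
  refine Finset.sum_eq_zero fun ij hij => ?_
  have h := (Finset.mem_addAntidiagonal.1 hij).2.2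
  by_cases h1 : ij.1 < α
  · rw [ha _ h1, zero_mul]
  · rw [hb _ (by omega), mul_zero]

theorem Pl.mul (hq : ∀ n < 1, q.coeff n = 0) {m m' : ℤ} {z w : QA q} (hz : Pl m z) (hw : Pl m' w) :
    Pl (m + m') (z * w) := by
  constructor
  · intro n hn
    rw [QuadraticAlgebra.re_mul, HahnSeries.coeff_add]
    have h1 : (z.re * w.re).coeff n = 0 :=
      coeff_mul_zero (α := -(m / 2)) (β := -(m' / 2)) (fun i hi => hz.1 i (by omega))
        (fun i hi => hw.1 i (by omega)) n (by omega)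
    have h2 : (q * z.im * w.im).coeff n = 0 := by
      refine coeff_mul_zero (α := 1 - (m + 1) / 2) (β := -((m' + 1) / 2)) (fun i hi => ?_)
        (fun i hi => hw.2 i (by omega)) n (by omega)
      exact coeff_mul_zero (α := 1) (β := -((m + 1) / 2)) hq (fun j hj => hz.2 j (by omega)) i
        (by omega)
    rw [h1, h2, add_zero]
  · intro n hn
    rw [QuadraticAlgebra.im_mul, zero_mul, zero_mul, add_zero, HahnSeries.coeff_add]
    have h1 : (z.re * w.im).coeff n = 0 :=
      coeff_mul_zero (α := -(m / 2)) (β := -((m' + 1) / 2)) (fun i hi => hz.1 i (by omega))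
        (fun i hi => hw.2 i (by omega)) n (by omega)
    have h2 : (z.im * w.re).coeff n = 0 :=
      coeff_mul_zero (α := -((m + 1) / 2)) (β := -(m' / 2)) (fun i hi => hz.2 i (by omega))
        (fun i hi => hw.1 i (by omega)) n (by omega)
    rw [h1, h2, add_zero]

theorem Pl.coe {m : ℤ} {r : LS R} (h : ∀ n, 2 * n < -m → r.coeff n = 0) :
    Pl m (algebraMap (LS R) (QA q) r) :=
  ⟨fun n hn => by rw [QuadraticAlgebra.algebraMap_re]; exact h n hn,
    fun n hn => by rw [QuadraticAlgebra.algebraMap_im, HahnSeries.coeff_zero]⟩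

theorem Pl.exists (z : QA q) : ∃ m : ℕ, Pl m z := by
  have key : ∀ x : LS R, ∃ m : ℕ, ∀ n : ℤ, n < -m → x.coeff n = 0 := by
    intro x
    refine ⟨(-x.order).toNat, fun n hn => HahnSeries.coeff_eq_zero_of_lt_order ?_⟩
    omega
  obtain ⟨m, hm⟩ := key z.re
  obtain ⟨m', hm'⟩ := key z.im
  exact ⟨2 * m + 2 * m', fun n hn => hm n (by omega), fun n hn => hm' n (by omega)⟩

end pole

section unit

variable {R : Type*} [CommRing R] [IsDomain R] {q : LS R}

theorem ord_norm (hq : Ord1 q) {z : QA q} (hz : z ≠ 0) {e : ℤ} (he : z.norm.order = e) :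
    Pl (-e) z := by
  have hne : ¬ (z.re = 0 ∧ z.im = 0) := fun h => hz (QuadraticAlgebra.ext h.1 h.2)
  have hn0 : z.norm ≠ 0 := norm_ne (nsq_q hq) hz
  have hn : (z.norm).orderTop = (e : WithTop ℤ) := by
    rw [← he, HahnSeries.order_eq_orderTop_of_ne_zero hn0]
  have key : (e : WithTop ℤ) ≤ (z.re ^ 2).orderTop ∧ (e : WithTop ℤ) ≤ (q * z.im ^ 2).orderTop := by
    rw [← hn, norm_eq]
    rcases tri hq hne with h | h
    · rw [HahnSeries.orderTop_sub h]
      exact ⟨le_rfl, h.le⟩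
    · have e1 : z.re ^ 2 - q * z.im ^ 2 = -(q * z.im ^ 2 - z.re ^ 2) := by ring
      rw [e1, HahnSeries.orderTop_neg, HahnSeries.orderTop_sub h]
      exact ⟨h.le, le_rfl⟩
  constructor
  · intro n hn
    by_contra hc
    have h0 : z.re ≠ 0 := by
      intro h0
      rw [h0, HahnSeries.coeff_zero] at hc
      exact hc rfl
    have h1 := HahnSeries.order_le_of_coeff_ne_zero hc
    have h2 := key.1
    rw [ord_sq h0, WithTop.coe_le_coe] at h2
    omega
  · intro n hn
    by_contra hc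
    have h0 : z.im ≠ 0 := by
      intro h0
      rw [h0, HahnSeries.coeff_zero] at hc
      exact hc rfl
    have h1 := HahnSeries.order_le_of_coeff_ne_zero hc
    have h2 := key.2
    rw [ord_qsq hq h0, WithTop.coe_le_coe] at h2
    omega

theorem ord_q (hq : Ord1 q) : ∀ n < 1, q.coeff n = 0 := fun n hn =>
  HahnSeries.coeff_eq_zero_of_lt_order (by rw [hq.ord]; exact hn)

theorem pole_inv (hq : Ord1 q) {z w : QA q} (h : z * w = 1) {e : ℤ} (he : z.norm.order = e) :
    Pl e w := by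
  have := isDomain_of (nsq_q hq)
  have hz : z ≠ 0 := left_ne_zero_of_mul (h.trans_ne one_ne_zero)
  have hw : w ≠ 0 := right_ne_zero_of_mul (h.trans_ne one_ne_zero)
  have h1 : z.norm * w.norm = 1 := by
    rw [← map_mul, h, map_one]
  have h2 := HahnSeries.order_mul (norm_ne (nsq_q hq) hz) (norm_ne (nsq_q hq) hw)
  rw [h1, HahnSeries.order_one, he] at h2
  have h3 := ord_norm hq hw (e := -e) (by omega)
  rwa [neg_neg] at h3

end unit

section red

variable {O κ : Type*} [CommRing O] [IsDomain O] [Field κ] {ρ : O →+* κ}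

theorem order_hm_unit (hunit : ∀ r : O, IsUnit r → ρ r ≠ 0) {u : LS O} (hu : IsUnit u) :
    (hm ρ u).order = u.order := by
  have h1 : IsUnit u.leadingCoeff := HahnSeries.isUnit_iff.1 hu
  rw [HahnSeries.leadingCoeff_eq] at h1
  have h2 : (hm ρ u).coeff u.order ≠ 0 := by
    rw [hm_coeff]
    exact hunit _ h1
  have h3 : hm ρ u ≠ 0 := by
    intro h0
    rw [h0, HahnSeries.coeff_zero] at h2
    exact h2 rfl
  apply le_antisymm
  · exact HahnSeries.order_le_of_coeff_ne_zero h2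
  · rw [HahnSeries.le_order_iff_forall h3]
    intro j hj
    rw [hm_coeff, HahnSeries.coeff_eq_zero_of_lt_order hj, map_zero]

theorem order_hm_le {u : LS O} (h : hm ρ u ≠ 0) : u.order ≤ (hm ρ u).order := by
  rw [HahnSeries.le_order_iff_forall h]
  intro j hj
  rw [hm_coeff, HahnSeries.coeff_eq_zero_of_lt_order hj, map_zero]

end red

section poly

variable {R : Type*} [CommRing R]

theorem iN_coeff (p : R[X]) (i : ℕ) : (iN p).coeff (-(i : ℤ)) = p.coeff i := by
  set N := p.natDegree + i with hN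
  have h := iP_reflect p N (by omega)
  have h1 : iN p = ti R ^ N * iP (reflect N p) := by
    rw [h, mul_comm, mul_assoc, ← mul_pow, tt_ti, one_pow, mul_one]
  rw [h1, ti_pow, HahnSeries.coeff_single_mul, one_mul]
  have e1 : -(i : ℤ) - -(N : ℤ) = ((N - i : ℕ) : ℤ) := by omega
  rw [e1, iP_coeff, coeff_reflect, revAt_le (by omega : N - i ≤ N)]
  congr 1
  omega

theorem exists_part (x : LS R) : ∃ p : R[X], ∀ i : ℕ, p.coeff i = x.coeff (-(i : ℤ)) := by
  obtain ⟨m, hm⟩ : ∃ m : ℕ, ∀ n : ℤ, n < -m → x.coeff n = 0 := by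
    refine ⟨(-x.order).toNat, fun n hn => HahnSeries.coeff_eq_zero_of_lt_order ?_⟩
    omega
  refine ⟨∑ i ∈ Finset.range (m + 1), monomial i (x.coeff (-(i : ℤ))), fun i => ?_⟩
  rw [finset_sum_coeff]
  simp only [coeff_monomial]
  rw [Finset.sum_ite_eq' (Finset.range (m + 1)) i]
  split_ifs with h
  · rfl
  · rw [Finset.mem_range, not_lt] at h
    exact (hm _ (by omega)).symm

end poly

section split

variable {O : Type*} [CommRing O] {f : O[X]} {g : ℕ} (hd : f.natDegree = 2 * g + 1)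

theorem jL_re_coeff (z : QA f) (i : ℕ) : (jL hd z).re.coeff (-(i : ℤ)) = z.re.coeff i := by
  rw [jL_re, iN_coeff]

theorem jL_im_coeff (z : QA f) (i : ℕ) :
    (jL hd z).im.coeff (-((i + (g + 1) : ℕ) : ℤ)) = z.im.coeff i := by
  rw [jL_im, ti_pow, HahnSeries.coeff_single_mul, one_mul]
  have e : -((i + (g + 1) : ℕ) : ℤ) - -((g + 1 : ℕ) : ℤ) = -(i : ℤ) := by push_cast; ring
  rw [e, iN_coeff]

/-- The polynomial part. -/
theorem split (z : LL f) : ∃ a : QA f, Pl (2 * g) (z - jL hd a) := by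
  obtain ⟨p, hp⟩ := exists_part z.re
  obtain ⟨p', hp'⟩ := exists_part (tt O ^ (g + 1) * z.im)
  refine ⟨⟨p, p'⟩, fun n hn => ?_, fun n hn => ?_⟩
  · obtain ⟨i, rfl⟩ : ∃ i : ℕ, n = -(i : ℤ) := ⟨(-n).toNat, by omega⟩
    rw [QuadraticAlgebra.re_sub, HahnSeries.coeff_sub, jL_re_coeff, hp, sub_self]
  · obtain ⟨i, rfl⟩ : ∃ i : ℕ, n = -((i + (g + 1) : ℕ) : ℤ) := ⟨(-n - (g + 1)).toNat, by omega⟩
    rw [QuadraticAlgebra.im_sub, HahnSeries.coeff_sub, jL_im_coeff, hp', tt_pow,
      HahnSeries.coeff_single_mul, one_mul]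
    have e : -(i : ℤ) - ((g + 1 : ℕ) : ℤ) = -((i + (g + 1) : ℕ) : ℤ) := by push_cast; ring
    rw [e, sub_self]

/-- The degrees of the functions with bounded poles. -/
theorem Pl.deg {z : QA f} {m : ℤ} (h : Pl m (jL hd z)) :
    (∀ i : ℕ, m < 2 * i → z.re.coeff i = 0) ∧ ∀ i : ℕ, m < 2 * i + 2 * g + 1 → z.im.coeff i = 0 := by
  constructor
  · intro i hi
    rw [← jL_re_coeff hd]
    exact h.1 _ (by omega)
  · intro i hi
    rw [← jL_im_coeff hd]
    exact h.2 _ (by push_cast; omega)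

theorem Pl.of_deg {z : QA f} {m : ℤ} (h1 : ∀ i : ℕ, m < 2 * i → z.re.coeff i = 0)
    (h2 : ∀ i : ℕ, m < 2 * i + 2 * g + 1 → z.im.coeff i = 0) (hm : 0 ≤ m) : Pl m (jL hd z) := by
  constructor
  · intro n hn
    obtain ⟨i, rfl⟩ : ∃ i : ℕ, n = -(i : ℤ) := ⟨(-n).toNat, by omega⟩
    rw [jL_re_coeff]
    exact h1 i (by omega)
  · intro n hn
    by_cases hn' : n ≤ -((g : ℤ) + 1)
    · obtain ⟨i, rfl⟩ : ∃ i : ℕ, n = -((i + (g + 1) : ℕ) : ℤ) := ⟨(-n - (g + 1)).toNat, by omega⟩
      rw [jL_im_coeff]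
      exact h2 i (by push_cast at hn; omega)
    · rw [jL_im, ti_pow, HahnSeries.coeff_single_mul, one_mul]
      exact iN_coeff_pos _ (by push_cast; omega)

end split

end Pool.Agent.H905.OP
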