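import Pool.Agent.H905.OP.Rel

/-!
# One point: the quotient by an ideal near infinity

Project OP (helper905). Elements of `O[x, y]` with bounded poles which are approximated by the multiples of
the local generator of an ideal `J` are small modulo `J`. If they are congruent to `1`, there is an element
of `J` with a pole of small order.
-/

set_option autoImplicit false

open Polynomial

namespace Pool.Agent.H905.OP

open Pool.Agent.Y723.HJ (CR OddM HF CC mi bar cl nm)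

section trunc

variable {O : Type*} [CommRing O] [IsDomain O] [IsDiscreteValuationRing O] {f : O[X]} {g : ℕ}

theorem trunc {p : O[X]} {d : O} (P : ℕ → Prop) (h : ∀ i, ¬ P i → d ∣ p.coeff i) :
    ∃ p₁ p₂ : O[X], p = p₁ + C d * p₂ ∧ (∀ i, ¬ P i → p₁.coeff i = 0) ∧
      ∀ i, P i → p₁.coeff i = p.coeff i := by
  classical
  set p₁ : O[X] := ∑ i ∈ p.support with P i, monomial i (p.coeff i) with hp₁
  have hc : ∀ i, p₁.coeff i = if P i then p.coeff i else 0 := by
    intro i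
    rw [hp₁, Polynomial.finsetSum_coeff]
    simp only [coeff_monomial]
    rw [Finset.sum_ite_eq' _ i]
    simp only [Finset.mem_filter, mem_support_iff]
    by_cases h1 : p.coeff i = 0
    · simp [h1]
    · simp [h1]
  have h2 : C d ∣ p - p₁ := by
    rw [C_dvd_iff_dvd_coeff]
    intro i
    rw [coeff_sub, hc]
    split_ifs with hi
    · rw [sub_self]
      exact dvd_zero _
    · rw [sub_zero]
      exact h i hi
  obtain ⟨p₂, hp₂⟩ := h2
  exact ⟨p₁, p₂, by rw [← hp₂]; ring, fun i hi => by rw [hc, if_neg hi],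
    fun i hi => by rw [hc, if_pos hi]⟩

theorem step_D (hd : f.natDegree = 2 * g + 1) {ϖ : O} (hϖ : ϖ ≠ 0) {F : QA f} {θ V₁ : LL f}
    {δ r : ℕ} (hq : ∀ n < 1, (qL f).coeff n = 0) (hθ : Pl 0 θ) (hV : Pl δ V₁)
    (h : pL f ϖ ^ (r + 1) ∣ jL hd F - θ * V₁) :
    ∃ (G : QA f) (S : LL f), Pl δ (jL hd G) ∧ G.re.coeff 0 = F.re.coeff 0 ∧ Pl δ S ∧
      jL hd G = θ * V₁ + pL f (ϖ ^ (r + 1)) * S := by
  obtain ⟨S₀, hS₀⟩ := h
  rw [← pL_pow] at hS₀
  have hθV : Pl δ (θ * V₁) := by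
    have := Pl.mul hq hθ hV
    rwa [zero_add] at this
  have hre : ∀ i : ℕ, ¬ 2 * i ≤ δ → ϖ ^ (r + 1) ∣ F.re.coeff i := by
    intro i hi
    have h1 := congrArg (fun z : LL f => z.re.coeff (-(i : ℤ))) hS₀
    simp only [QuadraticAlgebra.re_sub, HahnSeries.coeff_sub, jL_re_coeff] at h1
    rw [hθV.1 _ (by omega), sub_zero, pL, cL, ← Algebra.smul_def, QuadraticAlgebra.re_smul,
      smul_eq_mul, coeff_C_mul'] at h1
    exact ⟨_, h1⟩
  have him : ∀ i : ℕ, ¬ 2 * i + 2 * g + 1 ≤ δ → ϖ ^ (r + 1) ∣ F.im.coeff i := by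
    intro i hi
    have h1 := congrArg (fun z : LL f => z.im.coeff (-((i + (g + 1) : ℕ) : ℤ))) hS₀
    simp only [QuadraticAlgebra.im_sub, HahnSeries.coeff_sub, jL_im_coeff] at h1
    rw [hθV.2 _ (by push_cast; omega), sub_zero, pL, cL, ← Algebra.smul_def,
      QuadraticAlgebra.im_smul, smul_eq_mul, coeff_C_mul'] at h1
    exact ⟨_, h1⟩
  obtain ⟨p₁, p₂, hp, hp1, hp2⟩ := trunc (fun i => 2 * i ≤ δ) hre
  obtain ⟨p₁', p₂', hp', hp1', -⟩ := trunc (fun i => 2 * i + 2 * g + 1 ≤ δ) him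
  have hG : Pl δ (jL hd (⟨p₁, p₁'⟩ : QA f)) :=
    Pl.of_deg hd (fun i hi => hp1 i (by omega)) (fun i hi => hp1' i (by omega))
      (Int.natCast_nonneg _)
  have hF : F = (⟨p₁, p₁'⟩ : QA f) + cA f (C (ϖ ^ (r + 1))) * ⟨p₂, p₂'⟩ := by
    rw [← Algebra.smul_def]
    refine QuadraticAlgebra.ext ?_ ?_
    · rw [QuadraticAlgebra.re_add, QuadraticAlgebra.re_smul, smul_eq_mul]
      exact hp
    · rw [QuadraticAlgebra.im_add, QuadraticAlgebra.im_smul, smul_eq_mul]
      exact hp'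
  have hj : jL hd (⟨p₁, p₁'⟩ : QA f) = θ * V₁ + pL f (ϖ ^ (r + 1)) *
      (S₀ - jL hd (⟨p₂, p₂'⟩ : QA f)) := by
    have h1 := hS₀
    rw [hF, map_add, jL_mul, jL_C] at h1
    linear_combination h1
  refine ⟨⟨p₁, p₁'⟩, S₀ - jL hd (⟨p₂, p₂'⟩ : QA f), hG, ?_, ?_, hj⟩
  · exact hp2 0 (by omega)
  · have h1 : Pl δ (pL f (ϖ ^ (r + 1)) * (S₀ - jL hd (⟨p₂, p₂'⟩ : QA f))) := by
      have e : pL f (ϖ ^ (r + 1)) * (S₀ - jL hd (⟨p₂, p₂'⟩ : QA f)) =
          jL hd (⟨p₁, p₁'⟩ : QA f) - θ * V₁ := by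
        rw [hj]; ring
      rw [e]
      exact hG.sub hθV
    have hϖ' : ϖ ^ (r + 1) ≠ 0 := pow_ne_zero _ hϖ
    constructor
    · intro n hn
      have h2 := h1.1 n hn
      rw [pL, cL, ← Algebra.smul_def, QuadraticAlgebra.re_smul, smul_eq_mul, coeff_C_mul'] at h2
      exact (mul_eq_zero.1 h2).resolve_left hϖ'
    · intro n hn
      have h2 := h1.2 n hn
      rw [pL, cL, ← Algebra.smul_def, QuadraticAlgebra.im_smul, smul_eq_mul, coeff_C_mul'] at h2
      exact (mul_eq_zero.1 h2).resolve_left hϖ'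

theorem Pl.ti {z : LL f} {m : ℤ} (hq : ∀ n < 1, (qL f).coeff n = 0) (hz : Pl m z) (M : ℕ) :
    Pl (2 * M + m) (cL f (ti O ^ M) * z) := by
  refine Pl.mul hq (Pl.coe fun n hn => ?_) hz
  rw [ti_pow]
  exact HahnSeries.coeff_single_of_ne (by omega)

theorem Pl.const {z : LL f} {m : ℤ} (hq : ∀ n < 1, (qL f).coeff n = 0) (hz : Pl m z) (b : O) :
    Pl m (pL f b * z) := by
  have h := Pl.mul hq (Pl.coe (q := qL f) (m := 0) (r := HahnSeries.C b) fun n hn => by
    rw [HahnSeries.C_apply]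
    exact HahnSeries.coeff_single_of_ne (by omega)) hz
  rwa [zero_add] at h

theorem step_E (hd : f.natDegree = 2 * g + 1) {b : O} {G v : QA f} {β S : LL f}
    {δ m : ℕ} (hq : ∀ n < 1, (qL f).coeff n = 0) (hS : Pl δ S) (hv : Pl m (jL hd v))
    (h : jL hd G = β * jL hd v + pL f b * S) (M : ℕ) :
    ∃ a p s : QA f, cA f (X ^ M) * G = a * v + p + cA f (C b) * s ∧
      Pl (2 * g + m : ℤ) (jL hd p) ∧ Pl (2 * M + δ + 2 * g : ℤ) (jL hd s) := by
  obtain ⟨a, ha⟩ := split hd (cL f (ti O ^ M) * β)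
  obtain ⟨s, hs⟩ := split hd (cL f (ti O ^ M) * S)
  refine ⟨a, cA f (X ^ M) * G - a * v - cA f (C b) * s, s, by ring, ?_, ?_⟩
  · have e : jL hd (cA f (X ^ M) * G - a * v - cA f (C b) * s) =
        (cL f (ti O ^ M) * β - jL hd a) * jL hd v +
          pL f b * (cL f (ti O ^ M) * S - jL hd s) := by
      rw [map_sub, map_sub, jL_mul, jL_mul, jL_mul, jL_X, jL_C, h]
      ring
    rw [e]
    refine Pl.add ?_ ?_
    · exact Pl.mul hq ha hv
    · exact (Pl.const hq hs b).mono (by omega)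
  · have e : jL hd s = cL f (ti O ^ M) * S - (cL f (ti O ^ M) * S - jL hd s) := by ring
    rw [e]
    refine Pl.sub ?_ ?_
    · exact (Pl.ti hq hS M).mono (by omega)
    · exact hs.mono (by omega)

end trunc

section quo

variable {O : Type*} [CommRing O] [IsDomain O] [IsDiscreteValuationRing O]
variable {k : Type*} [Field k] [Algebra O k] [IsFractionRing O k] {f : O[X]} {g : ℕ}

/-- The functions with a pole of order at most `δ`. -/
def UU (k : Type*) [Field k] (g δ : ℕ) (F : k[X]) : Submodule k (CR F) where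
  carrier := {z | (∀ i : ℕ, δ < 2 * i → z.re.coeff i = 0) ∧
    ∀ i : ℕ, δ < 2 * i + 2 * g + 1 → z.im.coeff i = 0}
  zero_mem' := ⟨fun i _ => by rw [QuadraticAlgebra.re_zero, coeff_zero],
    fun i _ => by rw [QuadraticAlgebra.im_zero, coeff_zero]⟩
  add_mem' := by
    rintro z w ⟨h1, h2⟩ ⟨h3, h4⟩
    refine ⟨fun i hi => ?_, fun i hi => ?_⟩
    · rw [QuadraticAlgebra.re_add, coeff_add, h1 i hi, h3 i hi, add_zero]
    · rw [QuadraticAlgebra.im_add, coeff_add, h2 i hi, h4 i hi, add_zero]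
  smul_mem' := by
    rintro c z ⟨h1, h2⟩
    refine ⟨fun i hi => ?_, fun i hi => ?_⟩
    · rw [QuadraticAlgebra.re_smul, coeff_smul, h1 i hi, smul_zero]
    · rw [QuadraticAlgebra.im_smul, coeff_smul, h2 i hi, smul_zero]

/-- The constant coefficient as a functional modulo `J`. -/
theorem exists_func {F : k[X]} {g δ : ℕ} (J : Ideal (CR F))
    (h : ∀ z ∈ UU k g δ F, z ∈ J → z = 0) :
    ∃ φ : CR F ⧸ J →ₗ[k] k, ∀ z ∈ UU k g δ F, φ (Ideal.Quotient.mk J z) = z.re.coeff 0 := by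
  set π : CR F →ₗ[k] CR F ⧸ J := (Ideal.Quotient.mkₐ k J).toLinearMap with hπ
  have hinj : LinearMap.ker (π.domRestrict (UU k g δ F)) = ⊥ := by
    rw [LinearMap.ker_eq_bot']
    rintro ⟨z, hz⟩ hz'
    rw [Submodule.mk_eq_zero]
    apply h z hz
    exact Ideal.Quotient.eq_zero_iff_mem.1 hz'
  obtain ⟨ψ, hψ⟩ := LinearMap.exists_leftInverse_of_injective _ hinj
  let φ₀ : CR F →ₗ[k] k :=
    { toFun := fun z => z.re.coeff 0
      map_add' := fun z w => by rw [QuadraticAlgebra.re_add, coeff_add]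
      map_smul' := fun c z => by rw [QuadraticAlgebra.re_smul, coeff_smul]; rfl }
  refine ⟨φ₀ ∘ₗ (UU k g δ F).subtype ∘ₗ ψ, fun z hz => ?_⟩
  have h1 := LinearMap.congr_fun hψ ⟨z, hz⟩
  have h2 : ψ (Ideal.Quotient.mk J z) = ⟨z, hz⟩ := h1
  rw [LinearMap.comp_apply, LinearMap.comp_apply, h2]
  rfl

theorem exists_den {ϖ : O} (hϖ : Irreducible ϖ) (w : ℕ → k) (D : ℕ) :
    ∃ s : ℕ, ∀ j < D, ∃ o : O, algebraMap O k (ϖ ^ s) * w j = algebraMap O k o := by
  induction D with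
  | zero => exact ⟨0, fun j hj => absurd hj (Nat.not_lt_zero j)⟩
  | succ D ih =>
    obtain ⟨s, hs⟩ := ih
    obtain ⟨a, b, hb, hab⟩ := IsFractionRing.div_surjective (A := O) (w D)
    have hb0 : b ≠ 0 := nonZeroDivisors.ne_zero hb
    obtain ⟨t, u, hu⟩ := IsDiscreteValuationRing.eq_unit_mul_pow_irreducible hb0 hϖ
    have hbk : algebraMap O k b ≠ 0 := by rwa [Ne, FaithfulSMul.algebraMap_eq_zero_iff]
    have h1 : algebraMap O k (ϖ ^ t) * w D = algebraMap O k (((u⁻¹ : Oˣ) : O) * a) := by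
      rw [← hab, mul_div_assoc', div_eq_iff hbk, ← map_mul, ← map_mul]
      congr 1
      rw [hu]
      have : ((u⁻¹ : Oˣ) : O) * (u : O) = 1 := Units.inv_mul u
      linear_combination (-(ϖ ^ t * a)) * this
    refine ⟨s + t, fun j hj => ?_⟩
    rcases Nat.lt_succ_iff_lt_or_eq.1 hj with h | rfl
    · obtain ⟨o, ho⟩ := hs j h
      refine ⟨ϖ ^ t * o, ?_⟩
      rw [pow_add, map_mul, map_mul, ← ho]
      ring
    · refine ⟨ϖ ^ s * (((u⁻¹ : Oˣ) : O) * a), ?_⟩
      rw [pow_add, map_mul, map_mul, ← h1]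
      ring

/-- The main estimate. -/
theorem step_F {ϖ : O} (hϖ : Irreducible ϖ) {J : Ideal (CR (fK k f))} {Φ : O[X]}
    (hΦ : rX O Φ = 1) (hmem : jA k f (cA f Φ) ∈ J) (φ : CR (fK k f) ⧸ J →ₗ[k] k) (c : ℕ) :
    ∃ s : ℕ, ∀ G : QA f, (∀ M : ℕ, ∃ a p t : QA f, jA k f a ∈ J ∧
      cA f (X ^ M) * G = a + p + cA f (C (ϖ ^ (s + 1))) * t ∧
      (p.re.natDegree ≤ c ∧ p.im.natDegree ≤ c) ∧
      (t.re.natDegree ≤ M + c ∧ t.im.natDegree ≤ M + c)) →
      ∃ o : O, φ (Ideal.Quotient.mk J (jA k f G)) = algebraMap O k (ϖ * o) := by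
  set π : CR (fK k f) →+* CR (fK k f) ⧸ J := Ideal.Quotient.mk J with hπ
  set eX : O[X] →+* CR (fK k f) ⧸ J := (π.comp (jA k f)).comp (algebraMap O[X] (QA f)) with heX
  set eO : O →+* CR (fK k f) ⧸ J := eX.comp C with heO
  have heXv : ∀ p : O[X], eX p = eval₂ eO (eX X) p := by
    intro p
    have : eX = eval₂RingHom eO (eX X) := by
      refine Polynomial.ringHom_ext (fun r => ?_) ?_
      · rw [coe_eval₂RingHom, eval₂_C]
        rfl
      · rw [coe_eval₂RingHom, eval₂_X]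
    conv_lhs => rw [this]
    rfl
  have hsm : ∀ (b : O) (z : CR (fK k f) ⧸ J), φ (eO b * z) = algebraMap O k b * φ z := by
    intro b z
    have h1 : eO b = algebraMap k (CR (fK k f) ⧸ J) (algebraMap O k b) := by
      show π (jA k f (cA f (C b))) = _
      rw [jA_c, map_C]
      rfl
    rw [h1, ← Algebra.smul_def, map_smul, smul_eq_mul]
  -- the inverse of `x`
  have hΦ0 : ¬ ϖ ∣ Φ.coeff 0 := by
    intro h0
    have h1 := congrArg (fun p => p.coeff 0) hΦ
    simp only [coe_mapRingHom, coeff_map, coeff_one_zero] at h1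
    rw [(res_eq hϖ _).2 h0] at h1
    exact zero_ne_one h1
  have hΦu : IsUnit (Φ.coeff 0) := by
    by_contra hu
    apply hΦ0
    have : Φ.coeff 0 ∈ IsLocalRing.maximalIdeal O := (IsLocalRing.mem_maximalIdeal _).2 hu
    rwa [hϖ.maximalIdeal_eq, Ideal.mem_span_singleton] at this
  obtain ⟨u, hu⟩ := hΦu.exists_left_inv
  have hΦz : eX Φ = 0 := Ideal.Quotient.eq_zero_iff_mem.2 hmem
  set x : CR (fK k f) ⧸ J := eX X with hx
  set τ : CR (fK k f) ⧸ J := -eX (C u * divX Φ) with hτ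
  have hxτ : x * τ = 1 := by
    have h1 : eX (divX Φ) * x + eX (C (Φ.coeff 0)) = 0 := by
      rw [← map_mul, ← map_add, divX_mul_X_add, hΦz]
    have h2 : eX (C u) * eX (C (Φ.coeff 0)) = 1 := by
      rw [← map_mul, ← C_mul, hu, C_1, map_one]
    rw [hτ, map_mul]
    linear_combination h2 - eX (C u) * h1
  let _ : Invertible x := ⟨τ, by rw [mul_comm, hxτ], hxτ⟩
  set eT : O[X] →+* CR (fK k f) ⧸ J := eval₂RingHom eO τ with heT
  have hrefl : ∀ (p : O[X]) (N : ℕ), p.natDegree ≤ N → eX p = eT (reflect N p) * x ^ N := by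
    intro p N hN
    rw [heXv]
    exact (eval₂_reflect_mul_pow eO x N p hN).symm
  -- the relation for `τ`
  set D := Φ.natDegree with hD
  have hΨ : C ϖ ∣ reflect D Φ - C (Φ.coeff 0) * X ^ D := by
    rw [C_dvd_iff_dvd_coeff]
    intro i
    rw [coeff_sub, coeff_reflect, coeff_C_mul, coeff_X_pow]
    by_cases hi : i ≤ D
    · rw [revAt_le hi]
      by_cases hi' : i = D
      · rw [if_pos hi', mul_one, hi', Nat.sub_self, sub_self]
        exact dvd_zero _
      · rw [if_neg hi', mul_zero, sub_zero, ← res_eq hϖ]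
        have h1 := congrArg (fun p => p.coeff (D - i)) hΦ
        simp only [coe_mapRingHom, coeff_map] at h1
        rw [h1, coeff_one, if_neg (by omega)]
    · rw [revAt_eq_self_of_lt (not_le.1 hi), if_neg (by omega), mul_zero, sub_zero,
        coeff_eq_zero_of_natDegree_lt (not_le.1 hi)]
      exact dvd_zero _
  obtain ⟨α, hα⟩ := hΨ
  have hTΨ : eT (reflect D Φ) = 0 := by
    have h1 := hrefl Φ D le_rfl
    rw [hΦz] at h1
    have h2 : (eT (reflect D Φ) * x ^ D) * τ ^ D = 0 := by rw [← h1, zero_mul]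
    rwa [mul_assoc, ← mul_pow, hxτ, one_pow, mul_one] at h2
  set μ : O[X] := C u * reflect D Φ with hμ
  have hμm : μ.Monic := by
    apply monic_of_natDegree_le_of_coeff_eq_one D
    · refine (natDegree_C_mul_le _ _).trans ?_
      refine natDegree_reflect_le.trans ?_
      rw [max_self]
    · rw [hμ, coeff_C_mul, coeff_reflect, revAt_le le_rfl, Nat.sub_self, hu]
  have hμd : μ.natDegree ≤ D := by
    refine (natDegree_C_mul_le _ _).trans ?_
    refine natDegree_reflect_le.trans ?_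
    rw [max_self]
  have hμ0 : eT μ = 0 := by rw [hμ, map_mul, hTΨ, mul_zero]
  have hTτ : τ ^ D = eO ϖ * eT (-(C u * α)) := by
    have h1 : X ^ D = μ - C ϖ * (C u * α) := by
      have h2 : C u * C (Φ.coeff 0) = (1 : O[X]) := by rw [← C_mul, hu, C_1]
      rw [hμ]
      linear_combination (-(C u)) * hα - (X ^ D) * h2
    have h3 : eT (X ^ D) = τ ^ D := by
      rw [map_pow, heT, coe_eval₂RingHom, eval₂_X]
    have h4 : eT (C ϖ) = eO ϖ := by rw [heT, coe_eval₂RingHom, eval₂_C]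
    rw [← h3, h1, map_sub, hμ0, map_mul, h4, map_neg]
    ring
  set y : CR (fK k f) ⧸ J := π ⟨0, 1⟩ with hy
  -- denominators
  obtain ⟨s₁, hs₁⟩ := exists_den hϖ (fun j => φ (x ^ c * τ ^ j)) D
  obtain ⟨s₂, hs₂⟩ := exists_den hϖ (fun j => φ (x ^ c * (τ ^ j * y))) D
  have hbnd : ∀ (w : CR (fK k f) ⧸ J) (s : ℕ),
      (∀ j < D, ∃ o : O, algebraMap O k (ϖ ^ s) * φ (x ^ c * (τ ^ j * w)) = algebraMap O k o) →
      ∀ p : O[X], ∃ o : O, algebraMap O k (ϖ ^ s) * φ (x ^ c * (eT p * w)) = algebraMap O k o := by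
    intro w s hs p
    have h1 : eT p = eT (p %ₘ μ) := by
      conv_lhs => rw [← modByMonic_add_div p μ]
      rw [map_add, map_mul, hμ0, zero_mul, add_zero]
    have hcoef : ∀ j, D ≤ j → (p %ₘ μ).coeff j = 0 := by
      intro j hj
      apply coeff_eq_zero_of_degree_lt
      by_cases hμ1 : μ = 1
      · rw [hμ1, modByMonic_one, degree_zero]
        exact WithBot.bot_lt_coe _
      · refine (degree_modByMonic_lt p hμm).trans_le ?_
        rw [degree_eq_natDegree hμm.ne_zero]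
        exact_mod_cast hμd.trans hj
    have h2 : p %ₘ μ = ∑ j ∈ Finset.range D, C ((p %ₘ μ).coeff j) * X ^ j := by
      ext i
      rw [Polynomial.finsetSum_coeff]
      simp only [coeff_C_mul, coeff_X_pow, mul_ite, mul_one, mul_zero]
      rw [Finset.sum_ite_eq (Finset.range D) i]
      split_ifs with hi
      · rfl
      · rw [Finset.mem_range, not_lt] at hi
        exact hcoef i hi
    have h3 : φ (x ^ c * (eT p * w)) = ∑ j ∈ Finset.range D,
        algebraMap O k ((p %ₘ μ).coeff j) * φ (x ^ c * (τ ^ j * w)) := by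
      rw [h1]
      conv_lhs => rw [h2]
      rw [map_sum, Finset.sum_mul, Finset.mul_sum, map_sum]
      refine Finset.sum_congr rfl fun j _ => ?_
      rw [← hsm]
      congr 1
      rw [map_mul, map_pow, heT, coe_eval₂RingHom, eval₂_C, eval₂_X]
      ring
    rw [h3, Finset.mul_sum]
    choose! o ho using hs
    refine ⟨∑ j ∈ Finset.range D, (p %ₘ μ).coeff j * o j, ?_⟩
    rw [map_sum]
    refine Finset.sum_congr rfl fun j hj => ?_
    rw [(algebraMap O k).map_mul, ← ho j (Finset.mem_range.1 hj)]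
    ring
  refine ⟨s₁ + s₂, fun G hG => ?_⟩
  set s := s₁ + s₂ with hs
  obtain ⟨a, p, t, haJ, hE, ⟨hp1, hp2⟩, ht1, ht2⟩ := hG (D * (s + 1))
  set M := D * (s + 1) with hM
  have hsplit : ∀ z : QA f, π (jA k f z) = eX z.re + eX z.im * y := by
    intro z
    have e : z = cA f z.re + cA f z.im * ⟨0, 1⟩ := by
      rw [← Algebra.smul_def]
      refine QuadraticAlgebra.ext ?_ ?_
      · rw [QuadraticAlgebra.re_add, QuadraticAlgebra.algebraMap_re, QuadraticAlgebra.re_smul,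
          smul_zero, add_zero]
      · rw [QuadraticAlgebra.im_add, QuadraticAlgebra.algebraMap_im, QuadraticAlgebra.im_smul,
          smul_eq_mul, mul_one, zero_add]
    conv_lhs => rw [e]
    rw [map_add, map_mul, map_add, map_mul]
    congr 2
    rw [hy]
    congr 1
    refine QuadraticAlgebra.ext ?_ ?_
    · rw [jA_re]
      exact Polynomial.map_zero _
    · rw [jA_im]
      exact Polynomial.map_one _
  have hG1 : x ^ M * π (jA k f G) = π (jA k f p) + eO (ϖ ^ (s + 1)) * π (jA k f t) := by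
    have h1 := congrArg (fun z => π (jA k f z)) hE
    simp only [map_add, map_mul] at h1
    have h2 : π (jA k f a) = 0 := Ideal.Quotient.eq_zero_iff_mem.2 haJ
    rw [h2, zero_add] at h1
    have h3 : x ^ M = π (jA k f (cA f (X ^ M))) := by
      rw [hx, ← map_pow]
      rfl
    rw [h3, h1]
    rfl
  have hτx : ∀ n : ℕ, τ ^ n * x ^ n = 1 := by
    intro n
    rw [← mul_pow, mul_comm τ, hxτ, one_pow]
  set β : O[X] := (-(C u * α)) ^ (s + 1) with hβ
  have hτM : τ ^ M = eO (ϖ ^ (s + 1)) * eT β := by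
    rw [hM, pow_mul, hTτ, mul_pow, hβ, map_pow, map_pow]
  have hG2 : π (jA k f G) = eO (ϖ ^ (s + 1)) * (x ^ c *
      (eT (β * reflect c p.re + reflect (M + c) t.re) * 1) + x ^ c *
      (eT (β * reflect c p.im + reflect (M + c) t.im) * y)) := by
    have h1 : π (jA k f G) = τ ^ M * (x ^ M * π (jA k f G)) := by
      rw [← mul_assoc, hτx, one_mul]
    rw [h1, hG1, hsplit p, hsplit t, hrefl _ _ hp1, hrefl _ _ hp2, hrefl _ _ ht1, hrefl _ _ ht2,
      mul_add, map_add, map_add, map_mul, map_mul, pow_add x M c]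
    have h2 := hτx M
    linear_combination (eT (reflect c p.re) * x ^ c + eT (reflect c p.im) * x ^ c * y) * hτM +
      (eO (ϖ ^ (s + 1)) * x ^ c * (eT (reflect (M + c) t.re) + eT (reflect (M + c) t.im) * y)) * h2
  obtain ⟨o₁, ho₁⟩ := hbnd 1 s₁ (by simpa using hs₁) (β * reflect c p.re + reflect (M + c) t.re)
  obtain ⟨o₂, ho₂⟩ := hbnd y s₂ hs₂ (β * reflect c p.im + reflect (M + c) t.im)
  refine ⟨ϖ ^ s₂ * o₁ + ϖ ^ s₁ * o₂, ?_⟩
  have hϖk : algebraMap O k (ϖ ^ s) ≠ 0 := by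
    rw [Ne, FaithfulSMul.algebraMap_eq_zero_iff]
    exact pow_ne_zero _ hϖ.ne_zero
  apply mul_left_cancel₀ hϖk
  rw [hG2, hsm, φ.map_add]
  have e1 : algebraMap O k (ϖ ^ s) = algebraMap O k (ϖ ^ s₁) * algebraMap O k (ϖ ^ s₂) := by
    rw [hs, pow_add, map_mul]
  have e2 : algebraMap O k (ϖ ^ (s + 1)) = algebraMap O k (ϖ ^ s) * algebraMap O k ϖ := by
    rw [pow_succ, map_mul]
  rw [e2, (algebraMap O k).map_mul ϖ, (algebraMap O k).map_add, (algebraMap O k).map_mul,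
    (algebraMap O k).map_mul, ← ho₁, ← ho₂, e1]
  ring

end quo

end Pool.Agent.H905.OP
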