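import Pool.Agent.H905.OP.Lat
import Mathlib.RingTheory.DiscreteValuationRing.Basic
import Mathlib.RingTheory.LocalRing.ResidueField.Basic
import Mathlib.RingTheory.Polynomial.Content
import Mathlib.RingTheory.Localization.Integral
import Mathlib.Algebra.Polynomial.Derivation
import Mathlib.FieldTheory.Separable

/-!
# One point: regular polynomials

Project OP (helper905). `O` is a discrete valuation ring with uniformizer `ϖ`, `2 ∈ (ϖ)`. If
`f = x h ^ 2 + k ^ 2 + ϖ m` with `m` congruent to `1` modulo `(h, ϖ)` then the scheme `y ^ 2 = f(x)` is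
regular, and for every factorization `s ^ 2 f - a ^ 2 = b c`, `s` congruent to `1`, the factors `b` and `c`
are coprime modulo `ϖ`.
-/

set_option autoImplicit false

open Polynomial

namespace Pool.Agent.H905.OP

theorem nsq_odd {κ : Type*} [Field κ] {f : κ[X]} (hf : Odd f.natDegree) : NSq f := by
  intro u v h
  by_contra hv
  have hf0 : f ≠ 0 := by
    intro h0
    rw [h0, natDegree_zero] at hf
    exact (by decide : ¬ Odd 0) hf
  have h1 := congrArg natDegree h
  rw [natDegree_pow, natDegree_mul hf0 (pow_ne_zero 2 hv), natDegree_pow] at h1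
  obtain ⟨m, hm⟩ := hf
  omega

section

variable {O : Type*} [CommRing O] [IsDomain O] [IsDiscreteValuationRing O]

/-- Reduction of polynomials. -/
noncomputable abbrev rX (O : Type*) [CommRing O] [IsLocalRing O] :
    O[X] →+* (IsLocalRing.ResidueField O)[X] :=
  mapRingHom (IsLocalRing.residue O)

theorem rX_surj : Function.Surjective (rX O) :=
  Polynomial.map_surjective _ IsLocalRing.residue_surjective

theorem res_eq {ϖ : O} (hϖ : Irreducible ϖ) (r : O) : IsLocalRing.residue O r = 0 ↔ ϖ ∣ r := by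
  rw [IsLocalRing.residue_eq_zero_iff, hϖ.maximalIdeal_eq, Ideal.mem_span_singleton]

theorem rX_ker {ϖ : O} (hϖ : Irreducible ϖ) (r : O[X]) : rX O r = 0 ↔ C ϖ ∣ r := by
  rw [coe_mapRingHom, Polynomial.ext_iff, C_dvd_iff_dvd_coeff]
  refine forall_congr' fun n => ?_
  rw [coeff_map, coeff_zero, res_eq hϖ]

/-- The condition for regularity. -/
def Reg {O : Type*} [CommRing O] (ϖ : O) (f : O[X]) : Prop :=
  ∃ h k u v : O[X], f = X * h ^ 2 + k ^ 2 + C ϖ * (1 + u * h + C ϖ * v)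

/-- The factors of `s ^ 2 f - a ^ 2` are coprime. -/
theorem reg_cop {ϖ : O} (hϖ : Irreducible ϖ) (h2 : ϖ ∣ 2) {f : O[X]} (hf : Reg ϖ f)
    {s a b c : O[X]} (hs : rX O s = 1) (he : a ^ 2 + b * c = s ^ 2 * f) :
    IsCoprime (rX O b) (rX O c) := by
  obtain ⟨h, k, u, v, rfl⟩ := hf
  have k2 : (2 : (IsLocalRing.ResidueField O)[X]) = 0 := by
    have h1 : rX O 2 = 0 := by
      rw [rX_ker hϖ]
      obtain ⟨t, ht⟩ := h2
      refine ⟨C t, ?_⟩
      rw [← C_mul, ← ht]
      rfl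
    rwa [map_ofNat] at h1
  by_contra hcop
  obtain ⟨P, hP, hPb, hPc⟩ : ∃ P : (IsLocalRing.ResidueField O)[X], Prime P ∧
      P ∣ rX O b ∧ P ∣ rX O c := by
    by_contra hcon
    push Not at hcon
    by_cases h0 : rX O b = 0 ∧ rX O c = 0
    · refine hcon X prime_X ?_ ?_
      · rw [h0.1]; exact dvd_zero _
      · rw [h0.2]; exact dvd_zero _
    · exact hcop (isCoprime_of_prime_dvd h0 fun z hz h1 => hcon z hz h1)
  obtain ⟨Q, rfl⟩ := rX_surj P
  have hπ0 : rX O (C ϖ) = 0 := (rX_ker hϖ _).2 dvd_rfl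
  have he' : rX O a ^ 2 + rX O b * rX O c = X * rX O h ^ 2 + rX O k ^ 2 := by
    have h1 := congrArg (rX O) he
    simp only [map_add, map_mul, map_pow, hs, one_pow, one_mul, hπ0, zero_mul, add_zero] at h1
    rw [h1, coe_mapRingHom, map_X]
  -- the derivative
  have hh : rX O Q ∣ rX O h := by
    have h1 := congrArg derivative he'
    simp only [derivative_add, derivative_mul, derivative_sq, derivative_X] at h1
    have h3 : (C 2 : (IsLocalRing.ResidueField O)[X]) = 0 := by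
      rw [← k2]; rfl
    rw [h3] at h1
    simp only [zero_mul, mul_zero, zero_add, add_zero, one_mul] at h1
    have h4 : rX O Q ∣ rX O h ^ 2 := by
      rw [← h1]
      exact dvd_add (Dvd.dvd.mul_left hPc _) (Dvd.dvd.mul_right hPb _)
    exact hP.dvd_of_dvd_pow h4
  have hak : rX O Q ∣ rX O (a - s * k) := by
    have h4 : rX O Q ∣ (rX O a - rX O k) ^ 2 := by
      have : (rX O a - rX O k) ^ 2 = X * rX O h ^ 2 - rX O b * rX O c := by
        linear_combination he' + (rX O k ^ 2 - rX O a * rX O k) * k2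
      rw [this]
      exact dvd_sub (Dvd.dvd.mul_left (dvd_pow hh two_ne_zero) _) (Dvd.dvd.mul_left hPc _)
    have h5 := hP.dvd_of_dvd_pow h4
    rwa [map_sub, map_mul, hs, one_mul]
  -- the ideal
  set 𝔪 : Ideal O[X] := Ideal.span {C ϖ, Q} with h𝔪
  have hmem : ∀ z : O[X], rX O Q ∣ rX O z → z ∈ 𝔪 := by
    intro z hz
    obtain ⟨w, hw⟩ := hz
    obtain ⟨w, rfl⟩ := rX_surj w
    rw [← map_mul, ← sub_eq_zero, ← map_sub, rX_ker hϖ] at hw
    obtain ⟨t, ht⟩ := hw
    rw [h𝔪, Ideal.mem_span_pair]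
    exact ⟨t, w, by linear_combination -ht⟩
  have mb := hmem b hPb
  have mc := hmem c hPc
  have mh := hmem h hh
  have mak := hmem _ hak
  have m2 : (2 : O[X]) ∈ 𝔪 := by
    refine hmem 2 ?_
    rw [map_ofNat, k2]
    exact dvd_zero _
  have key : C ϖ * (s ^ 2 * (1 + u * h + C ϖ * v)) ∈ 𝔪 ^ 2 := by
    have e1 : C ϖ * (s ^ 2 * (1 + u * h + C ϖ * v)) =
        b * c - s ^ 2 * X * (h * h) + (a - s * k) * (a - s * k) + s * k * (2 * (a - s * k)) := by
      linear_combination -he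
    rw [e1, pow_two]
    refine Ideal.add_mem _ (Ideal.add_mem _ (Ideal.sub_mem _ (Ideal.mul_mem_mul mb mc) ?_)
      (Ideal.mul_mem_mul mak mak)) ?_
    · exact Ideal.mul_mem_left _ _ (Ideal.mul_mem_mul mh mh)
    · exact Ideal.mul_mem_left _ _ (Ideal.mul_mem_mul m2 mak)
  have hsq : ∀ z ∈ 𝔪 ^ 2, ∃ A B D : O[X], z = C ϖ ^ 2 * A + C ϖ * Q * B + Q ^ 2 * D := by
    intro z hz
    rw [pow_two] at hz
    refine Submodule.mul_induction_on hz ?_ ?_
    · intro m hm n hn
      rw [h𝔪, Ideal.mem_span_pair] at hm hn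
      obtain ⟨a1, b1, rfl⟩ := hm
      obtain ⟨a2, b2, rfl⟩ := hn
      exact ⟨a1 * a2, a1 * b2 + b1 * a2, b1 * b2, by ring⟩
    · rintro x y ⟨A, B, D, rfl⟩ ⟨A', B', D', rfl⟩
      exact ⟨A + A', B + B', D + D', by ring⟩
  obtain ⟨A, B, D, hABD⟩ := hsq _ key
  have hD : rX O D = 0 := by
    have h1 := congrArg (rX O) hABD
    simp only [map_add, map_mul, map_pow, hπ0, zero_mul, zero_add, ne_eq, OfNat.ofNat_ne_zero,
      not_false_eq_true, zero_pow] at h1
    have h3 := (mul_eq_zero.1 h1.symm).resolve_left (pow_ne_zero 2 hP.ne_zero)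
    exact h3
  rw [rX_ker hϖ] at hD
  obtain ⟨D', rfl⟩ := hD
  have hϖ0 : (C ϖ : O[X]) ≠ 0 := by
    rw [Ne, C_eq_zero]
    exact hϖ.ne_zero
  have h5 : s ^ 2 * (1 + u * h + C ϖ * v) = C ϖ * A + Q * B + Q ^ 2 * D' := by
    apply mul_left_cancel₀ hϖ0
    linear_combination hABD
  have h6 := congrArg (rX O) h5
  simp only [map_add, map_mul, map_pow, hs, hπ0, zero_mul, add_zero, zero_add, one_pow, one_mul,
    map_one] at h6
  have h7 : rX O Q ∣ 1 := by
    have e1 : (1 : (IsLocalRing.ResidueField O)[X]) =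
        rX O Q * (rX O B + rX O Q * rX O D') - rX O u * rX O h := by
      linear_combination h6
    rw [e1]
    exact dvd_sub (dvd_mul_right _ _) (Dvd.dvd.mul_left hh _)
  exact hP.not_isUnit (isUnit_of_dvd_one h7)

theorem reg_cop' {ϖ : O} (hϖ : Irreducible ϖ) (h2 : ϖ ∣ 2) {f : O[X]} (hf : Reg ϖ f)
    {s a b c : O[X]} (hs : rX O s = 1) (he : a ^ 2 + b * c = s ^ 2 * f) :
    ∃ α β : O[X], rX O (α * b + β * c) = 1 := by
  obtain ⟨α, β, h⟩ := reg_cop hϖ h2 hf hs he
  obtain ⟨α, rfl⟩ := rX_surj α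
  obtain ⟨β, rfl⟩ := rX_surj β
  exact ⟨α, β, by rw [map_add, map_mul, map_mul, h]⟩

end

/-- The condition is stable under homomorphisms. -/
theorem Reg.map {O O' : Type*} [CommRing O] [CommRing O'] (φ : O →+* O') {ϖ : O} {f : O[X]}
    (h : Reg ϖ f) : Reg (φ ϖ) (f.map φ) := by
  obtain ⟨h, k, u, v, rfl⟩ := h
  refine ⟨h.map φ, k.map φ, u.map φ, v.map φ, ?_⟩
  simp

/-- The condition depends only on the polynomial modulo `ϖ ^ 2`. -/
theorem Reg.congr {O : Type*} [CommRing O] {ϖ : O} {f f' : O[X]} (h : Reg ϖ f)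
    (hc : C (ϖ ^ 2) ∣ f' - f) : Reg ϖ f' := by
  obtain ⟨h, k, u, v, rfl⟩ := h
  obtain ⟨w, hw⟩ := hc
  refine ⟨h, k, u, v + w, ?_⟩
  rw [C_pow] at hw
  linear_combination hw

end Pool.Agent.H905.OP
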