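import Pool.Agent.H905.OP.Pole

/-!
# One point: the relation at infinity

Project OP (helper905). If `E ^ (2 ^ r) J` is principal and both ideals contain polynomials congruent to
`1`, the generator is the product of local generators at infinity and of a unit. The order of the local
generator of `J` in the reduction is at most the degree of `J`.
-/

set_option autoImplicit false

open Polynomial

namespace Pool.Agent.H905.OP

open Pool.Agent.Y723.HJ (CR OddM HF CC mi bar cl nm)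

section rel

variable {O : Type*} [CommRing O] [IsDomain O] [IsDiscreteValuationRing O]
variable {k : Type*} [Field k] [Algebra O k] [IsFractionRing O k] {f : O[X]} {g : ℕ}

/-- The elements of `O[x, y]` congruent to `1` remain so in the expansion. -/
theorem rL_jL_one (hd : f.natDegree = 2 * g + 1) {ϖ : O} (hϖ : Irreducible ϖ) {F : QA f}
    (hF : rA f F = 1) : rL f (jL hd F) = 1 := by
  have h1 : rA f (F - 1) = 0 := by rw [map_sub, hF, map_one, sub_self]
  obtain ⟨F₂, hF₂⟩ := (rA_eq hϖ _).1 h1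
  have h3 : jL hd F = 1 + pL f ϖ * jL hd F₂ := by
    have e : pL f ϖ = jL hd (cA f (C ϖ)) := (jL_C hd ϖ).symm
    rw [e, ← map_mul, ← hF₂, map_sub, map_one]
    ring
  rw [h3, map_add, map_one, map_mul, (rL_eq hϖ _).2 dvd_rfl, zero_mul, add_zero]

theorem rL_jI_ne {W : QA (qi f)} (hW : qm (rX O) (q := qi f) (q' := rX O (qi f)) rfl W ≠ 0) :
    rL f (jI f W) ≠ 0 := by
  intro h0
  apply hW
  have e1 := congrArg QuadraticAlgebra.re h0
  have e2 := congrArg QuadraticAlgebra.im h0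
  rw [rL, qm_re, jI_re, hm_iP] at e1
  rw [rL, qm_im, jI_im, hm_iP] at e2
  refine QuadraticAlgebra.ext ?_ ?_
  · exact iP_inj (e1.trans (map_zero _).symm)
  · exact iP_inj (e2.trans (map_zero _).symm)

theorem relr {ϖ : O} (hϖ : Irreducible ϖ) (h2 : ϖ ∣ 2) (hm : f.Monic)
    (hd : f.natDegree = 2 * g + 1) [HF (fK k f)] {J E : Ideal (CR (fK k f))} {Φ Φ' : O[X]}
    (hΦ : rX O Φ = 1) (hmem : jA k f (cA f Φ) ∈ J)
    {V : QA (qi f)} (hV : V ∈ EI hd J)
    (hVr : qm (rX O) (q := qi f) (q' := rX O (qi f)) rfl V ≠ 0) (hJV : J ≤ KK hd k (jI f V))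
    (hΦ' : rX O Φ' = 1) (hmem' : jA k f (cA f Φ') ∈ E) {r : ℕ} {F : CR (fK k f)}
    (hF : E ^ 2 ^ r * J = Ideal.span {F}) :
    ∃ (F₁ : QA f) (W : QA (qi f)) (υ : LL f), rA f F₁ = 1 ∧
      qm (rX O) (q := qi f) (q' := rX O (qi f)) rfl W ≠ 0 ∧ IsUnit υ ∧
      jL hd F₁ = jI f W ^ 2 ^ r * jI f V * υ := by
  have ho : Odd f.natDegree := by rw [hd]; exact odd_two_mul_add_one g
  have := isDomain_LL hm
  have := isDomain_LL' hm
  have hdA : IsDomain (QA f) := isDomain_of (nsq_O ho)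
  have hdk : IsDomain (QA (rX O f)) := isDomain_of (nsq_red hm ho)
  have hodd := oddM_red hm ho
  set t : QA f := cA f (Φ' ^ 2 ^ r * Φ) with ht
  have hrt : rA f t = 1 := by
    rw [ht, rA_c, map_mul, map_pow, hΦ', hΦ, one_pow, one_mul, map_one]
  have htF : jA k f t ∈ Ideal.span {F} := by
    rw [← hF, ht, cA_mul, cA_pow, map_mul, map_pow]
    exact Ideal.mul_mem_mul (Ideal.pow_mem_pow hmem' _) hmem
  obtain ⟨G, hG⟩ := Ideal.mem_span_singleton'.1 htF
  obtain ⟨c, c', F', G', hcc, hF', hG', hFG'⟩ := gauss hϖ hm ho (t := t) (by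
    rw [hrt]; exact one_ne_zero) (show F * G = jA k f t by rw [← hG, mul_comm])
  have hunit : IsUnit (rA f F') := by
    apply IsUnit.of_mul_eq_one (rA f G')
    rw [← map_mul, hFG', hrt]
  obtain ⟨cb, hcb, hF'c⟩ := Pool.Agent.Y723.HJ.unit_const hunit
  obtain ⟨e, he⟩ := IsLocalRing.residue_surjective (R := O) cb⁻¹
  have heu : IsUnit e := by
    rw [← IsLocalRing.residue_ne_zero_iff_isUnit, he]
    exact inv_ne_zero hcb
  obtain ⟨F₁, hF₁⟩ : ∃ F₁ : QA f, F₁ = cA f (C e) * F' := ⟨_, rfl⟩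
  have hrF₁ : rA f F₁ = 1 := by
    rw [hF₁, map_mul, rA_c, hF'c, coe_mapRingHom, map_C, he, ← map_mul, ← C_mul,
      inv_mul_cancel₀ hcb, C_1, map_one]
  have hc0 : c ≠ 0 := left_ne_zero_of_mul (hcc.trans_ne one_ne_zero)
  have hEQ : E ^ 2 ^ r * J = Ideal.span {jA k f F₁} := by
    rw [hF, hF₁, map_mul, hF', ← mul_assoc]
    refine (Ideal.span_singleton_eq_span_singleton.2 ?_)
    refine (associated_unit_mul_left F _ ?_).symm
    refine (unit_c heu.ne_zero).mul ?_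
    exact IsUnit.map _ (isUnit_C.2 (isUnit_iff_ne_zero.2 hc0))
  -- the generator at infinity
  obtain ⟨W, ⟨m₁, e₁, he₁, he₁'⟩, hWr, σ, hσ, hall⟩ := exists_W hd hϖ h2 hm hΦ' hmem'
  have hEW := le_KK hd hσ hall
  obtain ⟨m₂, p₀, hp₀J, hp₀L⟩ := hV
  have hα : jA k f (e₁ ^ 2 ^ r * p₀) ∈ Ideal.span {jA k f F₁} := by
    rw [← hEQ, map_mul, map_pow]
    exact Ideal.mul_mem_mul (Ideal.pow_mem_pow he₁ _) hp₀J
  obtain ⟨G₁, hG₁⟩ := Ideal.mem_span_singleton'.1 hα
  obtain ⟨b₁, hb₁, g₁, hg₁⟩ := clear G₁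
  have hα' : g₁ * F₁ = cA f (C b₁) * (e₁ ^ 2 ^ r * p₀) := by
    apply jA_inj (k := k)
    rw [map_mul, hg₁, map_mul, ← hG₁]
    ring
  have hβ : jA k f F₁ ∈ KK hd k (jI f W ^ 2 ^ r * jI f V) := by
    have h3 : E ^ 2 ^ r * J ≤ KK hd k (jI f W ^ 2 ^ r * jI f V) :=
      (Ideal.mul_mono (KK_pow hd hEW _) hJV).trans (KK_mul hd _ _)
    apply h3
    rw [hEQ]
    exact Ideal.mem_span_singleton_self _
  obtain ⟨b₂, hb₂, a₂, ha₂, y, hy⟩ := hβ
  have ha₂' : a₂ = cA f (C b₂) * F₁ := by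
    apply jA_inj (k := k)
    rw [ha₂, map_mul]
  set Ω : LL f := jI f W ^ 2 ^ r * jI f V with hΩ
  have h5 : jL hd g₁ * jL hd F₁ = pL f b₁ * (cL f (ti O ^ m₁) ^ 2 ^ r * cL f (ti O ^ m₂)) * Ω := by
    rw [← map_mul, hα', map_mul, map_mul, map_pow, he₁', hp₀L, jL_C, hΩ]
    ring
  have h6 : pL f b₂ * jL hd F₁ = Ω * y := by
    rw [← hy, ha₂', map_mul, jL_C]
  have hτ : IsUnit (cL f (ti O ^ m₁) ^ 2 ^ r * cL f (ti O ^ m₂)) :=
    ((isUnit_cL (isUnit_ti.pow _)).pow _).mul (isUnit_cL (isUnit_ti.pow _))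
  have hrF : rL f (jL hd F₁) ≠ 0 := by
    rw [rL_jL_one hd hϖ hrF₁]
    exact one_ne_zero
  have hrΩ : rL f Ω ≠ 0 := by
    rw [hΩ, map_mul, map_pow]
    exact mul_ne_zero (pow_ne_zero _ (rL_jI_ne hWr)) (rL_jI_ne hVr)
  obtain ⟨υ, hυ, hprod⟩ := product hϖ hm hd hrF hrΩ hb₁ hb₂ hτ h5 h6
  exact ⟨F₁, W, υ, hrF₁, hWr, hυ, hprod⟩

/-- The approximation of the function by a unit times a fixed element. -/
theorem approx {ϖ : O} (hϖ : Irreducible ϖ) (h2 : ϖ ∣ 2) (hm : f.Monic)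
    (hd : f.natDegree = 2 * g + 1) {V W : QA (qi f)}
    (hW : qm (rX O) (q := qi f) (q' := rX O (qi f)) rfl W ≠ 0) {ν νi : LL f} (hν : ν * νi = 1)
    (hν' : rL f ν = rL f (jI f V)) {υ : LL f} (hυ : IsUnit υ) {r : ℕ} {F : QA f}
    (hF : rA f F = 1) (h : jL hd F = jI f W ^ 2 ^ r * jI f V * υ) :
    ∃ θ : LL f, Pl 0 θ ∧ pL f ϖ ^ (r + 1) ∣ jL hd F - θ * (jI f V * νi) := by
  have := isDomain_LL hm
  have := isDomain_LL' hm
  have hu : ∀ x : O, IsLocalRing.residue O x ≠ 0 → IsUnit x := by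
    intro x hx
    rwa [IsLocalRing.residue_ne_zero_iff_isUnit] at hx
  have hu' : ∀ x : O, IsUnit x → IsLocalRing.residue O x ≠ 0 := by
    intro x hx
    rwa [IsLocalRing.residue_ne_zero_iff_isUnit]
  obtain ⟨ω₀, hω₀, hω₀'⟩ := lift_unit (ρ := IsLocalRing.residue O) (q := qL f) rfl
    IsLocalRing.residue_surjective hu (ord1_qL hm) (rL_jI_ne hW)
  have hνu : IsUnit ν := .of_mul_eq_one _ hν
  set θ : LL f := ω₀ ^ 2 ^ r * ν * υ with hθ
  have hθu : IsUnit θ := ((hω₀.pow _).mul hνu).mul hυ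
  have hrθ : rL f θ = 1 := by
    rw [hθ, map_mul, map_mul, map_pow, show rL f ω₀ = rL f (jI f W) from hω₀', ← map_pow, hν',
      ← map_mul, ← map_mul, ← h, rL_jL_one hd hϖ hF]
  obtain ⟨-, hre, him⟩ := unit_one (ρ := IsLocalRing.residue O) (q := qL f) rfl hu'
    (ord1_qL hm) hθu hrθ
  have hpow : pL f ϖ ^ (r + 1) ∣ jI f W ^ 2 ^ r - ω₀ ^ 2 ^ r := by
    apply pow_cong
    · obtain ⟨c, hc⟩ := h2
      refine ⟨pL f c, ?_⟩
      rw [← pL_mul, ← hc, pL, map_ofNat, cL, map_ofNat]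
    · rw [← rL_eq hϖ, map_sub, show rL f ω₀ = rL f (jI f W) from hω₀', sub_self]
  refine ⟨θ, ⟨fun n hn => hre n (by omega), fun n hn => him n (by omega)⟩, ?_⟩
  obtain ⟨δ, hδ⟩ := hpow
  refine ⟨δ * jI f V * υ, ?_⟩
  rw [h, hθ]
  linear_combination (jI f V * υ) * hδ - ω₀ ^ 2 ^ r * υ * jI f V * hν

/-- The polynomial which generates the norm. -/
theorem nrm_gen {ϖ : O} (hϖ : Irreducible ϖ) (hm : f.Monic) (ho : Odd f.natDegree)
    [HF (fK k f)] {J : Ideal (CR (fK k f))} (hJ : J ≠ ⊥) {Φ : O[X]} (hΦ : rX O Φ = 1)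
    (hmem : jA k f (cA f Φ) ∈ J) :
    ∃ (n : O[X]) (c : k) (cb : IsLocalRing.ResidueField O), cb ≠ 0 ∧
      n.map (algebraMap O k) = C c * nm J ∧ rX O n = C cb ∧ n.natDegree = (nm J).natDegree ∧
      jA k f (cA f n) ∈ J * bar J := by
  have hdA : IsDomain (QA f) := isDomain_of (nsq_O ho)
  have hdk : IsDomain (QA (rX O f)) := isDomain_of (nsq_red hm ho)
  have hodd := oddM_red hm ho
  obtain ⟨hnm, hspec⟩ := Pool.Agent.Y723.HJ.nm_spec hJ
  have hmem' : jA k f (cA f Φ) ∈ bar J := by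
    have h1 : (starRingEnd (CR (fK k f))) (jA k f (cA f Φ)) ∈ bar J := Ideal.mem_map_of_mem _ hmem
    have h2 : (starRingEnd (CR (fK k f))) (jA k f (cA f Φ)) = jA k f (cA f Φ) := by
      rw [jA_c]
      exact Pool.Agent.Y723.HJ.star_CC _
    rwa [h2] at h1
  set t : QA f := cA f (Φ * Φ) with ht
  have hrt : rA f t = 1 := by
    rw [ht, rA_c, map_mul, hΦ, one_mul, map_one]
  have htF : jA k f t ∈ Ideal.span {CC (fK k f) (nm J)} := by
    rw [← hspec, ht, cA_mul, map_mul]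
    exact Ideal.mul_mem_mul hmem hmem'
  obtain ⟨G, hG⟩ := Ideal.mem_span_singleton'.1 htF
  obtain ⟨c, c', F', G', hcc, hF', hG', hFG'⟩ := gauss hϖ hm ho (t := t) (by
    rw [hrt]; exact one_ne_zero) (show CC (fK k f) (nm J) * G = jA k f t by rw [← hG, mul_comm])
  have hunit : IsUnit (rA f F') := by
    apply IsUnit.of_mul_eq_one (rA f G')
    rw [← map_mul, hFG', hrt]
  obtain ⟨cb, hcb, hF'c⟩ := Pool.Agent.Y723.HJ.unit_const hunit
  have hc0 : c ≠ 0 := left_ne_zero_of_mul (hcc.trans_ne one_ne_zero)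
  have hF'' : jA k f F' = CC (fK k f) (C c * nm J) := by
    rw [hF', ← map_mul]
  have h1 : F'.re.map (algebraMap O k) = C c * nm J := congrArg QuadraticAlgebra.re hF''
  have h2 : F' = cA f F'.re := by
    refine QuadraticAlgebra.ext rfl ?_
    have h3 := congrArg QuadraticAlgebra.im hF''
    apply Polynomial.map_injective _ (IsFractionRing.injective O k)
    rw [jA_im] at h3
    rw [h3]
    exact (Polynomial.map_zero _).symm
  refine ⟨F'.re, c, cb, hcb, h1, congrArg QuadraticAlgebra.re hF'c, ?_, ?_⟩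
  · rw [← natDegree_map_eq_of_injective (IsFractionRing.injective O k) F'.re, h1,
      natDegree_C_mul hc0]
  · rw [← h2, hF', hspec]
    exact Ideal.mul_mem_left _ _ (Ideal.mem_span_singleton_self _)

/-- Constants can be cancelled. -/
theorem dvd_prim {ϖ : O} (hϖ : Irreducible ϖ) {N x : LS O} {b : O} (hb : b ≠ 0)
    (hN : hm (IsLocalRing.residue O) N ≠ 0) (h : N ∣ HahnSeries.C b * x) : N ∣ x := by
  obtain ⟨s, u, hu⟩ := IsDiscreteValuationRing.eq_unit_mul_pow_irreducible hb hϖ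
  have key : ∀ s : ℕ, N ∣ HahnSeries.C ϖ ^ s * x → N ∣ x := by
    intro s
    induction s with
    | zero => intro h; rwa [pow_zero, one_mul] at h
    | succ s ih =>
      rintro ⟨y, hy⟩
      apply ih
      have h1 : hm (IsLocalRing.residue O) y = 0 := by
        have h2 := congrArg (hm (IsLocalRing.residue O)) hy
        rw [map_mul, map_mul, map_pow, hm_C, (res_eq hϖ ϖ).2 dvd_rfl, map_zero,
          zero_pow (Nat.succ_ne_zero s), zero_mul] at h2
        exact (mul_eq_zero.1 h2.symm).resolve_left hN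
      obtain ⟨y', rfl⟩ := (hm_ker hϖ y).1 h1
      refine ⟨y', ?_⟩
      apply mul_left_cancel₀ (C_ne (O := O) hϖ.ne_zero)
      rw [pow_succ] at hy
      linear_combination hy
  apply key s
  rw [hu, map_mul, map_pow] at h
  have h1 : IsUnit (HahnSeries.C (u : O) : LS O) := u.isUnit.map _
  rw [mul_assoc] at h
  exact (h1.dvd_mul_left).1 h

theorem star_jA (z : QA f) : star (jA k f z) = jA k f (star z) := by
  refine QuadraticAlgebra.ext ?_ ?_
  · rw [QuadraticAlgebra.re_star, jA_re, jA_re, QuadraticAlgebra.re_star, zero_mul, add_zero,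
      zero_mul, add_zero]
  · rw [QuadraticAlgebra.im_star, jA_im, jA_im, QuadraticAlgebra.im_star, Polynomial.map_neg]

theorem star_jL (hd : f.natDegree = 2 * g + 1) (z : QA f) : star (jL hd z) = jL hd (star z) := by
  refine QuadraticAlgebra.ext ?_ ?_
  · rw [QuadraticAlgebra.re_star, jL_re, jL_re, QuadraticAlgebra.re_star, zero_mul, add_zero,
      zero_mul, add_zero]
  · rw [QuadraticAlgebra.im_star, jL_im, jL_im, QuadraticAlgebra.im_star, map_neg, mul_neg]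

theorem bar_KK (hd : f.natDegree = 2 * g + 1) {J : Ideal (CR (fK k f))} {ω : LL f}
    (h : J ≤ KK hd k ω) : bar J ≤ KK hd k (star ω) := by
  intro z hz
  have h1 : star z ∈ J := by
    rw [← Pool.Agent.Y723.HJ.bar_bar J]
    exact Ideal.mem_map_of_mem (starRingEnd (CR (fK k f))) hz
  obtain ⟨b, hb, a, ha, c, hc⟩ := h h1
  refine ⟨b, hb, star a, ?_, star c, ?_⟩
  · rw [← star_jA, ha, star_mul, star_star, jA_c, Pool.Agent.Y723.HJ.star_CC, mul_comm]
  · rw [← star_jL, hc, star_mul, mul_comm]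

theorem norm_jI (V : QA (qi f)) : (jI f V).norm = iP V.norm := by
  rw [norm_eq, norm_eq, map_sub, map_mul, map_pow, map_pow]
  rfl

theorem hm_iN {R S : Type*} [CommRing R] [CommRing S] (φ : R →+* S) (p : R[X]) :
    hm φ (iN p) = iN (p.map φ) := by
  ext n
  rw [hm_coeff]
  rcases le_or_gt n 0 with hn | hn
  · obtain ⟨i, rfl⟩ : ∃ i : ℕ, n = -(i : ℤ) := ⟨(-n).toNat, by omega⟩
    rw [iN_coeff, iN_coeff, coeff_map]
  · rw [iN_coeff_pos _ hn, iN_coeff_pos _ hn, map_zero]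

/-- The order of the local generator in the reduction is at most the degree. -/
theorem ord_le {ϖ : O} (hϖ : Irreducible ϖ) (hm' : f.Monic) (hd : f.natDegree = 2 * g + 1)
    [HF (fK k f)] {J : Ideal (CR (fK k f))} (hJ : J ≠ ⊥) {Φ : O[X]} (hΦ : rX O Φ = 1)
    (hmem : jA k f (cA f Φ) ∈ J) {V : QA (qi f)}
    (hVr : qm (rX O) (q := qi f) (q' := rX O (qi f)) rfl V ≠ 0) (hJV : J ≤ KK hd k (jI f V))
    (hV0 : V.re.coeff 0 ≠ 0) :
    (hm (IsLocalRing.residue O) (jI f V).norm).order ≤ (nm J).natDegree := by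
  have ho : Odd f.natDegree := by rw [hd]; exact odd_two_mul_add_one g
  have hdL := isDomain_LL' hm'
  obtain ⟨n, c, cb, hcb, hn, hrn, hdeg, hmn⟩ := nrm_gen hϖ hm' ho hJ hΦ hmem
  have h1 : jA k f (cA f n) ∈ KK hd k (jI f V * star (jI f V)) :=
    ((Ideal.mul_mono hJV (bar_KK hd hJV)).trans (KK_mul hd _ _)) hmn
  obtain ⟨b, hb, a, ha, hdv⟩ := h1
  have ha' : a = cA f (C b * n) := by
    apply jA_inj (k := k)
    rw [ha, cA_mul, map_mul]
  have hjn : jL hd a = cL f (HahnSeries.C b * iN n) := by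
    rw [ha', cA_mul, jL_mul, jL_C, cL_mul]
    congr 1
    refine QuadraticAlgebra.ext ?_ ?_
    · rw [jL_re]
      rfl
    · rw [jL_im]
      show ti O ^ (g + 1) * iN 0 = 0
      rw [map_zero, mul_zero]
  have hNr : OP.hm (IsLocalRing.residue O) (jI f V).norm ≠ 0 := by
    have h2 := norm_ne (nsq_q (ord1_qL' hm')) (rL_jI_ne hVr)
    rw [norm_eq] at h2
    rw [norm_eq, map_sub, map_mul, map_pow, map_pow]
    exact h2
  rw [hjn, ← QuadraticAlgebra.algebraMap_norm_eq_mul_star,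
    QuadraticAlgebra.algebraMap_dvd_iff] at hdv
  have hdv' : (jI f V).norm ∣ iN n := dvd_prim hϖ hb hNr hdv.1
  obtain ⟨y, hy⟩ := hdv'
  have hn0 : n ≠ 0 := by
    rintro rfl
    rw [map_zero] at hrn
    exact hcb (C_eq_zero.1 hrn.symm)
  have hiN0 : iN n ≠ 0 := by
    intro h0
    exact hn0 (iN_inj (h0.trans (map_zero _).symm))
  have hN0 : (jI f V).norm ≠ 0 := left_ne_zero_of_mul (hy ▸ hiN0)
  have hy0 : y ≠ 0 := right_ne_zero_of_mul (hy ▸ hiN0)
  have hord := HahnSeries.order_mul hN0 hy0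
  rw [← hy] at hord
  have hordN : (jI f V).norm.order ≤ 0 := by
    apply HahnSeries.order_le_of_coeff_ne_zero
    rw [norm_jI]
    have h3 := iP_coeff V.norm 0
    rw [Nat.cast_zero] at h3
    rw [h3, norm_eq, coeff_sub, mul_coeff_zero, qi_coeff_zero, zero_mul, sub_zero, pow_two,
      mul_coeff_zero]
    exact mul_ne_zero hV0 hV0
  have hordn : -((nm J).natDegree : ℤ) ≤ (iN n).order := by
    rw [HahnSeries.le_order_iff_forall hiN0]
    intro j hj
    obtain ⟨i, rfl⟩ : ∃ i : ℕ, j = -(i : ℤ) := ⟨(-j).toNat, by omega⟩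
    rw [iN_coeff]
    apply coeff_eq_zero_of_natDegree_lt
    rw [hdeg]
    omega
  have hr : OP.hm (IsLocalRing.residue O) (iN n) = HahnSeries.C cb := by
    rw [hm_iN]
    have h3 : n.map (IsLocalRing.residue O) = C cb := hrn
    rw [h3, iN_C]
  have hry := congrArg (OP.hm (IsLocalRing.residue O)) hy
  rw [hr, map_mul] at hry
  have hC0 : (HahnSeries.C cb : LS (IsLocalRing.ResidueField O)) ≠ 0 := by
    rw [Ne, map_eq_zero_iff _ HahnSeries.C_injective]
    exact hcb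
  have hyr : OP.hm (IsLocalRing.residue O) y ≠ 0 := right_ne_zero_of_mul (hry ▸ hC0)
  have hord2 := HahnSeries.order_mul hNr hyr
  rw [← hry, HahnSeries.order_C] at hord2
  have hord3 := order_hm_le hyr
  omega

/-- The local generator does not vanish at the point at infinity. -/
theorem coeff_ne {ϖ : O} (hϖ : Irreducible ϖ) (hm' : f.Monic) (hd : f.natDegree = 2 * g + 1)
    {J : Ideal (CR (fK k f))} {Φ : O[X]} (hΦ : rX O Φ = 1)
    (hmem : jA k f (cA f Φ) ∈ J) {V : QA (qi f)} {σ : O[X]} (hσ : IsUnit (σ.coeff 0))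
    (hall : ∀ z ∈ EI hd J, ∃ y : QA (qi f), algebraMap O[X] (QA (qi f)) σ * z = V * y) :
    V.re.coeff 0 ≠ 0 := by
  have hz : algebraMap _ _ (reflect Φ.natDegree Φ) ∈ EI hd J := by
    refine ⟨Φ.natDegree, cA f Φ, hmem, ?_⟩
    rw [jI_c, iP_reflect Φ _ le_rfl, ← map_mul]
    refine QuadraticAlgebra.ext ?_ ?_
    · rw [jL_re]
      show iN Φ = ti O ^ Φ.natDegree * (iN Φ * tt O ^ Φ.natDegree)
      have e : ti O ^ Φ.natDegree * tt O ^ Φ.natDegree = 1 := by rw [← mul_pow, ti_tt, one_pow]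
      linear_combination -iN Φ * e
    · rw [jL_im]
      show ti O ^ (g + 1) * iN 0 = 0
      rw [map_zero, mul_zero]
  obtain ⟨y, hy⟩ := hall _ hz
  have h1 := congrArg (fun z : QA (qi f) => z.re.coeff 0) hy
  simp only [QuadraticAlgebra.re_mul, coeff_add, mul_coeff_zero, qi_coeff_zero, zero_mul, add_zero,
    QuadraticAlgebra.algebraMap_re, coeff_reflect] at h1
  rw [revAt_le (Nat.zero_le _), Nat.sub_zero] at h1
  have hΦ0 : Φ ≠ 0 := by
    rintro rfl
    rw [map_zero] at hΦ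
    exact zero_ne_one hΦ
  intro h0
  rw [h0, zero_mul] at h1
  exact mul_ne_zero hσ.ne_zero (leadingCoeff_ne_zero.2 hΦ0) h1

end rel

end Pool.Agent.H905.OP
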