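import Pool.Agent.H905.OP.Frob
import Mathlib.RingTheory.Frobenius
import Mathlib.NumberTheory.LegendreSymbol.QuadraticReciprocity
import Mathlib.FieldTheory.Finite.GaloisField

/-!
# One point: infinitely many primes modulo which a polynomial is irreducible

Project OP (helper905). If `f` is irreducible modulo `2`, of odd degree, then there are infinitely many primes `p`
congruent to one modulo eight, squares modulo finitely many given odd primes, such that `f` is irreducible
modulo `p`.
-/

set_option autoImplicit false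
set_option linter.deprecated false
set_option linter.unusedSectionVars false

open Polynomial NumberField IsDedekindDomain

namespace Pool.Agent.H905.OP

section loc

variable {N : Type} [Field N] [NumberField N]

/-- two different roots have different reductions -/
theorem red_inj {p : ℕ} [Fact p.Prime] {K : Type} [Field K] (φ : 𝓞 N →+* K) [Algebra (ZMod p) K]
    {f : ℤ[X]} (hsep : (f.map (Int.castRingHom (ZMod p))).Separable)
    {a b : 𝓞 N} (ha : aeval a f = 0) (hb : aeval b f = 0) (h : φ a = φ b) : a = b := by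
  by_contra hne
  set F : (𝓞 N)[X] := f.map (algebraMap ℤ (𝓞 N)) with hF
  have hFa : F.eval a = 0 := by
    rw [hF, eval_map_algebraMap]
    exact ha
  have hFb : F.eval b = 0 := by
    rw [hF, eval_map_algebraMap]
    exact hb
  obtain ⟨h1, hh1⟩ := dvd_iff_isRoot.2 (show IsRoot F a from hFa)
  have hb1 : h1.eval b = 0 := by
    rw [hh1, eval_mul, eval_sub, eval_X, eval_C] at hFb
    exact (mul_eq_zero.1 hFb).resolve_left (sub_ne_zero.2 fun h => hne h.symm)
  obtain ⟨h2, hh2⟩ := dvd_iff_isRoot.2 (show IsRoot h1 b from hb1)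
  have h3 : F.map φ = (f.map (Int.castRingHom (ZMod p))).map (algebraMap (ZMod p) K) := by
    rw [hF, Polynomial.map_map, Polynomial.map_map]
    congr 1
    exact RingHom.ext_int _ _
  have h4 : (F.map φ).Separable := by
    rw [h3]
    exact hsep.map
  rw [hh1, hh2, Polynomial.map_mul, Polynomial.map_mul, Polynomial.map_sub, Polynomial.map_sub,
    map_X, map_C, map_C, h, ← mul_assoc] at h4
  have h5 := h4.squarefree
  have h6 := h5 (X - C (φ b)) (dvd_mul_right _ _)
  exact not_isUnit_X_sub_C _ h6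

theorem red_root {p : ℕ} [Fact p.Prime] {K : Type} [Field K] (φ : 𝓞 N →+* K) [Algebra (ZMod p) K]
    {f : ℤ[X]} {a : 𝓞 N} (ha : aeval a f = 0) :
    aeval (φ a) (f.map (Int.castRingHom (ZMod p))) = 0 := by
  rw [aeval_def, eval₂_map]
  have h1 : (algebraMap (ZMod p) K).comp (Int.castRingHom (ZMod p)) =
      φ.comp (algebraMap ℤ (𝓞 N)) := RingHom.ext_int _ _
  rw [h1, ← hom_eval₂]
  rw [aeval_def] at ha
  rw [ha, map_zero]

theorem root_map {f : ℤ[X]} {a : 𝓞 N} (ha : aeval a f = 0) (τ : 𝓞 N →+* 𝓞 N) :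
    aeval (τ a) f = 0 := by
  rw [aeval_def] at ha ⊢
  have h1 : algebraMap ℤ (𝓞 N) = τ.comp (algebraMap ℤ (𝓞 N)) := RingHom.ext_int _ _
  rw [h1, ← hom_eval₂, ha, map_zero]

theorem red_iter {p : ℕ} {K : Type} [Field K] (φ : 𝓞 N →+* K) (τ : 𝓞 N →+* 𝓞 N)
    (hτ : ∀ x, φ (τ x) = φ x ^ p) (k : ℕ) (x : 𝓞 N) : φ ((τ ^ k) x) = φ x ^ p ^ k := by
  induction k with
  | zero => simp
  | succ k ih =>
    rw [pow_succ', RingHom.mul_def, RingHom.comp_apply, hτ, ih, ← pow_mul, pow_succ]

/-- the Frobenius automorphism permutes the roots in one cycle -/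
theorem cyc {p : ℕ} [Fact p.Prime] {K : Type} [Field K] [Finite K] [Algebra (ZMod p) K]
    (φ : 𝓞 N →+* K) (τ : 𝓞 N →+* 𝓞 N) (hτ : ∀ x, φ (τ x) = φ x ^ p) {f : ℤ[X]} (hm : f.Monic)
    (hi : Irreducible (f.map (Int.castRingHom (ZMod p)))) {a b : 𝓞 N} (ha : aeval a f = 0)
    (hb : aeval b f = 0) : ∃ k : ℕ, (τ ^ k) a = b := by
  have h1 := red_root (p := p) φ ha
  have h2 := red_root (p := p) φ hb
  have hm' : (f.map (Int.castRingHom (ZMod p))).Monic := hm.map _
  have e1 := minpoly.eq_of_irreducible_of_monic hi h1 hm'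
  have e2 := minpoly.eq_of_irreducible_of_monic hi h2 hm'
  have h3 : aeval (φ b) (minpoly (ZMod p) (φ a)) = 0 := by
    rw [← e1]
    exact h2
  obtain ⟨σ, hσ⟩ := IntermediateField.exists_algHom_of_splits_of_aeval
    (fun s => ⟨Algebra.IsIntegral.isIntegral (R := ZMod p) s, (Normal.splits inferInstance s)⟩) h3
  have hσ' : ∃ k : ℕ, ∀ x, σ x = x ^ p ^ k := by
    obtain ⟨n, hn⟩ := (FiniteField.bijective_frobeniusAlgHom_pow (ZMod p) K).2 σ
    refine ⟨n.1, fun x => ?_⟩
    rw [← hn]
    simp only
    have : ∀ k : ℕ, ((FiniteField.frobeniusAlgHom (ZMod p) K) ^ k) x = x ^ p ^ k := by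
      intro k
      induction k with
      | zero => simp
      | succ k ih =>
        rw [pow_succ', AlgHom.mul_apply, ih, FiniteField.coe_frobeniusAlgHom]
        simp only [ZMod.card]
        rw [← pow_mul, pow_succ]
    exact this n.1
  obtain ⟨k, hk⟩ := hσ'
  refine ⟨k, ?_⟩
  refine red_inj (p := p) φ (PerfectField.separable_of_irreducible hi) ?_ hb ?_
  · have : ∀ k : ℕ, aeval ((τ ^ k) a) f = 0 := by
      intro k
      induction k with
      | zero => exact ha
      | succ k ih =>
        rw [pow_succ', RingHom.mul_def, RingHom.comp_apply]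
        exact root_map ih τ
    exact this k
  · rw [red_iter φ τ hτ, ← hk, hσ]

theorem iter_root {f : ℤ[X]} {a : 𝓞 N} (ha : aeval a f = 0) (τ : 𝓞 N →+* 𝓞 N) (k : ℕ) :
    aeval ((τ ^ k) a) f = 0 := by
  induction k with
  | zero => exact ha
  | succ k ih =>
    rw [pow_succ', RingHom.mul_def, RingHom.comp_apply]
    exact root_map ih τ

/-- an element of a finite field which is a root of an irreducible polynomial of degree `n` -/
theorem pow_deg {p : ℕ} [Fact p.Prime] {K : Type} [Field K] [Algebra (ZMod p) K]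
    {h : (ZMod p)[X]} (hi : Irreducible h) {α : K} (hα : aeval α h = 0) :
    α ^ p ^ h.natDegree = α := by
  have : Fact (Irreducible h) := ⟨hi⟩
  have h0 : h ≠ 0 := hi.ne_zero
  have hfd : FiniteDimensional (ZMod p) (AdjoinRoot h) := (AdjoinRoot.powerBasis h0).finite
  have hfin : Finite (AdjoinRoot h) := Module.finite_of_finite (ZMod p)
  have hft : Fintype (AdjoinRoot h) := Fintype.ofFinite _
  have hcard : Fintype.card (AdjoinRoot h) = p ^ h.natDegree := by
    rw [Module.card_eq_pow_finrank (K := ZMod p), ZMod.card, (AdjoinRoot.powerBasis h0).finrank,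
      AdjoinRoot.powerBasis_dim]
  have h1 : (AdjoinRoot.root h) ^ p ^ h.natDegree = AdjoinRoot.root h := by
    rw [← hcard]
    exact FiniteField.pow_card _
  have h2 : h ∣ X ^ p ^ h.natDegree - X := by
    rw [← AdjoinRoot.mk_eq_zero, map_sub, map_pow, AdjoinRoot.mk_X, h1, sub_self]
  obtain ⟨c, hc⟩ := h2
  have h3 : aeval α (X ^ p ^ h.natDegree - X : (ZMod p)[X]) = 0 := by
    rw [hc, map_mul, hα, zero_mul]
  rw [map_sub, map_pow, aeval_X, sub_eq_zero] at h3
  exact h3

/-- the reduction is irreducible if the Frobenius automorphism is transitive on the roots -/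
theorem irr_of_cyc {p : ℕ} [Fact p.Prime] {K : Type} [Field K] [Finite K] [Algebra (ZMod p) K]
    (φ : 𝓞 N →+* K) (τ : 𝓞 N →+* 𝓞 N) (hτ : ∀ x, φ (τ x) = φ x ^ p) {f : ℤ[X]} (hm : f.Monic)
    (hd : 0 < f.natDegree) (hsep : (f.map (Int.castRingHom (ZMod p))).Separable)
    (m : Multiset (𝓞 N)) (hfm : f.map (algebraMap ℤ (𝓞 N)) = (m.map fun a => X - C a).prod)
    (hcyc : ∀ a b : 𝓞 N, aeval a f = 0 → aeval b f = 0 → ∃ k : ℕ, (τ ^ k) a = b) :
    Irreducible (f.map (Int.castRingHom (ZMod p))) := by
  classical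
  have hm' : (f.map (Int.castRingHom (ZMod p))).Monic := hm.map _
  have hmem : ∀ a : 𝓞 N, aeval a f = 0 ↔ a ∈ m := by
    intro a
    rw [← eval_map_algebraMap, hfm, eval_multiset_prod, Multiset.prod_eq_zero_iff,
      Multiset.mem_map]
    constructor
    · rintro ⟨q, hq, hq0⟩
      obtain ⟨b, hb, rfl⟩ := Multiset.mem_map.1 hq
      rw [eval_sub, eval_X, eval_C, sub_eq_zero] at hq0
      rw [hq0]
      exact hb
    · intro ha
      exact ⟨X - C a, Multiset.mem_map_of_mem _ ha, by rw [eval_sub, eval_X, eval_C, sub_self]⟩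
  have hK : (f.map (Int.castRingHom (ZMod p))).map (algebraMap (ZMod p) K) =
      (m.map fun a => X - C (φ a)).prod := by
    have h3 : (f.map (Int.castRingHom (ZMod p))).map (algebraMap (ZMod p) K) =
        (f.map (algebraMap ℤ (𝓞 N))).map φ := by
      rw [Polynomial.map_map, Polynomial.map_map]
      congr 1
      exact RingHom.ext_int _ _
    rw [h3, hfm, Polynomial.map_multiset_prod, Multiset.map_map]
    congr 1
    refine Multiset.map_congr rfl fun a _ => ?_
    rw [Function.comp_apply, Polynomial.map_sub, map_X, map_C]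
  have hmcard : m.card = f.natDegree := by
    have h1 := congrArg natDegree hfm
    rw [hm.natDegree_map, natDegree_multiset_prod_X_sub_C_eq_card] at h1
    exact h1.symm
  obtain ⟨a, ha⟩ : ∃ a, a ∈ m := by
    rw [← Multiset.card_pos_iff_exists_mem, hmcard]
    exact hd
  have ha0 := (hmem a).2 ha
  have hra := red_root (p := p) φ ha0
  have hint : IsIntegral (ZMod p) (φ a) := Algebra.IsIntegral.isIntegral _
  set h := minpoly (ZMod p) (φ a) with hh
  have hdvd : h ∣ f.map (Int.castRingHom (ZMod p)) := minpoly.dvd _ _ hra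
  have hroots : ∀ b ∈ m, aeval (φ b) h = 0 := by
    intro b hb
    obtain ⟨k, hk⟩ := hcyc a b ha0 ((hmem b).2 hb)
    rw [← hk, red_iter φ τ hτ]
    have h1 : ∀ k : ℕ, aeval (φ a ^ p ^ k) h = 0 := by
      intro k
      have h2 : ((FiniteField.frobeniusAlgHom (ZMod p) K) ^ k) (φ a) = φ a ^ p ^ k := by
        induction k with
        | zero => simp
        | succ k ih =>
          rw [pow_succ', AlgHom.mul_apply, ih, FiniteField.coe_frobeniusAlgHom]
          simp only [ZMod.card]
          rw [← pow_mul, pow_succ]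
      rw [← h2, aeval_algHom_apply, minpoly.aeval, map_zero]
    exact h1 k
  have hsK : ((f.map (Int.castRingHom (ZMod p))).map (algebraMap (ZMod p) K)).Separable :=
    hsep.map
  have hroots2 : ((f.map (Int.castRingHom (ZMod p))).map (algebraMap (ZMod p) K)).roots =
      m.map φ := by
    rw [hK]
    have : (m.map fun a => X - C (φ a)) = ((m.map φ).map fun a => X - C a) := by
      rw [Multiset.map_map]
      rfl
    rw [this, roots_multiset_prod_X_sub_C]
  have hnd : (m.map φ).Nodup := by
    rw [← hroots2]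
    exact nodup_roots hsK
  have hle : m.map φ ≤ (h.map (algebraMap (ZMod p) K)).roots := by
    rw [Multiset.le_iff_subset hnd]
    intro c hc
    obtain ⟨b, hb, rfl⟩ := Multiset.mem_map.1 hc
    rw [mem_roots (Polynomial.map_ne_zero (minpoly.ne_zero hint)), IsRoot, eval_map_algebraMap]
    exact hroots b hb
  have hcard := Multiset.card_le_card hle
  rw [Multiset.card_map, hmcard] at hcard
  have hdeg : f.natDegree ≤ h.natDegree := by
    refine hcard.trans ((card_roots' _).trans ?_)
    rw [natDegree_map]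
  have heq : h = f.map (Int.castRingHom (ZMod p)) := by
    refine (eq_of_monic_of_dvd_of_natDegree_le (minpoly.monic hint) hm' hdvd ?_).symm
    rw [hm.natDegree_map]
    exact hdeg
  rw [← heq]
  exact minpoly.irreducible hint

end loc

/-- separability modulo almost all primes -/
theorem sep_almost {f : ℤ[X]} (hs : (f.map (Int.castRingHom ℚ)).Separable) :
    ∃ c : ℤ, c ≠ 0 ∧ ∀ p : ℕ, p.Prime → ¬ (p : ℤ) ∣ c →
      (f.map (Int.castRingHom (ZMod p))).Separable := by
  obtain ⟨a, b, hab⟩ := hs
  obtain ⟨s, hs0, hs1⟩ := IsLocalization.integerNormalization_spec (nonZeroDivisors ℤ) a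
  obtain ⟨t, ht0, ht1⟩ := IsLocalization.integerNormalization_spec (nonZeroDivisors ℤ) b
  set A := IsLocalization.integerNormalization (nonZeroDivisors ℤ) a
  set B := IsLocalization.integerNormalization (nonZeroDivisors ℤ) b
  have h1 : C t * A * f + C s * B * derivative f = C (s * t) := by
    apply Polynomial.map_injective (Int.castRingHom ℚ) Int.cast_injective
    have hs1' : A.map (Int.castRingHom ℚ) = C (s : ℚ) * a := by
      rw [← smul_eq_C_mul]
      exact_mod_cast hs1
    have ht1' : B.map (Int.castRingHom ℚ) = C (t : ℚ) * b := by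
      rw [← smul_eq_C_mul]
      exact_mod_cast ht1
    have es : (Int.castRingHom ℚ) s = (s : ℚ) := rfl
    have et : (Int.castRingHom ℚ) t = (t : ℚ) := rfl
    rw [Polynomial.map_add, Polynomial.map_mul, Polynomial.map_mul, Polynomial.map_mul,
      Polynomial.map_mul, map_C, map_C, map_C, hs1', ht1', ← derivative_map, map_mul, es, et, C_mul]
    linear_combination (C (s : ℚ) * C (t : ℚ)) * hab
  refine ⟨s * t, mul_ne_zero (nonZeroDivisors.ne_zero hs0) (nonZeroDivisors.ne_zero ht0),
    fun p hp hpd => ?_⟩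
  have : Fact p.Prime := ⟨hp⟩
  have h2 := congrArg (Polynomial.map (Int.castRingHom (ZMod p))) h1
  simp only [Polynomial.map_add, Polynomial.map_mul, map_C, ← derivative_map] at h2
  have h3 : (Int.castRingHom (ZMod p)) (s * t) ≠ 0 := by
    rw [eq_intCast, Ne, ZMod.intCast_zmod_eq_zero_iff_dvd]
    exact hpd
  set u := (Int.castRingHom (ZMod p)) (s * t) with hu
  refine ⟨C u⁻¹ * (C ((Int.castRingHom (ZMod p)) t) * A.map (Int.castRingHom (ZMod p))),
    C u⁻¹ * (C ((Int.castRingHom (ZMod p)) s) * B.map (Int.castRingHom (ZMod p))), ?_⟩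
  have h4 : C u⁻¹ * C u = (1 : (ZMod p)[X]) := by
    rw [← C_mul, inv_mul_cancel₀ h3, C_1]
  linear_combination (C u⁻¹) * h2 + h4

end Pool.Agent.H905.OP
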