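import Pool.Agent.H905.OP.Supply
import Mathlib.FieldTheory.SplittingField.Construction

/-!
# One point: infinitely many primes modulo which a polynomial is irreducible

Project OP (helper905), continued.
-/

set_option autoImplicit false
set_option linter.deprecated false
set_option linter.unusedSectionVars false

open Polynomial NumberField IsDedekindDomain

namespace Pool.Agent.H905.OP

section

variable {N : Type} [Field N] [NumberField N]

/-- the action of an automorphism on the integers -/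
noncomputable def tg (g : N ≃ₐ[ℚ] N) : 𝓞 N →+* 𝓞 N := RingOfIntegers.mapRingHom (g : N →+* N)

theorem tg_coe (g : N ≃ₐ[ℚ] N) (x : 𝓞 N) : ((tg g x : 𝓞 N) : N) = g x := rfl

theorem tg_pow (g : N ≃ₐ[ℚ] N) (k : ℕ) : tg (g ^ k) = tg g ^ k := by
  induction k with
  | zero =>
    ext x
    rfl
  | succ k ih =>
    refine RingHom.ext fun x => RingOfIntegers.ext ?_
    rw [pow_succ' (tg g), ← ih, RingHom.mul_def, RingHom.comp_apply, tg_coe, tg_coe, tg_coe,
      pow_succ' g]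
    rfl

/-- a Frobenius automorphism -/
theorem exists_frob [IsGalois ℚ N] (p : ℕ) [hp : Fact p.Prime] :
    ∃ (Q : Ideal (𝓞 N)) (g : N ≃ₐ[ℚ] N), Q.IsMaximal ∧ (p : 𝓞 N) ∈ Q ∧
      ∀ x : 𝓞 N, tg g x - x ^ p ∈ Q := by
  have hm : (Ideal.span {(p : ℤ)}).IsMaximal :=
    PrincipalIdealRing.isMaximal_of_irreducible (Nat.prime_iff_prime_int.1 hp.out).irreducible
  obtain ⟨Q, hQ, hl⟩ := Ideal.exists_maximal_ideal_liesOver_of_isIntegral (S := 𝓞 N)
    (Ideal.span {(p : ℤ)})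
  have hu : Q.under ℤ = Ideal.span {(p : ℤ)} := hl.over.symm
  have hpQ : (p : 𝓞 N) ∈ Q := by
    have h3 : (p : ℤ) ∈ Q.under ℤ := by
      rw [hu]
      exact Ideal.mem_span_singleton_self _
    rw [Ideal.under, Ideal.mem_comap, map_natCast] at h3
    exact h3
  have hQ0 : Q ≠ ⊥ := by
    rintro rfl
    rw [Ideal.mem_bot] at hpQ
    exact hp.out.ne_zero (by exact_mod_cast hpQ)
  have hfin : Finite (𝓞 N ⧸ Q) := Ideal.finiteQuotientOfFreeOfNeBot Q hQ0
  have hinv : Algebra.IsInvariant ℤ (𝓞 N) (N ≃ₐ[ℚ] N) :=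
    ⟨fun b hb => by
      obtain ⟨a, ha⟩ := (Algebra.isInvariant_of_isGalois ℤ ℚ N (𝓞 N)).isInvariant b (by
        intro g
        apply RingOfIntegers.ext
        have h2 := congrArg (algebraMap (𝓞 N) N) (hb g)
        have h3 := algebraMap_galRestrict_apply ℤ g b
        exact h3.trans h2)
      exact ⟨a, ha⟩⟩
  obtain ⟨g, hg⟩ := IsArithFrobAt.exists_of_isInvariant ℤ (N ≃ₐ[ℚ] N) Q
  have hcard : Nat.card (ℤ ⧸ Q.under ℤ) = p := by
    rw [hu]
    have := Nat.card_congr (Int.quotientSpanEquivZMod (p : ℤ)).toEquiv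
    rw [this, Int.natAbs_natCast, Nat.card_zmod]
  refine ⟨Q, g, hQ, hpQ, fun x => ?_⟩
  have h1 := hg x
  rw [hcard] at h1
  exact h1

/-- the roots in the ring of integers -/
theorem exists_mult {f : ℤ[X]} (hm : f.Monic) (hsp : (f.map (algebraMap ℤ N)).Splits) :
    ∃ m : Multiset (𝓞 N), f.map (algebraMap ℤ (𝓞 N)) = (m.map fun a => X - C a).prod := by
  have hm' : (f.map (algebraMap ℤ N)).Monic := hm.map _
  have h1 := hsp.eq_prod_roots_of_monic hm'
  have hint : ∀ x ∈ (f.map (algebraMap ℤ N)).roots, IsIntegral ℤ x := by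
    intro x hx
    refine ⟨f, hm, ?_⟩
    rw [mem_roots hm'.ne_zero, IsRoot, eval_map] at hx
    exact hx
  refine ⟨(f.map (algebraMap ℤ N)).roots.attach.map fun x => ⟨x.1, hint x.1 x.2⟩, ?_⟩
  apply Polynomial.map_injective (algebraMap (𝓞 N) N) RingOfIntegers.coe_injective
  rw [Polynomial.map_map, ← IsScalarTower.algebraMap_eq, Polynomial.map_multiset_prod,
    Multiset.map_map, Multiset.map_map]
  conv_lhs => rw [h1]
  congr 1
  conv_lhs => rw [← Multiset.attach_map_val (f.map (algebraMap ℤ N)).roots, Multiset.map_map]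
  refine Multiset.map_congr rfl fun x _ => ?_
  simp only [Function.comp_apply, Polynomial.map_sub, map_X, map_C]
  rfl

theorem tg_iter (g : N ≃ₐ[ℚ] N) (k : ℕ) (x : 𝓞 N) : ((tg g ^ k) x : 𝓞 N) = tg (g ^ k) x := by
  rw [tg_pow]

/-- an automorphism which permutes the roots of `f` in one cycle and fixes square roots -/
theorem exists_g [IsGalois ℚ N] {f : ℤ[X]} (hm : f.Monic) (ho : Odd f.natDegree)
    (h2 : Irreducible (f.map (Int.castRingHom (ZMod 2)))) :
    ∃ g : N ≃ₐ[ℚ] N, (∀ a b : 𝓞 N, aeval a f = 0 → aeval b f = 0 → ∃ k : ℕ, (tg g ^ k) a = b) ∧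
      ∀ (x : 𝓞 N) (d : ℤ), x ^ 2 = (d : 𝓞 N) → tg g x = x := by
  obtain ⟨Q, τ, hQ, h2Q, hτ⟩ := exists_frob (N := N) 2
  have hQ0 : Q ≠ ⊥ := by
    rintro rfl
    rw [Ideal.mem_bot] at h2Q
    exact two_ne_zero (by exact_mod_cast h2Q)
  let _ : Field (𝓞 N ⧸ Q) := Ideal.Quotient.field Q
  have hfin : Finite (𝓞 N ⧸ Q) := Ideal.finiteQuotientOfFreeOfNeBot Q hQ0
  have h20 : ((2 : ℕ) : 𝓞 N ⧸ Q) = 0 := by
    have := Ideal.Quotient.eq_zero_iff_mem.2 h2Q
    rwa [map_natCast] at this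
  have hchar : CharP (𝓞 N ⧸ Q) 2 := (CharP.charP_iff_prime_eq_zero Nat.prime_two).2 h20
  let _ : Algebra (ZMod 2) (𝓞 N ⧸ Q) := ZMod.algebra (𝓞 N ⧸ Q) 2
  have hφ : ∀ x, Ideal.Quotient.mk Q (tg τ x) = Ideal.Quotient.mk Q x ^ 2 := by
    intro x
    rw [← map_pow]
    exact Ideal.Quotient.eq.2 (hτ x)
  have hcyc : ∀ a b : 𝓞 N, aeval a f = 0 → aeval b f = 0 → ∃ k : ℕ, (tg τ ^ k) a = b :=
    fun a b ha hb => cyc (p := 2) (Ideal.Quotient.mk Q) (tg τ) hφ hm h2 ha hb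
  have hper : ∀ a : 𝓞 N, aeval a f = 0 → (tg τ ^ f.natDegree) a = a := by
    intro a ha
    refine red_inj (p := 2) (Ideal.Quotient.mk Q) (PerfectField.separable_of_irreducible h2)
      (iter_root ha _ _) ha ?_
    rw [red_iter (p := 2) (Ideal.Quotient.mk Q) (tg τ) hφ]
    have h3 := pow_deg (p := 2) h2 (red_root (p := 2) (Ideal.Quotient.mk Q) ha)
    rwa [hm.natDegree_map] at h3
  have hn : Even (f.natDegree + 1) := ho.add_one
  refine ⟨τ ^ (f.natDegree + 1), fun a b ha hb => ?_, fun x d hx => ?_⟩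
  · obtain ⟨k, hk⟩ := hcyc a b ha hb
    refine ⟨k, ?_⟩
    rw [← hk]
    have h4 : ∀ k : ℕ, (tg (τ ^ (f.natDegree + 1)) ^ k) a = (tg τ ^ k) a := by
      intro k
      induction k with
      | zero => rfl
      | succ k ih =>
        rw [pow_succ', RingHom.mul_def, RingHom.comp_apply, ih, tg_pow, pow_succ',
          RingHom.mul_def, RingHom.comp_apply, hper _ (iter_root ha _ _), pow_succ',
          RingHom.mul_def, RingHom.comp_apply]
    exact h4 k
  · have h5 : tg τ x = x ∨ tg τ x = -x := by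
      apply sq_eq_sq_iff_eq_or_eq_neg.1
      rw [← map_pow, hx, map_intCast]
    have h6 : tg τ (tg τ x) = x := by
      rcases h5 with h | h
      · rw [h, h]
      · rw [h, map_neg, h, neg_neg]
    obtain ⟨m, hm⟩ := hn
    rw [hm, ← two_mul, tg_pow, pow_mul]
    have h7 : ∀ k : ℕ, ((tg τ ^ 2) ^ k) x = x := by
      intro k
      induction k with
      | zero => rfl
      | succ k ih =>
        rw [pow_succ', RingHom.mul_def, RingHom.comp_apply, ih, pow_two, RingHom.mul_def,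
          RingHom.comp_apply, h6]
    exact h7 m

/-- the primes, from the field -/
theorem core [IsGalois ℚ N] {f : ℤ[X]} (hm : f.Monic) (ho : Odd f.natDegree)
    (h2 : Irreducible (f.map (Int.castRingHom (ZMod 2))))
    (hs : (f.map (Int.castRingHom ℚ)).Separable) (hsp : (f.map (algebraMap ℤ N)).Splits)
    (D : Finset ℤ) (hD : ∀ d ∈ D, ∃ x : N, x ^ 2 = (d : N)) (B0 : ℕ) :
    ∃ p : ℕ, p.Prime ∧ B0 < p ∧ (∀ d ∈ D, ¬ (p : ℤ) ∣ d → IsSquare (d : ZMod p)) ∧
      Irreducible (f.map (Int.castRingHom (ZMod p))) := by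
  obtain ⟨g, hg1, hg2⟩ := exists_g (N := N) hm ho h2
  obtain ⟨m, hfm⟩ := exists_mult (N := N) hm hsp
  obtain ⟨c, hc0, hc⟩ := sep_almost hs
  obtain ⟨p, hp, hpB, Q, hQp, hpQ, hF⟩ := frob_inf g (max (max B0 2) c.natAbs)
  have : Fact p.Prime := ⟨hp⟩
  have hpc : ¬ (p : ℤ) ∣ c := by
    intro h
    have h1 := Int.natAbs_dvd_natAbs.2 h
    rw [Int.natAbs_natCast] at h1
    have h3 := Nat.le_of_dvd (Int.natAbs_pos.2 hc0) h1
    have h4 := le_max_right (max B0 2) c.natAbs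
    omega
  have hp2 : 2 < p := lt_of_le_of_lt ((le_max_right B0 2).trans (le_max_left _ _)) hpB
  have hQ0 : Q ≠ ⊥ := by
    rintro rfl
    rw [Ideal.mem_bot] at hpQ
    exact hp.ne_zero (by exact_mod_cast hpQ)
  have hQ : Q.IsMaximal := hQp.isMaximal hQ0
  let _ : Field (𝓞 N ⧸ Q) := Ideal.Quotient.field Q
  have hfin : Finite (𝓞 N ⧸ Q) := Ideal.finiteQuotientOfFreeOfNeBot Q hQ0
  have hp0 : ((p : ℕ) : 𝓞 N ⧸ Q) = 0 := by
    have := Ideal.Quotient.eq_zero_iff_mem.2 hpQ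
    rwa [map_natCast] at this
  have hchar : CharP (𝓞 N ⧸ Q) p := (CharP.charP_iff_prime_eq_zero hp).2 hp0
  let _ : Algebra (ZMod p) (𝓞 N ⧸ Q) := ZMod.algebra (𝓞 N ⧸ Q) p
  have hφ : ∀ x, Ideal.Quotient.mk Q (tg g x) = Ideal.Quotient.mk Q x ^ p := by
    intro x
    rw [← map_pow]
    obtain ⟨y, hy, hyx⟩ := hF x
    refine Ideal.Quotient.eq.2 ?_
    have h5 : tg g x - x ^ p = y := by
      apply RingOfIntegers.ext
      rw [hyx]
      rfl
    rw [h5]
    exact hy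
  refine ⟨p, hp, lt_of_le_of_lt ((le_max_left B0 2).trans (le_max_left _ _)) hpB, ?_,
    irr_of_cyc (p := p) (Ideal.Quotient.mk Q) (tg g) hφ hm ho.pos (hc p hp hpc) m hfm hg1⟩
  intro d hd hpd
  obtain ⟨x, hx⟩ := hD d hd
  have hxi : IsIntegral ℤ x := by
    refine ⟨X ^ 2 - C d, monic_X_pow_sub_C d two_ne_zero, ?_⟩
    rw [eval₂_sub, eval₂_X_pow, eval₂_C, hx, sub_eq_zero]
    rfl
  obtain ⟨y, hy⟩ : ∃ y : 𝓞 N, (y : N) = x := ⟨⟨x, hxi⟩, rfl⟩
  have hy2 : y ^ 2 = (d : 𝓞 N) := by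
    apply RingOfIntegers.ext
    show (y : N) ^ 2 = ((d : 𝓞 N) : N)
    rw [hy, hx]
    exact (map_intCast (algebraMap (𝓞 N) N) d).symm
  have h6 := hφ y
  rw [hg2 y d hy2] at h6
  set φ := Ideal.Quotient.mk Q with hφd
  have hd0 : (d : ZMod p) ≠ 0 := by
    rw [Ne, ZMod.intCast_zmod_eq_zero_iff_dvd]
    exact hpd
  have h7 : φ y ^ 2 = algebraMap (ZMod p) (𝓞 N ⧸ Q) (d : ZMod p) := by
    rw [← map_pow, hy2, map_intCast, map_intCast]
  have h8 : φ y ≠ 0 := by
    intro h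
    rw [h, zero_pow two_ne_zero] at h7
    exact hd0 ((FaithfulSMul.algebraMap_injective (ZMod p) (𝓞 N ⧸ Q)) (by rw [← h7, map_zero]))
  have h9 : φ y ^ (p - 1) = 1 := by
    have h10 : φ y ^ (p - 1) * φ y = 1 * φ y := by
      rw [← pow_succ, one_mul, Nat.sub_add_cancel hp.one_le]
      exact h6.symm
    exact mul_right_cancel₀ h8 h10
  rw [ZMod.euler_criterion p hd0]
  have h11 : 2 * (p / 2) = p - 1 := by
    have := hp.eq_two_or_odd
    omega
  apply FaithfulSMul.algebraMap_injective (ZMod p) (𝓞 N ⧸ Q)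
  rw [map_pow, ← h7, ← pow_mul, h11, h9, map_one]

end

/-- the polynomial whose splitting field is used -/
noncomputable def bigF (f : ℤ[X]) (D : Finset ℤ) : ℚ[X] :=
  f.map (Int.castRingHom ℚ) * ∏ d ∈ D, (X ^ 2 - C (d : ℚ))

theorem core_aux {f : ℤ[X]} (hm : f.Monic) (ho : Odd f.natDegree)
    (h2 : Irreducible (f.map (Int.castRingHom (ZMod 2))))
    (hs : (f.map (Int.castRingHom ℚ)).Separable) (D : Finset ℤ) (B0 : ℕ)
    (N : Type) [Field N] [inst : Algebra ℚ N] [hspl : (bigF f D).IsSplittingField ℚ N] :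
    ∃ p : ℕ, p.Prime ∧ B0 < p ∧ (∀ d ∈ D, ¬ (p : ℤ) ∣ d → IsSquare (d : ZMod p)) ∧
      Irreducible (f.map (Int.castRingHom (ZMod p))) := by
  have hq0 : ∀ d : ℤ, (X ^ 2 - C (d : ℚ) : ℚ[X]) ≠ 0 := fun d =>
    (monic_X_pow_sub_C (d : ℚ) two_ne_zero).ne_zero
  have hF0 : bigF f D ≠ 0 :=
    mul_ne_zero (hm.map _).ne_zero (Finset.prod_ne_zero_iff.2 fun d _ => hq0 d)
  have hchar : CharZero N := charZero_of_injective_algebraMap (algebraMap ℚ N).injective
  obtain rfl : inst = DivisionRing.toRatAlgebra := Subsingleton.elim _ _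
  have hfd : FiniteDimensional ℚ N := IsSplittingField.finiteDimensional N (bigF f D)
  have hnf : NumberField N := ⟨⟩
  have hnorm : Normal ℚ N := Normal.of_isSplittingField (bigF f D)
  have hgal : IsGalois ℚ N := ⟨⟩
  have hFm : ((bigF f D).map (algebraMap ℚ N)).Splits := hspl.splits
  have hFm0 : (bigF f D).map (algebraMap ℚ N) ≠ 0 := Polynomial.map_ne_zero hF0
  have hsp : (f.map (algebraMap ℤ N)).Splits := by
    have e1 : f.map (algebraMap ℤ N) =
        (f.map (Int.castRingHom ℚ)).map (algebraMap ℚ N) := by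
      rw [Polynomial.map_map]
      congr 1
      exact RingHom.ext_int _ _
    rw [e1]
    exact hFm.of_dvd hFm0 (Polynomial.map_dvd _ (dvd_mul_right _ _))
  have hDs : ∀ d ∈ D, ∃ x : N, x ^ 2 = (d : N) := by
    intro d hd
    have h1 : ((X ^ 2 - C (d : ℚ) : ℚ[X]).map (algebraMap ℚ N)).Splits :=
      hFm.of_dvd hFm0 (Polynomial.map_dvd _ (dvd_mul_of_dvd_right (Finset.dvd_prod_of_mem _ hd) _))
    obtain ⟨x, hx⟩ := h1.exists_eval_eq_zero (by
      rw [degree_map, degree_X_pow_sub_C two_pos]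
      exact two_ne_zero)
    refine ⟨x, ?_⟩
    rw [Polynomial.map_sub, Polynomial.map_pow, map_X, map_C, eval_sub, eval_pow, eval_X, eval_C,
      sub_eq_zero] at hx
    rw [hx, map_intCast]
  exact core (N := N) hm ho h2 hs hsp D hDs B0

/-- **Infinitely many primes.** -/
theorem supply {f : ℤ[X]} (hm : f.Monic) (ho : Odd f.natDegree)
    (h2 : Irreducible (f.map (Int.castRingHom (ZMod 2))))
    (hs : (f.map (Int.castRingHom ℚ)).Separable) (S : Finset ℕ)
    (hS : ∀ q ∈ S, q.Prime ∧ q ≠ 2) (B0 : ℕ) :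
    ∃ p : ℕ, p.Prime ∧ B0 < p ∧ p % 8 = 1 ∧ (∀ q ∈ S, IsSquare (p : ZMod q)) ∧
      Irreducible (f.map (Int.castRingHom (ZMod p))) := by
  classical
  set D : Finset ℤ := insert (-1) (insert 2 (Finset.image (fun q : ℕ => (q : ℤ)) S)) with hD
  obtain ⟨p, hp, hpB, hsq, hirr⟩ := core_aux hm ho h2 hs D
    (max B0 (max 2 (∑ q ∈ S, q))) (bigF f D).SplittingField (inst := _)
    (hspl := Polynomial.IsSplittingField.splittingField (bigF f D))
  have : Fact p.Prime := ⟨hp⟩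
  have hp2 : 2 < p := lt_of_le_of_lt ((le_max_left 2 _).trans (le_max_right _ _)) hpB
  have hpS : ∑ q ∈ S, q < p := lt_of_le_of_lt ((le_max_right 2 _).trans (le_max_right _ _)) hpB
  have hsqn : ∀ n : ℕ, (n : ℤ) ∈ D → 0 < n → n < p → IsSquare ((n : ℕ) : ZMod p) := by
    intro n hn h0 hlt
    have h3 := hsq (n : ℤ) hn (by
      intro h
      have h4 : p ∣ n := by exact_mod_cast h
      exact absurd (Nat.le_of_dvd h0 h4) (by omega))
    rwa [Int.cast_natCast] at h3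
  have h4 : p % 4 = 1 := by
    have h5 := hsq (-1) (by rw [hD]; exact Finset.mem_insert_self _ _) (by
      intro h
      have h6 : (p : ℤ) ∣ 1 := (dvd_neg).1 h
      have h7 : p ∣ 1 := by exact_mod_cast h6
      exact hp.one_lt.ne' (Nat.dvd_one.1 h7))
    rw [Int.cast_neg, Int.cast_one, ZMod.exists_sq_eq_neg_one_iff] at h5
    have h6 := hp.eq_two_or_odd
    omega
  have h8 : p % 8 = 1 := by
    have h5 := hsqn 2 (by
      rw [hD]
      exact Finset.mem_insert_of_mem (Finset.mem_insert_self _ _)) two_pos hp2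
    rw [Nat.cast_ofNat, ZMod.exists_sq_eq_two_iff hp2.ne'] at h5
    omega
  refine ⟨p, hp, lt_of_le_of_lt (le_max_left _ _) hpB, h8, fun q hq => ?_, hirr⟩
  have : Fact q.Prime := ⟨(hS q hq).1⟩
  rw [← ZMod.exists_sq_eq_prime_iff_of_mod_four_eq_one h4 (hS q hq).2]
  refine hsqn q ?_ (hS q hq).1.pos (lt_of_le_of_lt ?_ hpS)
  · rw [hD]
    exact Finset.mem_insert_of_mem (Finset.mem_insert_of_mem
      (Finset.mem_image_of_mem (fun q : ℕ => (q : ℤ)) hq))
  · exact Finset.single_le_sum (f := fun q : ℕ => q) (fun _ _ => Nat.zero_le _) hq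

end Pool.Agent.H905.OP
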