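import Pool.Agent.H905.OP.Quo

/-!
# One point: classes which are infinitely divisible by two

Project OP (helper905). `O` is a discrete valuation ring with uniformizer `ϖ ∣ 2` and field of fractions
`k`, `f` monic of degree `2 g + 1` over `O` and regular. A class of the class group of
`k[x, y] / (y ^ 2 - f)` which is divisible by all powers of two is trivial.
-/

set_option autoImplicit false

open Polynomial

namespace Pool.Agent.H905.OP

open Pool.Agent.Y723.HJ (CR OddM HF CC mi bar cl nm)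

variable {O : Type*} [CommRing O] [IsDomain O] [IsDiscreteValuationRing O]
variable {k : Type*} [Field k] [Algebra O k] [IsFractionRing O k] {f : O[X]} {g : ℕ}

/-- An ideal which contains a function with a small pole is principal. -/
theorem principal_of {F : k[X]} (hd : F.natDegree = 2 * g + 1) [HF F] {J : Ideal (CR F)} (hJ : J ≠ ⊥)
    {z : CR F} (hz0 : z ≠ 0) (hz : z ∈ J) (hU : z ∈ UU k g (nm J).natDegree F) :
    J = Ideal.span {z} := by
  have h1 : J ∣ Ideal.span {z} := by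
    rw [Ideal.dvd_iff_le, Ideal.span_le, Set.singleton_subset_iff]
    exact hz
  obtain ⟨J', hJ'⟩ := h1
  have hJ'0 : J' ≠ ⊥ := by
    rintro rfl
    rw [← Ideal.zero_eq_bot, mul_zero, Ideal.zero_eq_bot, Ideal.span_singleton_eq_bot] at hJ'
    exact hz0 hJ'
  have h2 := Pool.Agent.Y723.HJ.nm_mul hJ hJ'0
  rw [← hJ'] at h2
  have h3 := (Pool.Agent.Y723.HJ.nm_span hz0).2
  have m1 := (Pool.Agent.Y723.HJ.nm_spec hJ).1
  have m2 := (Pool.Agent.Y723.HJ.nm_spec hJ'0).1
  rw [h2, m1.natDegree_mul m2] at h3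
  have h4 : z.norm.natDegree ≤ (nm J).natDegree := by
    rw [norm_eq]
    refine (natDegree_sub_le _ _).trans (max_le ?_ ?_)
    · rw [natDegree_pow]
      by_contra hc
      push Not at hc
      have h5 := hU.1 z.re.natDegree (by omega)
      rw [coeff_natDegree, leadingCoeff_eq_zero] at h5
      rw [h5, natDegree_zero] at hc
      omega
    · by_cases h0 : z.im = 0
      · rw [h0]
        simp
      · by_contra hc
        push Not at hc
        have h6 : (F * z.im ^ 2).natDegree ≤ F.natDegree + (2 * z.im.natDegree) := by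
          refine natDegree_mul_le.trans ?_
          rw [natDegree_pow]
        rw [hd] at h6
        have h5 := hU.2 z.im.natDegree (by omega)
        rw [coeff_natDegree, leadingCoeff_eq_zero] at h5
        exact h0 h5
  have h5 : nm J' = 1 := eq_one_of_monic_natDegree_zero m2 (by omega)
  have h6 := (Pool.Agent.Y723.HJ.nm_spec hJ'0).2
  have h8 : CC F 1 = 1 := map_one _
  rw [h5, h8, Ideal.span_singleton_one] at h6
  have h7 : J' = ⊤ := by
    rw [eq_top_iff, ← h6]
    exact (Ideal.mul_le_left : J' * bar J' ≤ J')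
  rw [hJ', h7, Ideal.mul_top]

theorem principal {ϖ : O} (hϖ : Irreducible ϖ) (h2 : ϖ ∣ 2) (hm : f.Monic)
    (hd : f.natDegree = 2 * g + 1) [HF (fK k f)] {J : Ideal (CR (fK k f))}
    (hJ : J ≠ ⊥) {Φ : O[X]} (hΦ : rX O Φ = 1) (hmem : jA k f (cA f Φ) ∈ J)
    (happ : ∀ r : ℕ, ∃ (E : Ideal (CR (fK k f))) (Φ' : O[X]) (F : CR (fK k f)), rX O Φ' = 1 ∧
      jA k f (cA f Φ') ∈ E ∧ E ^ 2 ^ r * J = Ideal.span {F}) :
    ∃ z : CR (fK k f), z ≠ 0 ∧ J = Ideal.span {z} := by
  have := isDomain_LL hm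
  have := isDomain_LL' hm
  obtain ⟨V, hV, hVr, σ, hσ, hall⟩ := exists_W hd hϖ h2 hm hΦ hmem
  have hJV := le_KK hd hσ hall
  have hV0 := coeff_ne hϖ hm hd hΦ hmem hσ hall
  have hu : ∀ x : O, IsLocalRing.residue O x ≠ 0 → IsUnit x := by
    intro x hx
    rwa [IsLocalRing.residue_ne_zero_iff_isUnit] at hx
  have hu' : ∀ x : O, IsUnit x → IsLocalRing.residue O x ≠ 0 := by
    intro x hx
    rwa [IsLocalRing.residue_ne_zero_iff_isUnit]
  obtain ⟨ν, hν, hν'⟩ := lift_unit (ρ := IsLocalRing.residue O) (q := qL f) rfl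
    IsLocalRing.residue_surjective hu (ord1_qL hm) (rL_jI_ne hVr)
  obtain ⟨νi, hνi⟩ := hν.exists_right_inv
  have hν'' : rL f ν = rL f (jI f V) := hν'
  set δ := (nm J).natDegree with hδ
  have hq := ord_q (ord1_qL (f := f) hm)
  -- the order
  have hnorm : ∀ z : LL f, (rL f z).norm = OP.hm (IsLocalRing.residue O) z.norm := by
    intro z
    rw [norm_eq, norm_eq, map_sub, map_mul, map_pow, map_pow]
    rfl
  have hνo : ν.norm.order = (OP.hm (IsLocalRing.residue O) (jI f V).norm).order := by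
    have h1 : IsUnit ν.norm := hν.map _
    rw [← order_hm_unit hu' h1, ← hnorm, hν'', hnorm]
  have hVδ : Pl δ (jI f V * νi) := by
    have h1 : Pl 0 (jI f V) := ⟨fun n hn => iP_coeff_neg _ (by omega),
      fun n hn => iP_coeff_neg _ (by omega)⟩
    have h3 := Pl.mul hq h1 (pole_inv (ord1_qL hm) hνi hνo)
    rw [zero_add] at h3
    exact h3.mono (ord_le hϖ hm hd hJ hΦ hmem hVr hJV hV0)
  have hdk : (fK k f).natDegree = 2 * g + 1 := by rw [hm.natDegree_map, hd]
  by_cases hcase : ∀ z ∈ UU k g δ (fK k f), z ∈ J → z = 0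
  · exfalso
    obtain ⟨φ, hφ⟩ := exists_func J hcase
    obtain ⟨m₂, v, hvJ, hvL⟩ := hV
    obtain ⟨pv, hpv⟩ := Pl.exists (jL hd v)
    obtain ⟨s, hs⟩ := step_F hϖ hΦ hmem φ (2 * g + pv + δ)
    obtain ⟨E, Φ', F, hΦ', hmem', hF⟩ := happ s
    obtain ⟨F₁, W, υ, hF₁, hW, hυ, hprod⟩ := relr hϖ h2 hm hd hΦ hmem ⟨m₂, v, hvJ, hvL⟩ hVr hJV
      hΦ' hmem' hF
    obtain ⟨θ, hθ, hap⟩ := approx hϖ h2 hm hd hW hνi hν'' hυ hF₁ hprod
    obtain ⟨G, S, hG, hG0, hS, hGS⟩ := step_D hd hϖ.ne_zero hq hθ hVδ hap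
    have hGS' : jL hd G = (θ * νi * cL f (tt O ^ m₂)) * jL hd v + pL f (ϖ ^ (s + 1)) * S := by
      rw [hGS, hvL]
      have h3 := cL_ti_tt (f := f) m₂
      linear_combination (-(θ * νi * jI f V)) * h3
    obtain ⟨o, ho⟩ := hs G (fun M => by
      obtain ⟨a, p, t, hE, hp, ht⟩ := step_E hd hq hS hpv hGS' M
      refine ⟨a * v, p, t, ?_, hE, ⟨?_, ?_⟩, ?_, ?_⟩
      · rw [map_mul]
        exact Ideal.mul_mem_left _ _ hvJ
      · rw [natDegree_le_iff_coeff_eq_zero]
        intro i hi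
        exact (Pl.deg hd hp).1 i (by omega)
      · rw [natDegree_le_iff_coeff_eq_zero]
        intro i hi
        exact (Pl.deg hd hp).2 i (by omega)
      · rw [natDegree_le_iff_coeff_eq_zero]
        intro i hi
        exact (Pl.deg hd ht).1 i (by omega)
      · rw [natDegree_le_iff_coeff_eq_zero]
        intro i hi
        exact (Pl.deg hd ht).2 i (by omega))
    have hGU : jA k f G ∈ UU k g δ (fK k f) := by
      obtain ⟨h3, h4⟩ := Pl.deg hd hG
      refine ⟨fun i hi => ?_, fun i hi => ?_⟩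
      · rw [jA_re, coeff_map, h3 i (by omega), map_zero]
      · rw [jA_im, coeff_map, h4 i (by omega), map_zero]
    rw [hφ _ hGU, jA_re, coeff_map] at ho
    have h5 := IsFractionRing.injective O k ho
    have h6 : IsLocalRing.residue O (F₁.re.coeff 0) = 1 := by
      have h7 := congrArg (fun z : QA (rX O f) => z.re.coeff 0) hF₁
      have h8 : (F₁.re.map (IsLocalRing.residue O)).coeff 0 =
          (1 : (IsLocalRing.ResidueField O)[X]).coeff 0 := h7
      rwa [coeff_map, coeff_one_zero] at h8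
    rw [← hG0, h5, (res_eq hϖ _).2 (dvd_mul_right _ _)] at h6
    exact zero_ne_one h6
  · push Not at hcase
    obtain ⟨z, hzU, hzJ, hz0⟩ := hcase
    exact ⟨z, hz0, principal_of hdk hJ hz0 hzJ hzU⟩

/-- **Infinitely divisible classes are trivial.** -/
theorem cl_eq_one {ϖ : O} (hϖ : Irreducible ϖ) (h2 : ϖ ∣ 2) (hm : f.Monic)
    (hd : f.natDegree = 2 * g + 1) (hr : Reg ϖ f) [HF (fK k f)] (c : ClassGroup (CR (fK k f)))
    (hc : ∀ r : ℕ, ∃ d : ClassGroup (CR (fK k f)), d ^ 2 ^ r = c) : c = 1 := by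
  have ho : Odd f.natDegree := by rw [hd]; exact odd_two_mul_add_one g
  obtain ⟨d₀, hd₀⟩ := hc 1
  rw [pow_one] at hd₀
  obtain ⟨E, Φ, hE, hcl, hΦ, hmem⟩ := k2 hϖ h2 hm ho hr d₀
  rw [hd₀] at hcl
  have hmem' : jA k f (cA f Φ) ∈ bar E := by
    have h1 : (starRingEnd (CR (fK k f))) (jA k f (cA f Φ)) ∈ bar E := Ideal.mem_map_of_mem _ hmem
    have h3 : (starRingEnd (CR (fK k f))) (jA k f (cA f Φ)) = jA k f (cA f Φ) := by
      rw [jA_c]
      exact Pool.Agent.Y723.HJ.star_CC _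
    rwa [h3] at h1
  obtain ⟨z, hz0, hz⟩ := principal hϖ h2 hm hd (Pool.Agent.Y723.HJ.bar_ne hE) hΦ hmem' (fun r => by
    obtain ⟨d, hd'⟩ := hc (r + 1)
    obtain ⟨E', Φ', F, -, hΦ', hmem'', -, hF⟩ := k3 hϖ h2 hm ho hr r d hE (by rw [hd', hcl])
    exact ⟨E', Φ', F, hΦ', hmem'', hF⟩)
  have h3 : cl (bar E) = 1 := by
    rw [hz]
    exact Pool.Agent.Y723.HJ.cl_span hz0
  rw [Pool.Agent.Y723.HJ.cl_bar hE, hcl, inv_eq_one] at h3
  exact h3

end Pool.Agent.H905.OP
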